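import Mathlib

/-! # Irreducible modules for two commuting sets of operators (page hyp70, (T1)) -/

namespace Pool.Agent.HypLow

variable {K V : Type*} [Field K] [AddCommGroup V] [Module K V]

private theorem iso_min {W : Type*} [AddCommGroup W] [Module K W] [FiniteDimensional K W]
    (p : Submodule K W → Prop) (N : Submodule K W) (hN : N ≠ ⊥) (hp : p N) :
    ∃ M ≤ N, M ≠ ⊥ ∧ p M ∧ ∀ M' ≤ M, p M' → M' = ⊥ ∨ M' = M := by
  have wf : WellFounded (fun a b : Submodule K W => a < b) := wellFounded_lt
  have hne : ({M | M ≤ N ∧ M ≠ ⊥ ∧ p M} : Set (Submodule K W)).Nonempty :=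
    ⟨N, le_refl _, hN, hp⟩
  have h1 := wf.min_mem _ hne
  refine ⟨wf.min _ hne, h1.1, h1.2.1, h1.2.2, ?_⟩
  intro M' hM' hpM'
  by_cases hb : M' = ⊥
  · exact Or.inl hb
  · refine Or.inr ?_
    by_contra hne'
    exact wf.not_lt_min {M | M ≤ N ∧ M ≠ ⊥ ∧ p M} (x := M')
      ⟨hM'.trans h1.1, hb, hpM'⟩ (lt_of_le_of_ne hM' hne')

/-- Schur -/
private theorem iso_schur [IsAlgClosed K] [FiniteDimensional K V] (A : Set (Module.End K V))
    (U : Submodule K V) (hU : U ≠ ⊥) (hst : ∀ S ∈ A, ∀ z ∈ U, S z ∈ U)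
    (hmin : ∀ U' ≤ U, (∀ S ∈ A, ∀ z ∈ U', S z ∈ U') → U' = ⊥ ∨ U' = U)
    (f : U →ₗ[K] U) (hf : ∀ S ∈ A, ∀ z z' : U, (z' : V) = S z → (f z' : V) = S (f z)) :
    ∃ c : K, ∀ z, f z = c • z := by
  have : Nontrivial U := Submodule.nontrivial_iff_ne_bot.2 hU
  obtain ⟨c, hc⟩ := Module.End.exists_eigenvalue f
  obtain ⟨v, hv⟩ := hc.exists_hasEigenvector
  have hv1 : f v = c • v := hv.apply_eq_smul
  have hv2 : v ≠ 0 := hv.2
  refine ⟨c, ?_⟩
  have key := hmin ((LinearMap.ker (f - c • LinearMap.id : U →ₗ[K] U)).map U.subtype)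
    (Submodule.map_subtype_le _ _) ?_
  · rcases key with h | h
    · exfalso
      have : (v : V) ∈ (LinearMap.ker (f - c • LinearMap.id : U →ₗ[K] U)).map U.subtype := by
        refine ⟨v, ?_, rfl⟩
        change (f - c • LinearMap.id : U →ₗ[K] U) v = 0
        rw [LinearMap.sub_apply, LinearMap.smul_apply, LinearMap.id_apply, hv1, sub_self]
      rw [h, Submodule.mem_bot] at this
      exact hv2 (Subtype.ext this)
    · intro z
      have hz : (z : V) ∈ (LinearMap.ker (f - c • LinearMap.id : U →ₗ[K] U)).map U.subtype := by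
        rw [h]
        exact z.2
      obtain ⟨z', hz', hzz⟩ := hz
      have e : z' = z := Subtype.ext hzz
      subst e
      have h2 : (f - c • LinearMap.id : U →ₗ[K] U) z' = 0 := hz'
      rw [LinearMap.sub_apply, LinearMap.smul_apply, LinearMap.id_apply, sub_eq_zero] at h2
      exact h2
  · rintro S hS _ ⟨z, hz, rfl⟩
    refine ⟨⟨S z, hst S hS z z.2⟩, ?_, rfl⟩
    have h1 := hf S hS z ⟨S z, hst S hS z z.2⟩ rfl
    have h2 : (f - c • LinearMap.id : U →ₗ[K] U) z = 0 := hz
    rw [LinearMap.sub_apply, LinearMap.smul_apply, LinearMap.id_apply, sub_eq_zero] at h2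
    change (f - c • LinearMap.id : U →ₗ[K] U) _ = 0
    rw [LinearMap.sub_apply, LinearMap.smul_apply, LinearMap.id_apply, sub_eq_zero]
    refine Subtype.ext ?_
    rw [h1, h2]
    change S (c • (z : V)) = c • S z
    rw [map_smul]

/-- (T1) Take `U` minimal nonzero `A`-stable and `H` the `A`-equivariant maps from `U` to `V`.
The sum of the `φ(U)` is stable and contains `U`, so it is `V`. If `φ 1, …, φ m ∈ H` are linearly
independent then `(x i) ↦ ∑ φ i (x i)` is injective (induction on `m`, Schur). -/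
theorem exists_iso [IsAlgClosed K] [FiniteDimensional K V] [Nontrivial V]
    (A B : Set (Module.End K V)) (hAB : ∀ S ∈ A, ∀ T ∈ B, S * T = T * S)
    (hirr : ∀ W : Submodule K V, (∀ S ∈ A, ∀ w ∈ W, S w ∈ W) → (∀ T ∈ B, ∀ w ∈ W, T w ∈ W) →
      W = ⊥ ∨ W = ⊤) :
    ∃ (U : Submodule K V) (H : Submodule K (U →ₗ[K] V)), U ≠ ⊥ ∧ (∀ S ∈ A, ∀ z ∈ U, S z ∈ U) ∧
      (∀ φ ∈ H, ∀ S ∈ A, ∀ z z' : U, (z' : V) = S z → φ z' = S (φ z)) ∧
      (∀ φ ∈ H, ∀ T ∈ B, T ∘ₗ φ ∈ H) ∧
      (∀ P : Module.End K V, (∀ φ ∈ H, P ∘ₗ φ = 0) → P = 0) ∧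
      Module.finrank K U * Module.finrank K H ≤ Module.finrank K V := by
  obtain ⟨U, -, hU, hst, hmin⟩ := iso_min (K := K) (fun M : Submodule K V =>
    ∀ S ∈ A, ∀ z ∈ M, S z ∈ M) ⊤ top_ne_bot (fun S _ z _ => Submodule.mem_top)
  let H : Submodule K (U →ₗ[K] V) :=
    { carrier := {φ | ∀ S ∈ A, ∀ z z' : U, (z' : V) = S z → φ z' = S (φ z)}
      add_mem' := by
        intro φ ψ hφ hψ S hS z z' h
        rw [LinearMap.add_apply, LinearMap.add_apply, map_add, hφ S hS z z' h, hψ S hS z z' h]
      zero_mem' := by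
        intro S _ z z' _
        rw [LinearMap.zero_apply, LinearMap.zero_apply, map_zero]
      smul_mem' := by
        intro c φ hφ S hS z z' h
        rw [LinearMap.smul_apply, LinearMap.smul_apply, map_smul, hφ S hS z z' h] }
  have hHm : ∀ φ : U →ₗ[K] V, φ ∈ H ↔
      ∀ S ∈ A, ∀ z z' : U, (z' : V) = S z → φ z' = S (φ z) := fun _ => Iff.rfl
  have hHB : ∀ φ ∈ H, ∀ T ∈ B, T ∘ₗ φ ∈ H := by
    intro φ hφ T hT S hS z z' h
    rw [LinearMap.comp_apply, LinearMap.comp_apply, (hHm φ).1 hφ S hS z z' h]
    have := congrArg (fun f : Module.End K V => f (φ z)) (hAB S hS T hT)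
    exact this.symm
  refine ⟨U, H, hU, hst, fun φ hφ => (hHm φ).1 hφ, hHB, ?_, ?_⟩
  · intro P hP
    have hsub : U.subtype ∈ H := fun S hS z z' h => h
    let W : Submodule K V := ⨆ φ : H, LinearMap.range (φ : U →ₗ[K] V)
    have hWle : ∀ φ ∈ H, LinearMap.range φ ≤ W := fun φ hφ =>
      le_iSup (fun φ : H => LinearMap.range (φ : U →ₗ[K] V)) ⟨φ, hφ⟩
    have hW : W = ⊤ := by
      have h1 : ∀ S ∈ A, ∀ w ∈ W, S w ∈ W := by
        intro S hS
        have : W ≤ W.comap S := by
          refine iSup_le ?_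
          rintro ⟨φ, hφ⟩ _ ⟨z, rfl⟩
          refine hWle φ hφ ⟨⟨S z, hst S hS z z.2⟩, ?_⟩
          exact (hHm φ).1 hφ S hS z _ rfl
        exact fun w hw => this hw
      have h2 : ∀ T ∈ B, ∀ w ∈ W, T w ∈ W := by
        intro T hT
        have : W ≤ W.comap T := by
          refine iSup_le ?_
          rintro ⟨φ, hφ⟩ _ ⟨z, rfl⟩
          exact hWle (T ∘ₗ φ) (hHB φ hφ T hT) ⟨z, rfl⟩
        exact fun w hw => this hw
      rcases hirr W h1 h2 with h | h
      · exfalso
        refine hU ?_
        rw [eq_bot_iff, ← h]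
        have := hWle U.subtype hsub
        rwa [Submodule.range_subtype] at this
      · exact h
    have hker : W ≤ LinearMap.ker P := by
      refine iSup_le ?_
      rintro ⟨φ, hφ⟩ _ ⟨z, rfl⟩
      have := congrArg (fun f : U →ₗ[K] V => f z) (hP φ hφ)
      exact this
    rw [hW] at hker
    refine LinearMap.ext fun v => ?_
    exact hker (Submodule.mem_top (x := v))
  · -- dimension count
    let b := Module.finBasis K H
    let ev : (Fin (Module.finrank K H) → U) →ₗ[K] V :=
      ∑ i, ((b i : U →ₗ[K] V) ∘ₗ LinearMap.proj i)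
    have hev : ∀ x, ev x = ∑ i, (b i : U →ₗ[K] V) (x i) := by
      intro x
      change (∑ i, ((b i : U →ₗ[K] V) ∘ₗ LinearMap.proj i)) x = _
      rw [LinearMap.sum_apply]
      rfl
    have hinj : Function.Injective ev := by
      rw [← LinearMap.ker_eq_bot]
      by_contra hne
      have hst' : ∀ S ∈ A, ∀ x x' : Fin (Module.finrank K H) → U, x ∈ LinearMap.ker ev →
          (∀ i, (x' i : V) = S (x i)) → x' ∈ LinearMap.ker ev := by
        intro S hS x x' hx hxx
        rw [LinearMap.mem_ker, hev] at hx ⊢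
        have e : ∀ i, (b i : U →ₗ[K] V) (x' i) = S ((b i : U →ₗ[K] V) (x i)) :=
          fun i => (hHm _).1 (b i).2 S hS _ _ (hxx i)
        rw [Finset.sum_congr rfl fun i _ => e i, ← map_sum, hx, map_zero]
      obtain ⟨M, hMle, hM, hMst, hMmin⟩ := iso_min (K := K)
        (fun M : Submodule K (Fin (Module.finrank K H) → U) => ∀ S ∈ A,
          ∀ x x' : Fin (Module.finrank K H) → U, x ∈ M → (∀ i, (x' i : V) = S (x i)) → x' ∈ M)
        (LinearMap.ker ev) hne hst'
      -- a coordinate which is injective on `M`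
      have hj : ∃ j, ∀ x ∈ M, x j = 0 → x = 0 := by
        by_contra hcon
        refine hM ?_
        rw [eq_bot_iff]
        intro x hx
        rw [Submodule.mem_bot]
        funext j
        have hk := hMmin (M ⊓ LinearMap.ker (LinearMap.proj j)) inf_le_left ?_
        · rcases hk with h | h
          · exfalso
            refine hcon ⟨j, fun y hy hyj => ?_⟩
            have : y ∈ M ⊓ LinearMap.ker (LinearMap.proj j) := ⟨hy, hyj⟩
            rw [h, Submodule.mem_bot] at this
            exact this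
          · have : x ∈ M ⊓ LinearMap.ker (LinearMap.proj j) := by
              rw [h]
              exact hx
            exact this.2
        · intro S hS y y' hy hyy
          refine ⟨hMst S hS y y' hy.1 hyy, ?_⟩
          have h0 : y j = 0 := hy.2
          refine Subtype.ext ?_
          change (y' j : V) = _
          rw [hyy j, h0]
          exact map_zero S
      obtain ⟨j, hj⟩ := hj
      have hsurj : ∀ u : U, ∃ x ∈ M, x j = u := by
        have hk := hmin ((M.map (LinearMap.proj j)).map U.subtype)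
          (Submodule.map_subtype_le _ _) ?_
        · rcases hk with h | h
          · exfalso
            refine hM ?_
            rw [eq_bot_iff]
            intro x hx
            rw [Submodule.mem_bot]
            refine hj x hx ?_
            have : (x j : V) ∈ (M.map (LinearMap.proj j)).map U.subtype :=
              ⟨x j, ⟨x, hx, rfl⟩, rfl⟩
            rw [h, Submodule.mem_bot] at this
            exact Subtype.ext this
          · intro u
            have : (u : V) ∈ (M.map (LinearMap.proj j)).map U.subtype := by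
              rw [h]
              exact u.2
            obtain ⟨_, ⟨x, hx, rfl⟩, hxu⟩ := this
            exact ⟨x, hx, Subtype.ext hxu⟩
        · rintro S hS _ ⟨_, ⟨x, hx, rfl⟩, rfl⟩
          refine ⟨⟨S (x j), hst S hS _ (x j).2⟩, ⟨fun i => ⟨S (x i), hst S hS _ (x i).2⟩,
            hMst S hS x _ hx fun i => rfl, rfl⟩, rfl⟩
      have hbij : Function.Bijective
          ((LinearMap.proj j : (Fin (Module.finrank K H) → U) →ₗ[K] U) ∘ₗ M.subtype) := by
        constructor
        · rw [← LinearMap.ker_eq_bot, eq_bot_iff]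
          rintro ⟨x, hx⟩ hxj
          rw [Submodule.mem_bot]
          exact Subtype.ext (hj x hx hxj)
        · intro u
          obtain ⟨x, hx, hxu⟩ := hsurj u
          exact ⟨⟨x, hx⟩, hxu⟩
      let e := LinearEquiv.ofBijective _ hbij
      let g : U →ₗ[K] (Fin (Module.finrank K H) → U) := M.subtype ∘ₗ (e.symm : U →ₗ[K] M)
      have hgM : ∀ u, g u ∈ M := fun u => (e.symm u).2
      have hgj : ∀ u, g u j = u := fun u => e.apply_symm_apply u
      have hgu : ∀ u, ∀ x ∈ M, x j = u → g u = x := by
        intro u x hx hxu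
        have := hj (g u - x) (M.sub_mem (hgM u) hx) (by
          change g u j - x j = 0
          rw [hgj, hxu, sub_self])
        exact sub_eq_zero.1 this
      have hc : ∀ i, ∃ c : K, ∀ u, g u i = c • u := by
        intro i
        refine iso_schur A U hU hst hmin ((LinearMap.proj i) ∘ₗ g) ?_
        intro S hS z z' hzz
        change (g z' i : V) = S (g z i)
        have h1 := hgu z' (fun i => ⟨S (g z i), hst S hS _ (g z i).2⟩)
          (hMst S hS (g z) _ (hgM z) fun i => rfl) (by
            refine Subtype.ext ?_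
            change S (g z j) = z'
            rw [hgj, hzz])
        rw [h1]
      choose c hc using hc
      have hsum : ∑ i, c i • b i = 0 := by
        refine Subtype.ext ?_
        refine LinearMap.ext fun u => ?_
        have h1 : ev (g u) = 0 := hMle (hgM u)
        rw [hev] at h1
        rw [Submodule.coe_sum, LinearMap.sum_apply]
        refine Eq.trans (Finset.sum_congr rfl fun i _ => ?_) h1
        rw [hc i u, map_smul]
        rfl
      have hc0 := Fintype.linearIndependent_iff.1 b.linearIndependent c hsum j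
      refine hU ?_
      rw [eq_bot_iff]
      intro u hu
      have h1 := hgj ⟨u, hu⟩
      rw [hc j, hc0, zero_smul] at h1
      rw [Submodule.mem_bot]
      exact (congrArg Subtype.val h1).symm
    have hle := LinearMap.finrank_le_finrank_of_injective hinj
    rw [Module.finrank_pi_fintype, Finset.sum_const, Finset.card_univ, Fintype.card_fin,
      smul_eq_mul, mul_comm] at hle
    exact hle

end Pool.Agent.HypLow
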