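import Mathlib

/-! # The scalar (page hyp70, section 4): linear algebra -/

namespace Pool.Agent.HypLow

variable {K V : Type*} [Field K] [AddCommGroup V] [Module K V]

open Polynomial in
private theorem es_mon (T0 : Module.End K V) (n : ℕ) (a : K) (z : V) :
    (Polynomial.aeval T0 (Polynomial.monomial n a)) z = a • (T0 ^ n) z := by
  rw [Polynomial.aeval_monomial]
  rfl

private theorem es_comm {D T0 : Module.End K V} (h : D * T0 = T0 * D) (r : Polynomial K) (v : V) :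
    D (Polynomial.aeval T0 r v) = Polynomial.aeval T0 r (D v) := by
  induction r using Polynomial.induction_on' generalizing v with
  | add p q hp hq =>
    rw [map_add, LinearMap.add_apply, LinearMap.add_apply, map_add, hp, hq]
  | monomial n a =>
    rw [es_mon, es_mon, map_smul]
    have h1 : Commute D (T0 ^ n) := Commute.pow_right (show Commute D T0 from h) n
    have h2 := congrArg (fun f : Module.End K V => f v) h1.eq
    have h3 : D ((T0 ^ n) v) = (T0 ^ n) (D v) := h2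
    rw [h3]

private theorem es_stab {T0 : Module.End K V} {N : Submodule K V} (h : ∀ z ∈ N, T0 z ∈ N)
    (r : Polynomial K) {z : V} (hz : z ∈ N) : Polynomial.aeval T0 r z ∈ N := by
  induction r using Polynomial.induction_on' with
  | add p q hp hq =>
    rw [map_add, LinearMap.add_apply]
    exact N.add_mem hp hq
  | monomial n a =>
    rw [es_mon]
    refine N.smul_mem a ?_
    induction n with
    | zero => exact hz
    | succ n ih =>
      rw [pow_succ']
      exact h _ ih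

private theorem es_eq {T0 T1 : Module.End K V} {N : Submodule K V} (h : ∀ z ∈ N, T0 z ∈ N)
    (hT : ∀ z ∈ N, T0 z = T1 z) (r : Polynomial K) {z : V} (hz : z ∈ N) :
    Polynomial.aeval T0 r z = Polynomial.aeval T1 r z := by
  induction r using Polynomial.induction_on' with
  | add p q hp hq =>
    rw [map_add, map_add, LinearMap.add_apply, LinearMap.add_apply, hp, hq]
  | monomial n a =>
    rw [es_mon, es_mon]
    have h1 : (T0 ^ n) z = (T1 ^ n) z ∧ (T0 ^ n) z ∈ N := by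
      induction n with
      | zero => exact ⟨rfl, hz⟩
      | succ n ih =>
        rw [pow_succ', pow_succ']
        refine ⟨?_, h _ ih.2⟩
        change T0 ((T0 ^ n) z) = T1 ((T1 ^ n) z)
        rw [hT _ ih.2, ih.1]
    rw [h1.1]

private theorem es_mul (T0 : Module.End K V) (r r' : Polynomial K) (z : V) :
    Polynomial.aeval T0 (r * r') z = Polynomial.aeval T0 r' (Polynomial.aeval T0 r z) := by
  rw [mul_comm, map_mul]
  rfl

/-- the stability of the first summand -/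
private theorem es_first {T0 T1 S : Module.End K V} {N0 N1 NS NH : Submodule K V}
    (e0 : N0 = NS ⊔ NH) (l1 : NS ≤ N1)
    (sS0 : ∀ z ∈ NS, T0 z ∈ NS) (sH : ∀ z ∈ NH, T0 z ∈ NH) (hT : ∀ z ∈ NS, T0 z = T1 z)
    (hS : (S * T0 = T0 * S ∧ ∀ z ∈ N0, S z ∈ N0) ∨ (∀ z ∈ N0, S z = T0 z) ∨
      (S * T1 = T1 * S ∧ (∀ z ∈ N1, S z ∈ N1) ∧ ∀ z ∈ NH, S z = T0 z))
    (s0 : ∀ z ∈ N0, T0 z ∈ N0) (r : Polynomial K) {z : V} (hz : z ∈ N0) :
    S (Polynomial.aeval T0 r z) ∈
      N0.map (Polynomial.aeval T0 r) ⊔ N1.map (Polynomial.aeval T1 r) := by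
  rcases hS with ⟨h1, h2⟩ | h1 | ⟨h1, h2, h3⟩
  · rw [es_comm h1]
    exact Submodule.mem_sup_left (Submodule.mem_map_of_mem (h2 z hz))
  · rw [h1 _ (es_stab s0 r hz), es_comm rfl]
    exact Submodule.mem_sup_left (Submodule.mem_map_of_mem (s0 z hz))
  · rw [e0] at hz
    obtain ⟨s, hs, t, ht, rfl⟩ := Submodule.mem_sup.1 hz
    rw [map_add, map_add]
    refine Submodule.add_mem _ ?_ ?_
    · rw [es_eq sS0 hT r hs, es_comm h1]
      exact Submodule.mem_sup_right (Submodule.mem_map_of_mem (h2 s (l1 hs)))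
    · rw [h3 _ (es_stab sH r ht), es_comm rfl]
      refine Submodule.mem_sup_left (Submodule.mem_map_of_mem ?_)
      rw [e0]
      exact Submodule.mem_sup_right (sH t ht)

/-- the first half of the proof that the ideal is prime -/
private theorem es_prime {T0 T1 : Module.End K V} {N0 N1 NS NH NH' : Submodule K V}
    (e0 : N0 = NS ⊔ NH) (e1 : N1 = NS ⊔ NH')
    (sS0 : ∀ z ∈ NS, T0 z ∈ NS)
    (sH' : ∀ z ∈ NH', T1 z ∈ NH')
    (hT : ∀ z ∈ NS, T0 z = T1 z)
    {DS DH : Set (Module.End K V)}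
    (gS : ∀ W : Submodule K V, (∀ D ∈ DS, ∀ v, D v ∈ W) → NS ≤ W)
    (gH : ∀ W : Submodule K V, (∀ D ∈ DH, ∀ v, D v ∈ W) → NH ≤ W)
    (mS : ∀ D ∈ DS, ∀ v, D v ∈ NS)
    (cS0 : ∀ D ∈ DS, D * T0 = T0 * D) (cS1 : ∀ D ∈ DS, D * T1 = T1 * D)
    (cH : ∀ D ∈ DH, D * T0 = T0 * D)
    (kH : ∀ D ∈ DH, ∀ z ∈ NH', D z = 0) {r r' : Polynomial K}
    (hr : N0.map (Polynomial.aeval T0 r) ⊔ N1.map (Polynomial.aeval T1 r) = ⊤)
    (i0 : ∀ z ∈ N0, Polynomial.aeval T0 (r * r') z = 0)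
    (i1 : ∀ z ∈ N1, Polynomial.aeval T1 (r * r') z = 0) :
    ∀ z ∈ N0, Polynomial.aeval T0 r' z = 0 := by
  have hv : ∀ v : V, ∃ n0 ∈ N0, ∃ n1 ∈ N1,
      v = Polynomial.aeval T0 r n0 + Polynomial.aeval T1 r n1 := by
    intro v
    have h1 : v ∈ N0.map (Polynomial.aeval T0 r) ⊔ N1.map (Polynomial.aeval T1 r) := by
      rw [hr]
      exact Submodule.mem_top
    obtain ⟨a, ha, b, hb, rfl⟩ := Submodule.mem_sup.1 h1
    obtain ⟨n0, h0, rfl⟩ := Submodule.mem_map.1 ha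
    obtain ⟨n1, h2, rfl⟩ := Submodule.mem_map.1 hb
    exact ⟨n0, h0, n1, h2, rfl⟩
  have k1 : NS ≤ LinearMap.ker (Polynomial.aeval T0 r') := by
    refine gS _ fun D hD v => ?_
    rw [LinearMap.mem_ker]
    obtain ⟨n0, h0, n1, h1, rfl⟩ := hv v
    rw [map_add, map_add]
    have a1 : Polynomial.aeval T0 r' (D (Polynomial.aeval T0 r n0)) = 0 := by
      rw [← es_comm (cS0 D hD), ← es_mul, i0 n0 h0, map_zero]
    have a2 : Polynomial.aeval T0 r' (D (Polynomial.aeval T1 r n1)) = 0 := by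
      rw [es_eq sS0 hT r' (mS D hD _), ← es_comm (cS1 D hD), ← es_mul, i1 n1 h1, map_zero]
    rw [a1, a2, add_zero]
  have k2 : NH ≤ LinearMap.ker (Polynomial.aeval T0 r') := by
    refine gH _ fun D hD v => ?_
    rw [LinearMap.mem_ker]
    obtain ⟨n0, h0, n1, h1, rfl⟩ := hv v
    rw [map_add, map_add]
    have a1 : Polynomial.aeval T0 r' (D (Polynomial.aeval T0 r n0)) = 0 := by
      rw [← es_comm (cH D hD), ← es_mul, i0 n0 h0, map_zero]
    have a2 : Polynomial.aeval T0 r' (D (Polynomial.aeval T1 r n1)) = 0 := by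
      rw [e1] at h1
      obtain ⟨s, hs, t, ht, rfl⟩ := Submodule.mem_sup.1 h1
      rw [map_add (Polynomial.aeval T1 r), map_add D, kH D hD _ (es_stab sH' r ht), add_zero,
        ← es_eq sS0 hT r hs, ← es_comm (cH D hD), ← es_mul, i0 s, map_zero]
      rw [e0]
      exact Submodule.mem_sup_left hs
    rw [a1, a2, add_zero]
  intro z hz
  have h1 : N0 ≤ LinearMap.ker (Polynomial.aeval T0 r') := by
    rw [e0]
    exact sup_le k1 k2
  exact LinearMap.mem_ker.1 (h1 hz)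

/-- Section 4 of the page. `R r := r(T0) N0 + r(T1) N1` is stable under all operators of `T`, so
`0` or everything, and `{r | R r = 0}` is a nonzero prime ideal of `K[X]`. -/
theorem exists_scalar [IsAlgClosed K] [FiniteDimensional K V] (T : Set (Module.End K V))
    (hirr : ∀ W : Submodule K V, (∀ S ∈ T, ∀ w ∈ W, S w ∈ W) → W = ⊥ ∨ W = ⊤)
    (T0 T1 : Module.End K V) (N0 N1 NS NH NH' : Submodule K V) (hne : N0 ≠ ⊥)
    (e0 : N0 = NS ⊔ NH) (e1 : N1 = NS ⊔ NH')
    (sS0 : ∀ z ∈ NS, T0 z ∈ NS) (sS1 : ∀ z ∈ NS, T1 z ∈ NS)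
    (sH : ∀ z ∈ NH, T0 z ∈ NH) (sH' : ∀ z ∈ NH', T1 z ∈ NH')
    (hT : ∀ z ∈ NS, T0 z = T1 z)
    (h0 : ∀ S ∈ T, (S * T0 = T0 * S ∧ ∀ z ∈ N0, S z ∈ N0) ∨ (∀ z ∈ N0, S z = T0 z) ∨
      (S * T1 = T1 * S ∧ (∀ z ∈ N1, S z ∈ N1) ∧ ∀ z ∈ NH, S z = T0 z))
    (h1 : ∀ S ∈ T, (S * T1 = T1 * S ∧ ∀ z ∈ N1, S z ∈ N1) ∨ (∀ z ∈ N1, S z = T1 z) ∨
      (S * T0 = T0 * S ∧ (∀ z ∈ N0, S z ∈ N0) ∧ ∀ z ∈ NH', S z = T1 z))
    (DS DH DH' : Set (Module.End K V))
    (gS : ∀ W : Submodule K V, (∀ D ∈ DS, ∀ v, D v ∈ W) → NS ≤ W)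
    (gH : ∀ W : Submodule K V, (∀ D ∈ DH, ∀ v, D v ∈ W) → NH ≤ W)
    (gH' : ∀ W : Submodule K V, (∀ D ∈ DH', ∀ v, D v ∈ W) → NH' ≤ W)
    (mS : ∀ D ∈ DS, ∀ v, D v ∈ NS)
    (cS0 : ∀ D ∈ DS, D * T0 = T0 * D) (cS1 : ∀ D ∈ DS, D * T1 = T1 * D)
    (cH : ∀ D ∈ DH, D * T0 = T0 * D) (cH' : ∀ D ∈ DH', D * T1 = T1 * D)
    (kH : ∀ D ∈ DH, ∀ z ∈ NH', D z = 0) (kH' : ∀ D ∈ DH', ∀ z ∈ NH, D z = 0) :
    ∃ μ : K, (∀ z ∈ N0, T0 z = μ • z) ∧ ∀ z ∈ N1, T1 z = μ • z := by
  have l0 : NS ≤ N0 := by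
    rw [e0]
    exact le_sup_left
  have l1 : NS ≤ N1 := by
    rw [e1]
    exact le_sup_left
  have s0 : ∀ z ∈ N0, T0 z ∈ N0 := by
    intro z hz
    rw [e0] at hz ⊢
    obtain ⟨s, hs, t, ht, rfl⟩ := Submodule.mem_sup.1 hz
    rw [map_add]
    exact Submodule.add_mem _ (Submodule.mem_sup_left (sS0 s hs)) (Submodule.mem_sup_right (sH t ht))
  have s1 : ∀ z ∈ N1, T1 z ∈ N1 := by
    intro z hz
    rw [e1] at hz ⊢
    obtain ⟨s, hs, t, ht, rfl⟩ := Submodule.mem_sup.1 hz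
    rw [map_add]
    exact Submodule.add_mem _ (Submodule.mem_sup_left (sS1 s hs))
      (Submodule.mem_sup_right (sH' t ht))
  have hT' : ∀ z ∈ NS, T1 z = T0 z := fun z hz => (hT z hz).symm
  -- the dichotomy
  have hdich : ∀ r : Polynomial K,
      N0.map (Polynomial.aeval T0 r) ⊔ N1.map (Polynomial.aeval T1 r) = ⊥ ∨
        N0.map (Polynomial.aeval T0 r) ⊔ N1.map (Polynomial.aeval T1 r) = ⊤ := by
    intro r
    refine hirr _ fun S hS w hw => ?_
    obtain ⟨a, ha, b, hb, rfl⟩ := Submodule.mem_sup.1 hw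
    obtain ⟨n0, hn0, rfl⟩ := Submodule.mem_map.1 ha
    obtain ⟨n1, hn1, rfl⟩ := Submodule.mem_map.1 hb
    rw [map_add]
    refine Submodule.add_mem _ (es_first e0 l1 sS0 sH hT (h0 S hS) s0 r hn0) ?_
    rw [sup_comm]
    exact es_first e1 l0 sS1 sH' hT' (h1 S hS) s1 r hn1
  -- the ideal
  let I : Polynomial K → Prop := fun r =>
    (∀ z ∈ N0, Polynomial.aeval T0 r z = 0) ∧ ∀ z ∈ N1, Polynomial.aeval T1 r z = 0
  have hprime : ∀ r r' : Polynomial K, I (r * r') → I r ∨ I r' := by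
    rintro r r' ⟨i0, i1⟩
    rcases hdich r with h | h
    · left
      rw [sup_eq_bot_iff] at h
      refine ⟨fun z hz => ?_, fun z hz => ?_⟩
      · have := Submodule.mem_map_of_mem (f := Polynomial.aeval T0 r) hz
        rw [h.1] at this
        exact (Submodule.mem_bot K).1 this
      · have := Submodule.mem_map_of_mem (f := Polynomial.aeval T1 r) hz
        rw [h.2] at this
        exact (Submodule.mem_bot K).1 this
    · right
      refine ⟨es_prime e0 e1 sS0 sH' hT gS gH mS cS0 cS1 cH kH h i0 i1, ?_⟩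
      refine es_prime e1 e0 sS1 sH hT' gS gH' mS cS1 cS0 cH' kH' ?_ i1 i0
      rw [sup_comm]
      exact h
  have hunit : ∀ c : K, c ≠ 0 → ¬ I (Polynomial.C c) := by
    rintro c hc ⟨i0, -⟩
    apply hne
    rw [Submodule.eq_bot_iff]
    intro z hz
    have h2 := i0 z hz
    rw [Polynomial.aeval_C] at h2
    have h3 : c • z = 0 := h2
    exact (smul_eq_zero.1 h3).resolve_left hc
  have hroot : ∀ n : ℕ, ∀ r : Polynomial K, r.natDegree ≤ n → r ≠ 0 → I r →
      ∃ μ : K, I (Polynomial.X - Polynomial.C μ) := by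
    intro n
    induction n with
    | zero =>
      intro r hr hr0 hI
      exfalso
      rw [Polynomial.eq_C_of_natDegree_le_zero hr] at hI hr0
      exact hunit _ (fun h => hr0 (by rw [h, Polynomial.C_0])) hI
    | succ n ih =>
      intro r hr hr0 hI
      by_cases hd : r.natDegree = 0
      · exact ih r (by omega) hr0 hI
      · have hd' : r.degree ≠ 0 := by
          intro h
          exact hd (Polynomial.natDegree_eq_of_degree_eq_some h)
        obtain ⟨μ, hμ⟩ := IsAlgClosed.exists_root r hd'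
        obtain ⟨q, rfl⟩ := Polynomial.dvd_iff_isRoot.2 hμ
        rcases hprime _ _ hI with h | h
        · exact ⟨μ, h⟩
        · have hq : q ≠ 0 := right_ne_zero_of_mul hr0
          refine ih q ?_ hq h
          have h5 := Polynomial.natDegree_mul (Polynomial.X_sub_C_ne_zero μ) hq
          rw [Polynomial.natDegree_X_sub_C] at h5
          omega
  have hI : I (minpoly K T0 * minpoly K T1) := by
    refine ⟨fun z _ => ?_, fun z _ => ?_⟩
    · rw [map_mul, minpoly.aeval, zero_mul]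
      rfl
    · rw [map_mul, minpoly.aeval K T1, mul_zero]
      rfl
  have hne0 : minpoly K T0 * minpoly K T1 ≠ 0 :=
    mul_ne_zero (minpoly.ne_zero (Algebra.IsIntegral.isIntegral T0))
      (minpoly.ne_zero (Algebra.IsIntegral.isIntegral T1))
  obtain ⟨μ, i0, i1⟩ := hroot _ _ le_rfl hne0 hI
  refine ⟨μ, fun z hz => ?_, fun z hz => ?_⟩
  · have h2 := i0 z hz
    rw [map_sub, Polynomial.aeval_X, Polynomial.aeval_C, LinearMap.sub_apply] at h2
    exact sub_eq_zero.1 h2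
  · have h2 := i1 z hz
    rw [map_sub, Polynomial.aeval_X, Polynomial.aeval_C, LinearMap.sub_apply] at h2
    exact sub_eq_zero.1 h2

end Pool.Agent.HypLow
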