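import Pool.Agent.Lib.HypQ.MixDim

/-! # Many boxes (page hyp70, (T4)) -/

namespace Pool.Agent.HypLow

universe v

variable {n : ℕ} {K : Type*} [Field K]

private theorem pairs_le {m : ℕ} (hm : 2 ≤ m) : m ≤ 2 * m.choose 2 := by
  induction m, hm using Nat.le_induction with
  | base => decide
  | succ m hm ih =>
    have h : (m + 1).choose 2 = m + m.choose 2 := by
      rw [Nat.choose_succ_succ' m 1, Nat.choose_one_right]
    rw [h]
    omega

private theorem pairs_num {k : ℕ} (hk : 3 ≤ k) {m : ℕ} (hm : 2 ≤ m) :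
    m.choose 2 * k ^ 2 ≤ k ^ m := by
  induction m, hm using Nat.le_induction with
  | base => simp
  | succ m hm ih =>
    have h : (m + 1).choose 2 = m + m.choose 2 := by
      rw [Nat.choose_succ_succ' m 1, Nat.choose_one_right]
    have h1 := pairs_le hm
    have h2 : (m + 1).choose 2 ≤ k * m.choose 2 := by
      rw [h]
      have h3 : 3 * m.choose 2 ≤ k * m.choose 2 := Nat.mul_le_mul_right _ hk
      omega
    calc (m + 1).choose 2 * k ^ 2 ≤ k * m.choose 2 * k ^ 2 := Nat.mul_le_mul_right _ h2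
      _ = k * (m.choose 2 * k ^ 2) := by ring
      _ ≤ k * k ^ m := Nat.mul_le_mul_left _ ih
      _ = k ^ (m + 1) := by ring

private theorem pairs_card {s : ℕ} (S : Finset (Fin s)) :
    ((S ×ˢ S).filter fun p => p.1 < p.2).card = S.card.choose 2 := by
  classical
  have h1 : (S.offDiag.filter fun p => p.1 < p.2).card +
      (S.offDiag.filter fun p => ¬ p.1 < p.2).card = S.offDiag.card :=
    Finset.card_filter_add_card_filter_not _
  have h2 : (S.offDiag.filter fun p => ¬ p.1 < p.2).card =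
      (S.offDiag.filter fun p => p.1 < p.2).card := by
    refine Finset.card_nbij' (fun p => (p.2, p.1)) (fun p => (p.2, p.1)) ?_ ?_ ?_ ?_
    · intro p hp
      simp only [Finset.coe_filter, Finset.mem_offDiag, Set.mem_ofPred_eq, not_lt] at hp ⊢
      exact ⟨⟨hp.1.2.1, hp.1.1, fun e => hp.1.2.2 e.symm⟩, lt_of_le_of_ne hp.2 (fun e => hp.1.2.2 e.symm)⟩
    · intro p hp
      simp only [Finset.coe_filter, Finset.mem_offDiag, Set.mem_ofPred_eq, not_lt] at hp ⊢
      exact ⟨⟨hp.1.2.1, hp.1.1, fun e => hp.1.2.2 e.symm⟩, hp.2.le⟩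
    · intro p _
      rfl
    · intro p _
      rfl
  have h3 : ((S ×ˢ S).filter fun p => p.1 < p.2) = S.offDiag.filter fun p => p.1 < p.2 := by
    ext p
    simp only [Finset.mem_filter, Finset.mem_product, Finset.mem_offDiag]
    constructor
    · rintro ⟨⟨h4, h5⟩, h6⟩
      exact ⟨⟨h4, h5, h6.ne⟩, h6⟩
    · rintro ⟨⟨h4, h5, -⟩, h6⟩
      exact ⟨⟨h4, h5⟩, h6⟩
  rw [h3]
  rw [h2, Finset.offDiag_card] at h1
  rw [Nat.choose_two_right, Nat.mul_sub_one]
  omega

/-- the ranges of the products span everything -/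
private theorem pairs_span {V : Type*} [AddCommGroup V] [Module K V]
    {t : (Fin n → ℤ) → Module.End K V} (l : List (Set (Fin n → ℤ)))
    (h : ∀ X ∈ l, NX X t ⊤ = ⊤) :
    Submodule.span K {z : V | ∃ P, Mix t l P ∧ ∃ y, z = P y} = ⊤ := by
  induction l with
  | nil =>
    rw [eq_top_iff]
    intro z _
    exact Submodule.subset_span ⟨1, rfl, z, rfl⟩
  | cons X l ih =>
    rw [eq_top_iff, ← h X List.mem_cons_self]
    refine NX_le_iff.2 fun u hu v hv w _ => ?_
    have h1 : Submodule.span K {z : V | ∃ P, Mix t l P ∧ ∃ y, z = P y} ≤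
        (Submodule.span K {z : V | ∃ P, Mix t (X :: l) P ∧ ∃ y, z = P y}).comap (t u - t v) := by
      refine Submodule.span_le.2 ?_
      rintro z ⟨P, hP, y, rfl⟩
      refine Submodule.subset_span ⟨(t u - t v) * P, ⟨u, hu, v, hv, P, hP, rfl⟩, y, rfl⟩
    have h2 : w ∈ Submodule.span K {z : V | ∃ P, Mix t l P ∧ ∃ y, z = P y} := by
      rw [ih fun Y hY => h Y (List.mem_cons_of_mem _ hY)]
      exact Submodule.mem_top
    exact h1 h2

private theorem pairs_claim [IsAlgClosed K] {k : ℕ} (hk : 3 ≤ k) {s : ℕ}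
    (lo up : Fin s → (Fin n → ℤ)) (hgood : ∀ i, ∃ a, lo i a + 4 ≤ up i a)
    (hN : ∀ i, Nab.{v} K (lo i) (up i) k)
    (hfar : ∀ i j, i ≠ j → ∀ x ∈ Box (lo i) (up i), ∀ y ∈ Box (lo j) (up j), Far x y) :
    ∀ (N : ℕ) (V : Type v) [AddCommGroup V] [Module K V] [FiniteDimensional K V]
      (t : (Fin n → ℤ) → Module.End K V), Module.finrank K V ≤ N →
      (∀ i, ∀ x ∈ Box (lo i) (up i), Function.Injective (t x)) →
      Sys {x | ∃ i, x ∈ Box (lo i) (up i)} t →
      ∀ T : Finset (Fin s × Fin s), (∀ p ∈ T, p.1 < p.2 ∧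
        ∃ u ∈ Box (lo p.1) (up p.1), ∃ v ∈ Box (lo p.1) (up p.1),
        ∃ w ∈ Box (lo p.2) (up p.2), ∃ w' ∈ Box (lo p.2) (up p.2),
          (t u - t v) * (t w - t w') ≠ 0) → T.card * k ^ 2 ≤ Module.finrank K V := by
  classical
  intro N
  induction N with
  | zero =>
    intro V _ _ _ t hr _ _ T hT
    have h1 : Subsingleton V := Module.finrank_zero_iff.1 (Nat.le_zero.1 hr)
    have h2 : T = ∅ := by
      by_contra h3
      obtain ⟨p, hp⟩ := Finset.nonempty_iff_ne_empty.2 h3
      obtain ⟨-, u, -, v, -, w, -, w', -, h4⟩ := hT p hp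
      exact h4 (LinearMap.ext fun z => Subsingleton.elim _ _)
    rw [h2]
    simp
  | succ N ih =>
    intro V _ _ _ t hr hinj hS T hT
    have hinj' : ∀ x ∈ {x | ∃ i, x ∈ Box (lo i) (up i)}, Function.Injective (t x) := by
      rintro x ⟨i, hx⟩
      exact hinj i x hx
    rcases T.eq_empty_or_nonempty with rfl | hTne
    · simp
    by_cases hirr : ∀ W : Submodule K V, (∀ x ∈ {x | ∃ i, x ∈ Box (lo i) (up i)},
        ∀ w ∈ W, t x w ∈ W) → W = ⊥ ∨ W = ⊤
    · -- irreducible
      have hnt : Nontrivial V := by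
        by_contra h2
        rw [not_nontrivial_iff_subsingleton] at h2
        obtain ⟨p, hp⟩ := hTne
        obtain ⟨-, u, -, v, -, w, -, w', -, h4⟩ := hT p hp
        exact h4 (LinearMap.ext fun z => Subsingleton.elim _ _)
      let S : Finset (Fin s) := Finset.univ.filter fun i =>
        ∃ u ∈ Box (lo i) (up i), ∃ v ∈ Box (lo i) (up i), t u ≠ t v
      have hSm : ∀ i, i ∈ S ↔ ∃ u ∈ Box (lo i) (up i), ∃ v ∈ Box (lo i) (up i), t u ≠ t v := by
        intro i
        simp [S]
      have hTS : T ⊆ (S ×ˢ S).filter fun p => p.1 < p.2 := by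
        intro p hp
        obtain ⟨h1, u, hu, v, hv, w, hw, w', hw', h4⟩ := hT p hp
        refine Finset.mem_filter.2 ⟨Finset.mem_product.2 ⟨?_, ?_⟩, h1⟩
        · refine (hSm _).2 ⟨u, hu, v, hv, fun e => h4 ?_⟩
          rw [e, sub_self, zero_mul]
        · refine (hSm _).2 ⟨w, hw, w', hw', fun e => h4 ?_⟩
          rw [e, sub_self, mul_zero]
      have hcard : T.card ≤ S.card.choose 2 := by
        rw [← pairs_card S]
        exact Finset.card_le_card hTS
      have hS2 : 2 ≤ S.card := by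
        by_contra h2
        have h3 : S.card.choose 2 = 0 := Nat.choose_eq_zero_of_lt (by omega)
        have h4 := hTne.card_pos
        omega
      -- the boxes of `S`
      have hNX : ∀ i ∈ S, NX (Box (lo i) (up i)) t ⊤ = ⊤ := by
        intro i hi
        obtain ⟨u, hu, v, hv, hne⟩ := (hSm i).1 hi
        obtain ⟨a, ha⟩ := hgood i
        rcases hirr (NX (Box (lo i) (up i)) t ⊤) (by
          rintro x ⟨j, hx⟩
          by_cases hij : j = i
          · subst hij
            exact NX_stable a ha (hS.mono fun y hy => ⟨j, hy⟩)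
              (fun y _ w _ => Submodule.mem_top) x hx
          · exact NX_map (t x) (fun y hy => hS.comm x ⟨j, hx⟩ y ⟨i, hy⟩ (hfar j i hij x hx y hy))
              (fun w _ => Submodule.mem_top)) with h | h
        · exfalso
          apply hne
          refine LinearMap.ext fun z => ?_
          have h1 := mem_NX (t := t) hu hv (Submodule.mem_top (x := z) (R := K))
          rw [h, Submodule.mem_bot] at h1
          exact sub_eq_zero.1 h1
        · exact h
      let f : Fin s → (Fin n → ℤ) × (Fin n → ℤ) := fun i => (lo i, up i)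
      let L : List ((Fin n → ℤ) × (Fin n → ℤ)) := S.toList.map f
      have hLm : ∀ b ∈ L, ∃ i ∈ S, f i = b := by
        intro b hb
        obtain ⟨i, hi, hib⟩ := List.mem_map.1 hb
        exact ⟨i, Finset.mem_toList.1 hi, hib⟩
      have hBL : Boxes L := by
        refine ⟨?_, ?_⟩
        · intro b hb
          obtain ⟨i, -, rfl⟩ := hLm b hb
          exact hgood i
        · refine List.pairwise_map.2 ?_
          refine List.Pairwise.imp ?_ (Finset.nodup_toList S)
          intro i j hij x hx y hy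
          exact hfar i j hij x hx y hy
      have hun : ∀ x ∈ un L, x ∈ {x | ∃ i, x ∈ Box (lo i) (up i)} := by
        rintro x ⟨b, hb, hx⟩
        obtain ⟨i, -, rfl⟩ := hLm b hb
        exact ⟨i, hx⟩
      have hsp := pairs_span (t := t) (sets L) (by
        intro X hX
        unfold sets at hX
        obtain ⟨b, hb, rfl⟩ := List.mem_map.1 hX
        obtain ⟨i, hi, rfl⟩ := hLm b hb
        exact hNX i hi)
      have hP : ∃ P, Mix t (sets L) P ∧ P ≠ 0 := by
        by_contra hcon
        push Not at hcon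
        have h1 : Submodule.span K {z : V | ∃ P, Mix t (sets L) P ∧ ∃ y, z = P y} ≤ ⊥ := by
          refine Submodule.span_le.2 ?_
          rintro z ⟨P, hP, y, rfl⟩
          rw [hcon P hP]
          exact Submodule.zero_mem _
        rw [hsp] at h1
        exact absurd (le_antisymm h1 bot_le) (top_ne_bot (α := Submodule K V))
      obtain ⟨P, hPm, hP0⟩ := hP
      have h5 := mix_dim (K := K) (fun _ => k) L hBL (by
        intro b hb
        obtain ⟨i, -, rfl⟩ := hLm b hb
        exact hN i) V t (fun x hx => hinj' x (hun x hx)) (hS.mono hun) P hPm hP0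
      have h6 : (L.map fun _ => k).prod = k ^ S.card := by
        rw [List.map_const', List.prod_replicate, List.length_map, Finset.length_toList]
      rw [h6] at h5
      calc T.card * k ^ 2 ≤ S.card.choose 2 * k ^ 2 := Nat.mul_le_mul_right _ hcard
        _ ≤ k ^ S.card := pairs_num hk hS2
        _ ≤ _ := h5
    · push Not at hirr
      obtain ⟨W, hW, hW0, hW1⟩ := hirr
      obtain ⟨t₁, hS₁, ht₁⟩ := hS.restrict W hW
      obtain ⟨t₂, hS₂, hi₂, ht₂⟩ := hS.quot hinj' W hW
      have hlt : Module.finrank K W < Module.finrank K V := Submodule.finrank_lt hW1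
      have hadd := Submodule.finrank_quotient_add_finrank W
      have hpos : 0 < Module.finrank K W := by
        rw [Nat.pos_iff_ne_zero]
        intro h0
        exact hW0 (Submodule.finrank_eq_zero.1 h0)
      let T₁ := T.filter fun p => ∃ u ∈ Box (lo p.1) (up p.1), ∃ v ∈ Box (lo p.1) (up p.1),
        ∃ w ∈ Box (lo p.2) (up p.2), ∃ w' ∈ Box (lo p.2) (up p.2), (t₁ u - t₁ v) * (t₁ w - t₁ w') ≠ 0
      let T₂ := T.filter fun p => ∃ u ∈ Box (lo p.1) (up p.1), ∃ v ∈ Box (lo p.1) (up p.1),
        ∃ w ∈ Box (lo p.2) (up p.2), ∃ w' ∈ Box (lo p.2) (up p.2), (t₂ u - t₂ v) * (t₂ w - t₂ w') ≠ 0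
      have e₁ := ih W t₁ (by omega) (fun i x hx a a' h => by
        apply Subtype.ext
        apply hinj i x hx
        rw [← ht₁ x ⟨i, hx⟩, ← ht₁ x ⟨i, hx⟩, h]) hS₁ T₁ (fun p hp => by
          have h1 := Finset.mem_filter.1 hp
          exact ⟨(hT p h1.1).1, h1.2⟩)
      have e₂ := ih (V ⧸ W) t₂ (by omega) (fun i x hx => hi₂ x ⟨i, hx⟩) hS₂ T₂ (fun p hp => by
          have h1 := Finset.mem_filter.1 hp
          exact ⟨(hT p h1.1).1, h1.2⟩)
      have hsub : T ⊆ T₁ ∪ T₂ := by
        intro p hp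
        by_contra hcon
        rw [Finset.mem_union, not_or] at hcon
        obtain ⟨hc₁, hc₂⟩ := hcon
        have z₁ : ∀ u ∈ Box (lo p.1) (up p.1), ∀ v ∈ Box (lo p.1) (up p.1),
            ∀ w ∈ Box (lo p.2) (up p.2), ∀ w' ∈ Box (lo p.2) (up p.2),
            (t₁ u - t₁ v) * (t₁ w - t₁ w') = 0 := by
          intro u hu v hv w hw w' hw'
          by_contra h
          exact hc₁ (Finset.mem_filter.2 ⟨hp, u, hu, v, hv, w, hw, w', hw', h⟩)
        have z₂ : ∀ u ∈ Box (lo p.1) (up p.1), ∀ v ∈ Box (lo p.1) (up p.1),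
            ∀ w ∈ Box (lo p.2) (up p.2), ∀ w' ∈ Box (lo p.2) (up p.2),
            (t₂ u - t₂ v) * (t₂ w - t₂ w') = 0 := by
          intro u hu v hv w hw w' hw'
          by_contra h
          exact hc₂ (Finset.mem_filter.2 ⟨hp, u, hu, v, hv, w, hw, w', hw', h⟩)
        obtain ⟨hlt12, u, hu, v, hv, w, hw, w', hw', hne⟩ := hT p hp
        apply hne
        let L : List ((Fin n → ℤ) × (Fin n → ℤ)) := [(lo p.1, up p.1), (lo p.2, up p.2)]
        have hun : ∀ x ∈ un L, x ∈ {x | ∃ i, x ∈ Box (lo i) (up i)} := by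
          rintro x ⟨b, hb, hx⟩
          simp only [L, List.mem_cons, List.not_mem_nil, or_false] at hb
          rcases hb with rfl | rfl
          · exact ⟨p.1, hx⟩
          · exact ⟨p.2, hx⟩
        have hBL : Boxes L := by
          refine ⟨?_, ?_⟩
          · intro b hb
            simp only [L, List.mem_cons, List.not_mem_nil, or_false] at hb
            rcases hb with rfl | rfl
            · exact hgood p.1
            · exact hgood p.2
          · simp only [L, List.pairwise_cons, List.mem_cons, List.not_mem_nil, or_false,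
              forall_eq, List.Pairwise.nil, and_true, IsEmpty.forall_iff, implies_true]
            exact hfar p.1 p.2 hlt12.ne
        have hshape : ∀ P, Mix t (sets L) P → ∃ u ∈ Box (lo p.1) (up p.1),
            ∃ v ∈ Box (lo p.1) (up p.1), ∃ w ∈ Box (lo p.2) (up p.2),
            ∃ w' ∈ Box (lo p.2) (up p.2), P = (t u - t v) * (t w - t w') := by
          rintro P ⟨u, hu, v, hv, Q, ⟨w, hw, w', hw', Q', hQ', rfl⟩, rfl⟩
          refine ⟨u, hu, v, hv, w, hw, w', hw', ?_⟩
          rw [show Q' = 1 from hQ', mul_one]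
        have key := mix_ext hBL (fun x hx => hinj' x (hun x hx)) (hS.mono hun)
          (W := W) (fun x hx => hW x (hun x hx)) (by
            intro P hP y hy
            obtain ⟨u, hu, v, hv, w, hw, w', hw', rfl⟩ := hshape P hP
            have h1 := LinearMap.congr_fun (z₁ u hu v hv w hw w' hw') ⟨y, hy⟩
            have h2 := congrArg Subtype.val h1
            have h3 : ((((t₁ u - t₁ v) * (t₁ w - t₁ w')) ⟨y, hy⟩ : W) : V) =
                (t u - t v) ((t w - t w') y) := by
              show ((t₁ u (t₁ w ⟨y, hy⟩ - t₁ w' ⟨y, hy⟩) - t₁ v (t₁ w ⟨y, hy⟩ - t₁ w' ⟨y, hy⟩) : W) : V)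
                = t u (t w y - t w' y) - t v (t w y - t w' y)
              rw [Submodule.coe_sub, ht₁ u ⟨_, hu⟩, ht₁ v ⟨_, hv⟩, Submodule.coe_sub,
                ht₁ w ⟨_, hw⟩, ht₁ w' ⟨_, hw'⟩]
            rw [h3] at h2
            exact h2) (by
            intro P hP y
            obtain ⟨u, hu, v, hv, w, hw, w', hw', rfl⟩ := hshape P hP
            have h1 := LinearMap.congr_fun (z₂ u hu v hv w hw w' hw') (W.mkQ y)
            have h3 : ((t₂ u - t₂ v) * (t₂ w - t₂ w')) (W.mkQ y) =
                W.mkQ ((t u - t v) ((t w - t w') y)) := by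
              show t₂ u (t₂ w (W.mkQ y) - t₂ w' (W.mkQ y)) - t₂ v (t₂ w (W.mkQ y) - t₂ w' (W.mkQ y))
                = W.mkQ (t u (t w y - t w' y) - t v (t w y - t w' y))
              rw [ht₂ w ⟨_, hw⟩, ht₂ w' ⟨_, hw'⟩, ← map_sub, ht₂ u ⟨_, hu⟩, ht₂ v ⟨_, hv⟩, ← map_sub]
            rw [h3] at h1
            exact (Submodule.Quotient.mk_eq_zero W).1 h1)
        exact key _ ⟨u, hu, v, hv, (t w - t w') * 1, ⟨w, hw, w', hw', 1, rfl, rfl⟩, by
          rw [mul_one]⟩
      have hc : T.card ≤ T₁.card + T₂.card :=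
        (Finset.card_le_card hsub).trans (Finset.card_union_le _ _)
      calc T.card * k ^ 2 ≤ (T₁.card + T₂.card) * k ^ 2 := Nat.mul_le_mul_right _ hc
        _ = T₁.card * k ^ 2 + T₂.card * k ^ 2 := by ring
        _ ≤ Module.finrank K W + Module.finrank K (V ⧸ W) := Nat.add_le_add e₁ e₂
        _ = Module.finrank K V := by omega

/-- (T4). Claim, by strong induction on `dim V`: `k ^ 2 * #{i < j, products for i, j not all 0}
≤ dim V`. Stable `W`: `mix_ext` for the list `[box i, box j]`: the set of pairs of `V` is contained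
in the union of those of `W` and of the quotient. Irreducible `V`: let `S` be the set of the `i`
such that the system is not flat on box `i`; then `NX (box i) ⊤ = ⊤` for `i ∈ S`, so a product for
the list of all boxes of `S` is not zero, `k ^ #S ≤ dim V` by `mix_dim`, and
`k ^ m ≥ m (m - 1) / 2 * k ^ 2` for `k ≥ 3`, `m ≥ 2`. -/
theorem pairs_dim [IsAlgClosed K] {k : ℕ} (hk : 3 ≤ k) {s : ℕ} (lo up : Fin s → (Fin n → ℤ))
    (hgood : ∀ i, ∃ a, lo i a + 4 ≤ up i a)
    (hN : ∀ i, Nab.{v} K (lo i) (up i) k)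
    (hfar : ∀ i j, i ≠ j → ∀ x ∈ Box (lo i) (up i), ∀ y ∈ Box (lo j) (up j), Far x y)
    (V : Type v) [AddCommGroup V] [Module K V] [FiniteDimensional K V]
    (t : (Fin n → ℤ) → Module.End K V)
    (hinj : ∀ i, ∀ x ∈ Box (lo i) (up i), Function.Injective (t x))
    (hS : Sys {x | ∃ i, x ∈ Box (lo i) (up i)} t)
    (hr : Module.finrank K V < s * (s - 1) / 2 * k ^ 2) :
    ∃ i j, i < j ∧ ∀ u ∈ Box (lo i) (up i), ∀ v ∈ Box (lo i) (up i),
      ∀ w ∈ Box (lo j) (up j), ∀ w' ∈ Box (lo j) (up j), (t u - t v) * (t w - t w') = 0 := by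
  classical
  by_contra hcon
  push Not at hcon
  have h1 := pairs_claim hk lo up hgood hN hfar _ V t le_rfl hinj hS
    ((Finset.univ ×ˢ Finset.univ).filter fun p => p.1 < p.2) (fun p hp => by
      have h2 := (Finset.mem_filter.1 hp).2
      exact ⟨h2, hcon p.1 p.2 h2⟩)
  rw [pairs_card, Finset.card_univ, Fintype.card_fin, Nat.choose_two_right] at h1
  omega

end Pool.Agent.HypLow
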