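import Pool.Agent.Lib.HypQ.LineQ
import Pool.Agent.Lib.HypQ.Pairs

/-! # Boxes with different sides (page hyp70, section 6) -/

namespace Pool.Agent.HypLow

universe v

variable {n : ℕ}

/-- the slabs of a box -/
theorem nabS_box_slab {K : Type*} [Field K] [IsAlgClosed K] {N : Fin n → ℕ} {p : ℕ}
    (hN : ∀ c, 6 ≤ N c) (hp : 4 ≤ p) {a b : Fin n} (hab : a ≠ b) :
    NabS.{v} K (Function.update N a p) (p * ∏ c ∈ Finset.univ.erase a, N c) := by
  classical
  have hprod : ∏ c, Function.update N a p c = p * ∏ c ∈ Finset.univ.erase a, N c := by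
    rw [← Finset.mul_prod_erase _ _ (Finset.mem_univ a), Function.update_self]
    congr 1
    exact Finset.prod_congr rfl fun c hc => by
      rw [Function.update_of_ne (Finset.ne_of_mem_erase hc)]
  rw [← hprod]
  refine nabS_full.{v} (K := K) (Function.update N a p) (fun c => ?_) hab.symm ?_
  · by_cases h : c = a
    · rw [h, Function.update_self]; exact hp
    · rw [Function.update_of_ne h]; have := hN c; omega
  · rw [Function.update_of_ne hab.symm]; exact hN b

/-- the lower corner of the slab number `i` -/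
def boxLo (p : ℕ) (a : Fin n) (i : ℕ) : Fin n → ℤ :=
  Function.update (fun _ => 0) a ((i * (p + 2) : ℕ) : ℤ)

/-- the upper corner of the slab number `i` -/
def boxUp (N : Fin n → ℕ) (p : ℕ) (a : Fin n) (i : ℕ) : Fin n → ℤ :=
  Function.update (fun c => (N c : ℤ)) a ((i * (p + 2) + p : ℕ) : ℤ)

theorem bslab_mem {N : Fin n → ℕ} {p : ℕ} {a : Fin n} {i : ℕ} {x : Fin n → ℤ} :
    x ∈ Box (boxLo p a i) (boxUp N p a i) ↔
      (((i * (p + 2) : ℕ) : ℤ) ≤ x a ∧ x a ≤ ((i * (p + 2) + p : ℕ) : ℤ)) ∧
        ∀ c, c ≠ a → 0 ≤ x c ∧ x c ≤ N c := by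
  unfold boxLo boxUp
  constructor
  · intro h
    refine ⟨?_, fun c hc => ?_⟩
    · have h1 := h a
      rwa [Function.update_self, Function.update_self] at h1
    · have h1 := h c
      rwa [Function.update_of_ne hc, Function.update_of_ne hc] at h1
  · rintro ⟨h1, h2⟩ c
    by_cases hc : c = a
    · rw [hc, Function.update_self, Function.update_self]
      exact h1
    · rw [Function.update_of_ne hc, Function.update_of_ne hc]
      exact h2 c hc

theorem bslab_sub {N : Fin n → ℕ} {p s : ℕ} {a : Fin n} (hsp : s * (p + 2) ≤ N a + 2) {i : ℕ}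
    (hi : i < s) {x : Fin n → ℤ} (hx : x ∈ Box (boxLo p a i) (boxUp N p a i)) :
    x ∈ Box (n := n) (fun _ => 0) (fun c => (N c : ℤ)) := by
  obtain ⟨h1, h2⟩ := bslab_mem.1 hx
  have h3 : (i + 1) * (p + 2) ≤ N a + 2 := le_trans (Nat.mul_le_mul_right _ hi) hsp
  have h4 : i * (p + 2) + p ≤ N a := by
    have : (i + 1) * (p + 2) = i * (p + 2) + (p + 2) := by ring
    omega
  intro c
  by_cases hc : c = a
  · rw [hc]
    constructor
    · show (0 : ℤ) ≤ x a
      have : (0 : ℤ) ≤ ((i * (p + 2) : ℕ) : ℤ) := Int.natCast_nonneg _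
      omega
    · show x a ≤ (N a : ℤ)
      have : ((i * (p + 2) + p : ℕ) : ℤ) ≤ (N a : ℤ) := by exact_mod_cast h4
      omega
  · exact h2 c hc

theorem bslab_gap {p i j : ℕ} (hij : i < j) : i * (p + 2) + p + 2 ≤ j * (p + 2) := by
  have h1 : (i + 1) * (p + 2) ≤ j * (p + 2) := Nat.mul_le_mul_right _ hij
  have h2 : (i + 1) * (p + 2) = i * (p + 2) + (p + 2) := by ring
  omega

variable {K : Type*} {V : Type v} [Field K] [IsAlgClosed K] [AddCommGroup V] [Module K V]
  [FiniteDimensional K V]

/-- the theorem for the box with corners `0` and `N` -/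
theorem box2 {N : Fin n → ℕ} (hN : ∀ c, 6 ≤ N c) {a b : Fin n} (hab : a ≠ b) {s p : ℕ}
    (hp : 4 ≤ p) (hsp : s * (p + 2) ≤ N a + 2) {t : (Fin n → ℤ) → Module.End K V}
    (hinj : ∀ x ∈ Box (n := n) (fun _ => 0) (fun c => (N c : ℤ)), Function.Injective (t x))
    (hS : Sys (Box (fun _ => 0) (fun c => (N c : ℤ))) t)
    (hirr : ∀ W : Submodule K V, (∀ x ∈ Box (n := n) (fun _ => 0) (fun c => (N c : ℤ)),
      ∀ w ∈ W, t x w ∈ W) → W = ⊥ ∨ W = ⊤)
    (hr : Module.finrank K V < s * (s - 1) / 2 * (p * ∏ c ∈ Finset.univ.erase a, N c) ^ 2) :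
    (∀ x ∈ Box (n := n) (fun _ => 0) (fun c => (N c : ℤ)),
      ∀ y ∈ Box (n := n) (fun _ => 0) (fun c => (N c : ℤ)), t x = t y) ∨
    ∃ μ : K, μ ≠ 0 ∧ ∃ (q : K) (e : (Fin n → ℤ) → V),
      Pham (Box (fun _ => 0) (fun c => (N c : ℤ))) (fun x => μ⁻¹ • t x - 1) q e := by
  by_cases hnf : ∃ x ∈ Box (n := n) (fun _ => 0) (fun c => (N c : ℤ)),
      ∃ y ∈ Box (n := n) (fun _ => 0) (fun c => (N c : ℤ)), t x ≠ t y
  · right
    have hsurj : ∀ x ∈ Box (n := n) (fun _ => 0) (fun c => (N c : ℤ)),
        Function.Surjective (t x) := fun x hx =>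
      LinearMap.surjective_of_injective (hinj x hx)
    have hN' : ∀ c, (6 : ℤ) ≤ (N c : ℤ) := fun c => by exact_mod_cast hN c
    have hk : 3 ≤ p * ∏ c ∈ Finset.univ.erase a, N c := by
      have h1 : 1 ≤ ∏ c ∈ Finset.univ.erase a, N c :=
        Finset.prod_pos fun c _ => lt_of_lt_of_le (by norm_num) (hN c)
      calc 3 ≤ p * 1 := by omega
        _ ≤ _ := Nat.mul_le_mul_left _ h1
    obtain ⟨i, j, hij, hzero⟩ := pairs_dim.{v} (n := n) (K := K)
      (k := p * ∏ c ∈ Finset.univ.erase a, N c) hk
      (s := s) (fun i => boxLo p a i.val) (fun i => boxUp N p a i.val)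
      (fun i => ⟨a, by
        simp only [boxLo, boxUp, Function.update_self]
        push_cast
        have : (4 : ℤ) ≤ (p : ℤ) := by exact_mod_cast hp
        omega⟩)
      (fun i => by
        refine nabS_box_slab.{v} (K := K) hN hp hab _ _ fun c => ?_
        by_cases hc : c = a
        · rw [hc]
          simp only [boxLo, boxUp, Function.update_self]
          push_cast
          ring
        · simp only [boxLo, boxUp, Function.update_of_ne hc]
          ring)
      (fun i j hij x hx y hy => by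
        rcases lt_or_gt_of_ne (fun h => hij (Fin.ext h) : i.val ≠ j.val) with h | h
        · refine far_of_le a ?_
          have h1 := (bslab_mem.1 hx).1.2
          have h2 := (bslab_mem.1 hy).1.1
          have h3 : ((i.val * (p + 2) + p : ℕ) : ℤ) + 2 ≤ ((j.val * (p + 2) : ℕ) : ℤ) := by
            exact_mod_cast bslab_gap (p := p) h
          omega
        · refine Far.symm (far_of_le a ?_)
          have h1 := (bslab_mem.1 hx).1.1
          have h2 := (bslab_mem.1 hy).1.2
          have h3 : ((j.val * (p + 2) + p : ℕ) : ℤ) + 2 ≤ ((i.val * (p + 2) : ℕ) : ℤ) := by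
            exact_mod_cast bslab_gap (p := p) h
          omega)
      V t (fun i x hx => hinj x (bslab_sub hsp i.isLt hx))
      ⟨fun x hx y hy h => by
          obtain ⟨i, hi⟩ := hx
          obtain ⟨j, hj⟩ := hy
          exact hS.comm x (bslab_sub hsp i.isLt hi) y (bslab_sub hsp j.isLt hj) h,
        fun x hx y hy h => by
          obtain ⟨i, hi⟩ := hx
          obtain ⟨j, hj⟩ := hy
          exact hS.braid x (bslab_sub hsp i.isLt hi) y (bslab_sub hsp j.isLt hj) h,
        fun x hx y hy z hz h1 h2 h3 => by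
          obtain ⟨i, hi⟩ := hx
          obtain ⟨j, hj⟩ := hy
          obtain ⟨k, hk⟩ := hz
          exact hS.tri x (bslab_sub hsp i.isLt hi) y (bslab_sub hsp j.isLt hj) z
            (bslab_sub hsp k.isLt hk) h1 h2 h3⟩ hr
    have hijv : i.val < j.val := hij
    have hgap : ((i.val * (p + 2) + p : ℕ) : ℤ) + 2 ≤ ((j.val * (p + 2) : ℕ) : ℤ) := by
      exact_mod_cast bslab_gap (p := p) hijv
    have htop : ((j.val * (p + 2) : ℕ) : ℤ) + 2 ≤ (N a : ℤ) := by
      have h3 : (j.val + 1) * (p + 2) ≤ N a + 2 := le_trans (Nat.mul_le_mul_right _ j.isLt) hsp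
      have h4 : (j.val + 1) * (p + 2) = j.val * (p + 2) + (p + 2) := by ring
      have h5 : j.val * (p + 2) + 2 ≤ N a := by omega
      exact_mod_cast h5
    have hbot : (0 : ℤ) + 2 ≤ ((i.val * (p + 2) + p : ℕ) : ℤ) := by
      have h5 : 0 + 2 ≤ i.val * (p + 2) + p := by omega
      exact_mod_cast h5
    -- an edge in every slab
    have hedge : ∀ k : Fin s, ∃ v ∈ Box (boxLo p a k.val) (boxUp N p a k.val),
        ∃ w ∈ Box (boxLo p a k.val) (boxUp N p a k.val), Adj v w := by
      intro k
      have hle : ((k.val * (p + 2) : ℕ) : ℤ) ≤ ((k.val * (p + 2) + p : ℕ) : ℤ) := by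
        exact_mod_cast Nat.le_add_right _ _
      refine ⟨boxLo p a k.val, bslab_mem.2 ⟨?_, ?_⟩,
        Function.update (boxLo p a k.val) b 1, bslab_mem.2 ⟨?_, ?_⟩, Or.inl ⟨?_, ?_⟩⟩
      · simp only [boxLo, Function.update_self]
        exact ⟨le_refl _, hle⟩
      · intro c hc
        simp only [boxLo, Function.update_of_ne hc]
        have := hN' c
        omega
      · rw [Function.update_of_ne hab]
        simp only [boxLo, Function.update_self]
        exact ⟨le_refl _, hle⟩
      · intro c hc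
        have := hN' c
        by_cases hcb : c = b
        · rw [hcb, Function.update_self]
          rw [hcb] at this
          omega
        · rw [Function.update_of_ne hcb]
          simp only [boxLo, Function.update_of_ne hc]
          omega
      · intro h
        have h1 := congrFun h b
        rw [Function.update_self] at h1
        simp only [boxLo, Function.update_of_ne hab.symm] at h1
        omega
      · intro c
        by_cases hcb : c = b
        · rw [hcb, Function.update_self]
          simp only [boxLo, Function.update_of_ne hab.symm]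
          omega
        · rw [Function.update_of_ne hcb]
          omega
    obtain ⟨v, hv, w, hw, hvw⟩ := hedge i
    obtain ⟨v', hv', w', hw', hvw'⟩ := hedge j
    have hC : Corner (fun _ => 0) (fun c => (N c : ℤ)) t b := by
      refine corner_of_slabs (a := a) (b := b) (g := ((i.val * (p + 2) + p : ℕ) : ℤ))
        (g' := ((j.val * (p + 2) : ℕ) : ℤ)) ?_ hab hsurj hS hbot hgap htop
        ⟨v, bslab_sub hsp i.isLt hv, w, bslab_sub hsp i.isLt hw, v', bslab_sub hsp j.isLt hv', w',
          bslab_sub hsp j.isLt hw', hvw, hvw', (bslab_mem.1 hv).1.2, (bslab_mem.1 hw).1.2,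
          (bslab_mem.1 hv').1.1, (bslab_mem.1 hw').1.1, hzero v hv w hw v' hv' w' hw'⟩
      intro c
      show (0 : ℤ) + 2 ≤ N c
      have := hN' c
      omega
    refine irreducible_pham2 (a := a) (b := b) ?_ hab ?_ ?_ hinj hS hirr hnf hC
    · intro c; show (0 : ℤ) + 2 ≤ N c; have := hN' c; omega
    · show (0 : ℤ) + 6 ≤ N a; have := hN' a; omega
    · show (0 : ℤ) + 4 ≤ N b; have := hN' b; omega
  · left
    intro x hx y hy
    by_contra hne
    exact hnf ⟨x, hx, y, hy, hne⟩

end Pool.Agent.HypLow
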