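import Pool.Agent.Lib.HypQ.RankQ
import Pool.Agent.Lib.HypQ.BoxQ

/-! # Boxes: small rank of `t x - ν` -/

namespace Pool.Agent.HypLow

universe v

variable {n : ℕ} {K : Type*} [Field K]

/-- all `t x - ν` have the same rank -/
theorem rank_const {V : Type*} [AddCommGroup V] [Module K V] [FiniteDimensional K V]
    {l u : Fin n → ℤ} {t : (Fin n → ℤ) → Module.End K V}
    (hinj : ∀ x ∈ Box l u, Function.Injective (t x)) (hS : Sys (Box l u) t) (ν : K) :
    ∀ x ∈ Box l u, ∀ y ∈ Box l u,
      Module.finrank K (LinearMap.range (t x - ν • (1 : Module.End K V))) =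
        Module.finrank K (LinearMap.range (t y - ν • (1 : Module.End K V))) := by
  have key : ∀ v ∈ Box l u, ∀ w ∈ Box l u, Adj v w →
      Module.finrank K (LinearMap.range (t w - ν • (1 : Module.End K V))) ≤
        Module.finrank K (LinearMap.range (t v - ν • (1 : Module.End K V))) := by
    intro v hv w hw hvw
    have hg : Function.Surjective (t v * t w : Module.End K V) :=
      LinearMap.injective_iff_surjective.1 ((hinj v hv).comp (hinj w hw))
    have h1 : LinearMap.range (t w - ν • (1 : Module.End K V)) ≤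
        (LinearMap.range (t v - ν • (1 : Module.End K V))).map (t v * t w) := by
      rintro _ ⟨y, rfl⟩
      obtain ⟨z, rfl⟩ := hg y
      refine ⟨(t v - ν • (1 : Module.End K V)) z, ⟨z, rfl⟩, ?_⟩
      have h2 : t v (t w (t v z)) = t w (t v (t w z)) :=
        LinearMap.congr_fun (hS.braid v hv w hw hvw) z
      show t v (t w (t v z - ν • z)) = t w (t v (t w z)) - ν • t v (t w z)
      rw [map_sub, map_sub, map_smul, map_smul, h2]
    exact (Submodule.finrank_mono h1).trans (Submodule.finrank_map_le _ _)
  exact box_connected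
    (fun v => Module.finrank K (LinearMap.range (t v - ν • (1 : Module.End K V))))
    fun v hv w hw hvw => le_antisymm (key w hw v hv hvw.symm) (key v hv w hw hvw)

/-- if the rank of `t x - ν` is small then the corner condition holds -/
theorem corner_of_rank [IsAlgClosed K] {V : Type v} [AddCommGroup V] [Module K V]
    [FiniteDimensional K V] {l u : Fin n → ℤ} (hs : ∀ c, l c + 2 ≤ u c) {a b : Fin n}
    (hab : a ≠ b) (hb : l b + 4 ≤ u b) {k : ℕ}
    (hN : Nab.{v} K (Function.update l a (l a + 2)) u k)
    {t : (Fin n → ℤ) → Module.End K V} (hinj : ∀ x ∈ Box l u, Function.Injective (t x))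
    (hS : Sys (Box l u) t)
    (hr : ∃ x ∈ Box l u, ∃ ν : K,
      Module.finrank K (LinearMap.range (t x - ν • (1 : Module.End K V))) < k) :
    Corner l u t b := by
  classical
  have hX : ∀ x, x ∈ Box l (Function.update u a (l a)) ↔ x ∈ Box l u ∧ x a ≤ l a := by
    intro x
    constructor
    · intro h
      have g2 := h a
      rw [Function.update_self] at g2
      refine ⟨fun c' => ?_, g2.2⟩
      by_cases hc : c' = a
      · rw [hc]; have := hs a; constructor <;> omega
      · have g1 := h c'
        rw [Function.update_of_ne hc] at g1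
        exact g1
    · rintro ⟨g1, g2⟩ c'
      by_cases hc : c' = a
      · rw [hc, Function.update_self]
        exact ⟨(g1 a).1, g2⟩
      · rw [Function.update_of_ne hc]
        exact g1 c'
  have hY : ∀ x, x ∈ Box (Function.update l a (l a + 2)) u ↔ x ∈ Box l u ∧ l a + 2 ≤ x a := by
    intro x
    constructor
    · intro h
      have g2 := h a
      rw [Function.update_self] at g2
      refine ⟨fun c' => ?_, g2.1⟩
      by_cases hc : c' = a
      · rw [hc]; constructor <;> omega
      · have g1 := h c'
        rw [Function.update_of_ne hc] at g1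
        exact g1
    · rintro ⟨g1, g2⟩ c'
      by_cases hc : c' = a
      · rw [hc, Function.update_self]
        exact ⟨g2, (g1 a).2⟩
      · rw [Function.update_of_ne hc]
        exact g1 c'
  set X : (Fin n → ℤ) × (Fin n → ℤ) := (l, Function.update u a (l a)) with hXd
  set Y : (Fin n → ℤ) × (Fin n → ℤ) := (Function.update l a (l a + 2), u) with hYd
  have hun : un [X, Y] ⊆ Box l u := by
    rintro x ⟨b', hb', hx⟩
    rcases List.mem_cons.1 hb' with h | h
    · rw [h] at hx
      exact ((hX x).1 hx).1
    · rw [List.mem_singleton.1 h] at hx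
      exact ((hY x).1 hx).1
  have hL : Boxes [X, Y] := by
    refine ⟨fun b' hb' => ⟨b, ?_⟩, ?_⟩
    · rcases List.mem_cons.1 hb' with h | h
      · rw [h]
        show l b + 4 ≤ Function.update u a (l a) b
        rw [Function.update_of_ne hab.symm]
        exact hb
      · rw [List.mem_singleton.1 h]
        show Function.update l a (l a + 2) b + 4 ≤ u b
        rw [Function.update_of_ne hab.symm]
        exact hb
    · refine List.pairwise_pair.2 fun x hx y hy => far_of_le a ?_
      have h3 := ((hX x).1 hx).2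
      have h4 := ((hY y).1 hy).2
      omega
  have hl : l ∈ Box l u := fun c' => ⟨le_refl _, by have := hs c'; omega⟩
  have hu : u ∈ Box l u := fun c' => ⟨by have := hs c'; omega, le_refl _⟩
  obtain ⟨x₀, hx₀, ν, hν⟩ := hr
  rw [rank_const hinj hS ν x₀ hx₀ l hl] at hν
  have hzero : ∀ x ∈ Box l (Function.update u a (l a)), ∀ y ∈ Box l (Function.update u a (l a)),
      ∀ z ∈ Box (Function.update l a (l a + 2)) u,
      ∀ w ∈ Box (Function.update l a (l a + 2)) u, (t x - t y) * (t z - t w) = 0 := by
    intro x hx y hy z hz w hw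
    by_contra hne
    have hmix : Mix t (sets [X, Y]) ((t x - t y) * (t z - t w)) :=
      ⟨x, hx, y, hy, t z - t w, ⟨z, hz, w, hw, 1, rfl, (mul_one _).symm⟩, rfl⟩
    have h3 := mix_rank (K := K) (fun _ => k) X [Y] hL (by
      intro c hc
      rw [List.mem_singleton.1 hc]
      exact hN) (x := l) ((hX l).2 ⟨hl, le_refl _⟩) ν V t (fun x hx => hinj x (hun hx))
      (hS.mono hun) _ hmix hne
    have h4 : ([Y].map (fun _ => k)).prod = k := by
      rw [List.map_cons, List.map_nil, List.prod_cons, List.prod_nil, mul_one]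
    rw [h4] at h3
    omega
  refine hzero l ((hX l).2 ⟨hl, le_refl _⟩) _ ((hX _).2 ⟨fun c' => ?_, ?_⟩) u
    ((hY u).2 ⟨hu, by have := hs a; omega⟩) _ ((hY _).2 ⟨fun c' => ?_, ?_⟩)
  · have := hs c'
    by_cases h : c' = b
    · rw [h, mv_same]; rw [h] at this; constructor <;> omega
    · rw [mv_ne _ h]; constructor <;> omega
  · rw [mv_ne _ hab]
  · have := hs c'
    by_cases h : c' = b
    · rw [h, mv_same]; rw [h] at this; constructor <;> omega
    · rw [mv_ne _ h]; constructor <;> omega
  · rw [mv_ne _ hab]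
    have := hs a
    omega

variable {V : Type v} [IsAlgClosed K] [AddCommGroup V] [Module K V] [FiniteDimensional K V]

/-- no bound on the dimension, but the rank of `t x - ν` is small -/
theorem box_rank {N : Fin n → ℕ} (hN : ∀ c, 6 ≤ N c) {a b : Fin n} (hab : a ≠ b)
    {t : (Fin n → ℤ) → Module.End K V}
    (hinj : ∀ x ∈ Box (n := n) (fun _ => 0) (fun c => (N c : ℤ)), Function.Injective (t x))
    (hS : Sys (Box (fun _ => 0) (fun c => (N c : ℤ))) t)
    (hirr : ∀ W : Submodule K V, (∀ x ∈ Box (n := n) (fun _ => 0) (fun c => (N c : ℤ)),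
      ∀ w ∈ W, t x w ∈ W) → W = ⊥ ∨ W = ⊤)
    (hr : ∃ x ∈ Box (n := n) (fun _ => 0) (fun c => (N c : ℤ)), ∃ ν : K,
      Module.finrank K (LinearMap.range (t x - ν • (1 : Module.End K V))) <
        (N a - 2) * ∏ c ∈ Finset.univ.erase a, N c) :
    (∀ x ∈ Box (n := n) (fun _ => 0) (fun c => (N c : ℤ)),
      ∀ y ∈ Box (n := n) (fun _ => 0) (fun c => (N c : ℤ)), t x = t y) ∨
    ∃ μ : K, μ ≠ 0 ∧ ∃ (q : K) (e : (Fin n → ℤ) → V),
      Pham (Box (fun _ => 0) (fun c => (N c : ℤ))) (fun x => μ⁻¹ • t x - 1) q e := by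
  by_cases hnf : ∃ x ∈ Box (n := n) (fun _ => 0) (fun c => (N c : ℤ)),
      ∃ y ∈ Box (n := n) (fun _ => 0) (fun c => (N c : ℤ)), t x ≠ t y
  · right
    have hN' : ∀ c, (6 : ℤ) ≤ (N c : ℤ) := fun c => by exact_mod_cast hN c
    have hs : ∀ c : Fin n, (fun _ => (0 : ℤ)) c + 2 ≤ (fun c => (N c : ℤ)) c := fun c => by
      show (0 : ℤ) + 2 ≤ N c
      have := hN' c
      omega
    have hC : Corner (fun _ => 0) (fun c => (N c : ℤ)) t b := by
      refine corner_of_rank (a := a) (b := b) hs hab ?_ ?_ hinj hS hr
      · show (0 : ℤ) + 4 ≤ N b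
        have := hN' b
        omega
      · refine nabS_box_slab.{v} (K := K) hN (p := N a - 2) (by have := hN a; omega) hab _ _
          fun c => ?_
        by_cases hc : c = a
        · rw [hc, Function.update_self, Function.update_self]
          have := hN a
          show (N a : ℤ) = 0 + 2 + ((N a - 2 : ℕ) : ℤ)
          omega
        · rw [Function.update_of_ne hc, Function.update_of_ne hc]
          show (N c : ℤ) = 0 + (N c : ℤ)
          ring
    refine irreducible_pham2 (a := a) (b := b) hs hab ?_ ?_ hinj hS hirr hnf hC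
    · show (0 : ℤ) + 6 ≤ N a; have := hN' a; omega
    · show (0 : ℤ) + 4 ≤ N b; have := hN' b; omega
  · left
    intro x hx y hy
    by_contra hne
    exact hnf ⟨x, hx, y, hy, hne⟩

end Pool.Agent.HypLow
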