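import Pool.Agent.Lib.HypQ.PowQ
import Pool.Agent.Lib.HypQ.Pairs

/-! # The cube, new version (page hyp70, section 6) -/

namespace Pool.Agent.HypLow

universe v

variable {n : ℕ} {K : Type*} {V : Type v} [Field K] [IsAlgClosed K] [AddCommGroup V] [Module K V]
  [FiniteDimensional K V]

/-- the lower corner of the slab number `i` -/
def slabLo (n p : ℕ) (a : Fin n) (i : ℕ) : Fin n → ℤ :=
  Function.update (fun _ => 0) a ((i * (p + 2) : ℕ) : ℤ)

/-- the upper corner of the slab number `i` -/
def slabUp (n N p : ℕ) (a : Fin n) (i : ℕ) : Fin n → ℤ :=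
  Function.update (fun _ => (N : ℤ)) a ((i * (p + 2) + p : ℕ) : ℤ)

theorem slab_mem {N p : ℕ} {a : Fin n} {i : ℕ} {x : Fin n → ℤ} :
    x ∈ Box (slabLo n p a i) (slabUp n N p a i) ↔
      (((i * (p + 2) : ℕ) : ℤ) ≤ x a ∧ x a ≤ ((i * (p + 2) + p : ℕ) : ℤ)) ∧
        ∀ c, c ≠ a → 0 ≤ x c ∧ x c ≤ N := by
  unfold slabLo slabUp
  constructor
  · intro h
    refine ⟨?_, fun c hc => ?_⟩
    · have h1 := h a
      rwa [Function.update_self, Function.update_self] at h1
    · have h1 := h c
      rwa [Function.update_of_ne hc, Function.update_of_ne hc] at h1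
  · rintro ⟨h1, h2⟩ c
    by_cases hc : c = a
    · subst hc
      rwa [Function.update_self, Function.update_self]
    · rw [Function.update_of_ne hc, Function.update_of_ne hc]
      exact h2 c hc

theorem slab_sub {N p s : ℕ} (hsp : s * (p + 2) ≤ N + 2) {a : Fin n} {i : ℕ} (hi : i < s)
    {x : Fin n → ℤ} (hx : x ∈ Box (slabLo n p a i) (slabUp n N p a i)) :
    x ∈ Box (n := n) (fun _ => 0) (fun _ => (N : ℤ)) := by
  obtain ⟨h1, h2⟩ := slab_mem.1 hx
  have h3 : (i + 1) * (p + 2) ≤ N + 2 := le_trans (Nat.mul_le_mul_right _ hi) hsp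
  have h4 : i * (p + 2) + p ≤ N := by
    have : (i + 1) * (p + 2) = i * (p + 2) + (p + 2) := by ring
    omega
  intro c
  by_cases hc : c = a
  · subst hc
    constructor
    · show (0 : ℤ) ≤ x c
      have : (0 : ℤ) ≤ ((i * (p + 2) : ℕ) : ℤ) := Int.natCast_nonneg _
      omega
    · show x c ≤ (N : ℤ)
      have : ((i * (p + 2) + p : ℕ) : ℤ) ≤ (N : ℤ) := by exact_mod_cast h4
      omega
  · exact h2 c hc

theorem slab_gap {p i j : ℕ} (hij : i < j) : i * (p + 2) + p + 2 ≤ j * (p + 2) := by
  have h1 : (i + 1) * (p + 2) ≤ j * (p + 2) := Nat.mul_le_mul_right _ hij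
  have h2 : (i + 1) * (p + 2) = i * (p + 2) + (p + 2) := by ring
  omega

/-- the theorem for the cube `[0, N]^n`, `N = d - 2` -/
theorem cube2 (hn : 2 ≤ n) {N s p : ℕ} (hN : 16 ≤ N) (hp : 4 ≤ p) (hs : 2 ≤ s)
    (hsp : s * (p + 2) ≤ N + 2) {t : (Fin n → ℤ) → Module.End K V}
    (hinj : ∀ x ∈ Box (n := n) (fun _ => 0) (fun _ => (N : ℤ)), Function.Injective (t x))
    (hS : Sys (Box (fun _ => 0) (fun _ => (N : ℤ))) t)
    (hirr : ∀ W : Submodule K V, (∀ x ∈ Box (n := n) (fun _ => 0) (fun _ => (N : ℤ)),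
      ∀ w ∈ W, t x w ∈ W) → W = ⊥ ∨ W = ⊤)
    (hr : Module.finrank K V < s * (s - 1) / 2 * (p * N ^ (n - 1)) ^ 2) :
    (∀ x ∈ Box (n := n) (fun _ => 0) (fun _ => (N : ℤ)),
      ∀ y ∈ Box (n := n) (fun _ => 0) (fun _ => (N : ℤ)), t x = t y) ∨
    ∃ μ : K, μ ≠ 0 ∧ ∃ (q : K) (e : (Fin n → ℤ) → V),
      Pham (Box (fun _ => 0) (fun _ => (N : ℤ))) (fun x => μ⁻¹ • t x - 1) q e := by
  by_cases hnf : ∃ x ∈ Box (n := n) (fun _ => 0) (fun _ => (N : ℤ)),
      ∃ y ∈ Box (n := n) (fun _ => 0) (fun _ => (N : ℤ)), t x ≠ t y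
  · right
    obtain ⟨a, b, hab⟩ : ∃ a b : Fin n, a ≠ b :=
      ⟨⟨0, by omega⟩, ⟨1, by omega⟩, fun h => absurd (congrArg Fin.val h) (by norm_num)⟩
    have hsurj : ∀ x ∈ Box (n := n) (fun _ => 0) (fun _ => (N : ℤ)),
        Function.Surjective (t x) := fun x hx =>
      LinearMap.surjective_of_injective (hinj x hx)
    have hk : 3 ≤ p * N ^ (n - 1) := by
      have h1 : 1 ≤ N ^ (n - 1) := Nat.one_le_pow _ _ (by omega)
      calc 3 ≤ p * 1 := by omega
        _ ≤ p * N ^ (n - 1) := Nat.mul_le_mul_left _ h1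
    have hp0 : ((N : ℤ)) = ((N : ℕ) : ℤ) := rfl
    obtain ⟨i, j, hij, hzero⟩ := pairs_dim.{v} (n := n) (K := K) (k := p * N ^ (n - 1)) hk
      (s := s) (fun i => slabLo n p a i.val) (fun i => slabUp n N p a i.val)
      (fun i => ⟨a, by
        simp only [slabLo, slabUp, Function.update_self]
        push_cast
        have : (4 : ℤ) ≤ (p : ℤ) := by exact_mod_cast hp
        omega⟩)
      (fun i => by
        refine nabS_slab.{v} (K := K) hn hN hp a _ _ fun c => ?_
        by_cases hc : c = a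
        · subst hc
          simp only [slabLo, slabUp, Function.update_self]
          push_cast
          ring
        · simp only [slabLo, slabUp, Function.update_of_ne hc]
          ring)
      (fun i j hij x hx y hy => by
        rcases lt_or_gt_of_ne (fun h => hij (Fin.ext h) : i.val ≠ j.val) with h | h
        · refine far_of_le a ?_
          have h1 := (slab_mem.1 hx).1.2
          have h2 := (slab_mem.1 hy).1.1
          have h3 : ((i.val * (p + 2) + p : ℕ) : ℤ) + 2 ≤ ((j.val * (p + 2) : ℕ) : ℤ) := by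
            exact_mod_cast slab_gap (p := p) h
          omega
        · refine Far.symm (far_of_le a ?_)
          have h1 := (slab_mem.1 hx).1.1
          have h2 := (slab_mem.1 hy).1.2
          have h3 : ((j.val * (p + 2) + p : ℕ) : ℤ) + 2 ≤ ((i.val * (p + 2) : ℕ) : ℤ) := by
            exact_mod_cast slab_gap (p := p) h
          omega)
      V t (fun i x hx => hinj x (slab_sub hsp i.isLt hx))
      ⟨fun x hx y hy h => by
          obtain ⟨i, hi⟩ := hx
          obtain ⟨j, hj⟩ := hy
          exact hS.comm x (slab_sub hsp i.isLt hi) y (slab_sub hsp j.isLt hj) h,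
        fun x hx y hy h => by
          obtain ⟨i, hi⟩ := hx
          obtain ⟨j, hj⟩ := hy
          exact hS.braid x (slab_sub hsp i.isLt hi) y (slab_sub hsp j.isLt hj) h,
        fun x hx y hy z hz h1 h2 h3 => by
          obtain ⟨i, hi⟩ := hx
          obtain ⟨j, hj⟩ := hy
          obtain ⟨k, hk⟩ := hz
          exact hS.tri x (slab_sub hsp i.isLt hi) y (slab_sub hsp j.isLt hj) z
            (slab_sub hsp k.isLt hk) h1 h2 h3⟩ hr
    have hijv : i.val < j.val := hij
    have hgap : ((i.val * (p + 2) + p : ℕ) : ℤ) + 2 ≤ ((j.val * (p + 2) : ℕ) : ℤ) := by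
      exact_mod_cast slab_gap (p := p) hijv
    have htop : ((j.val * (p + 2) : ℕ) : ℤ) + 2 ≤ (N : ℤ) := by
      have h3 : (j.val + 1) * (p + 2) ≤ N + 2 := le_trans (Nat.mul_le_mul_right _ j.isLt) hsp
      have h4 : (j.val + 1) * (p + 2) = j.val * (p + 2) + (p + 2) := by ring
      have h5 : j.val * (p + 2) + 2 ≤ N := by omega
      exact_mod_cast h5
    have hbot : (0 : ℤ) + 2 ≤ ((i.val * (p + 2) + p : ℕ) : ℤ) := by
      have h5 : 0 + 2 ≤ i.val * (p + 2) + p := by omega
      exact_mod_cast h5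
    -- an edge in every slab
    have hedge : ∀ k : Fin s, ∃ v ∈ Box (slabLo n p a k.val) (slabUp n N p a k.val),
        ∃ w ∈ Box (slabLo n p a k.val) (slabUp n N p a k.val), Adj v w := by
      intro k
      have hN1 : (1 : ℤ) ≤ (N : ℤ) := by exact_mod_cast (by omega : 1 ≤ N)
      have hle : ((k.val * (p + 2) : ℕ) : ℤ) ≤ ((k.val * (p + 2) + p : ℕ) : ℤ) := by
        exact_mod_cast Nat.le_add_right _ _
      refine ⟨slabLo n p a k.val, slab_mem.2 ⟨?_, ?_⟩,
        Function.update (slabLo n p a k.val) b 1, slab_mem.2 ⟨?_, ?_⟩, Or.inl ⟨?_, ?_⟩⟩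
      · simp only [slabLo, Function.update_self]
        exact ⟨le_refl _, hle⟩
      · intro c hc
        simp only [slabLo, Function.update_of_ne hc]
        omega
      · rw [Function.update_of_ne hab]
        simp only [slabLo, Function.update_self]
        exact ⟨le_refl _, hle⟩
      · intro c hc
        by_cases hcb : c = b
        · subst hcb
          rw [Function.update_self]
          omega
        · rw [Function.update_of_ne hcb]
          simp only [slabLo, Function.update_of_ne hc]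
          omega
      · intro h
        have h1 := congrFun h b
        rw [Function.update_self] at h1
        simp only [slabLo, Function.update_of_ne hab.symm] at h1
        omega
      · intro c
        by_cases hcb : c = b
        · subst hcb
          rw [Function.update_self]
          simp only [slabLo, Function.update_of_ne hab.symm]
          omega
        · rw [Function.update_of_ne hcb]
          omega
    obtain ⟨v, hv, w, hw, hvw⟩ := hedge i
    obtain ⟨v', hv', w', hw', hvw'⟩ := hedge j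
    have hC : Corner (fun _ => 0) (fun _ => (N : ℤ)) t b := by
      refine corner_of_slabs (a := a) (b := b) (g := ((i.val * (p + 2) + p : ℕ) : ℤ))
        (g' := ((j.val * (p + 2) : ℕ) : ℤ)) ?_ hab hsurj hS hbot hgap htop
        ⟨v, slab_sub hsp i.isLt hv, w, slab_sub hsp i.isLt hw, v', slab_sub hsp j.isLt hv', w',
          slab_sub hsp j.isLt hw', hvw, hvw', (slab_mem.1 hv).1.2, (slab_mem.1 hw).1.2,
          (slab_mem.1 hv').1.1, (slab_mem.1 hw').1.1, hzero v hv w hw v' hv' w' hw'⟩
      intro c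
      show (0 : ℤ) + 2 ≤ N
      omega
    refine irreducible_pham2 (a := a) (b := b) ?_ hab ?_ ?_ hinj hS hirr hnf hC
    · intro c; show (0 : ℤ) + 2 ≤ N; omega
    · show (0 : ℤ) + 6 ≤ N; omega
    · show (0 : ℤ) + 4 ≤ N; omega
  · left
    intro x hx y hy
    by_contra hne
    exact hnf ⟨x, hx, y, hy, hne⟩

end Pool.Agent.HypLow
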