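import Pool.Agent.Lib.HypQ.RecQ
import Pool.Agent.Lib.Art.ChainFour

/-! # The recursion from the bound for chains -/

namespace Pool.Agent.HypLow

universe v

variable {n : ℕ} {K : Type*} [Field K]

/-- a line of the box is a chain -/
theorem nabS_line [IsAlgClosed K] (D : Fin n → ℕ) (a : Fin n) (ha : 3 ≤ D a) :
    NabS.{v} K D (D a) := by
  classical
  intro l u hlu V _ _ _ t hinj hS hr
  have hua := hlu a
  -- a line
  have line : ∀ x ∈ Box l u, ∀ y ∈ Box l u, (∀ c, c ≠ a → x c = y c) → t x = t y := by
    intro x hx y hy hxy
    have hmem : ∀ z ∈ Set.Icc (1 : ℤ) (D a + 1), Function.update x a (l a + z - 1) ∈ Box l u := by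
      intro z hz c
      obtain ⟨hz1, hz2⟩ := hz
      by_cases hc : c = a
      · rw [hc, Function.update_self]
        constructor <;> omega
      · rw [Function.update_of_ne hc]
        exact hx c
    have hsys : Art.ASys Art.hum (Set.Icc (1 : ℤ) (D a + 1))
        (fun z => t (Function.update x a (l a + z - 1))) := by
      constructor
      · intro z hz w hw h
        refine hS.comm _ (hmem z hz) _ (hmem w hw) (far_of_two a ?_)
        rw [Function.update_self, Function.update_self]
        have hz1 := hz.1
        have hw1 := hw.1
        unfold Art.Far Art.hum at h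
        omega
      · intro z hz w hw h
        refine hS.braid _ (hmem z hz) _ (hmem w hw) ?_
        have hz1 := hz.1
        have hw1 := hw.1
        have h2 : w = z + 1 ∨ z = w + 1 := by
          unfold Art.hum at h
          omega
        rcases h2 with rfl | rfl
        · refine Or.inl ⟨fun e => ?_, fun c => ?_⟩
          · have := congrFun e a
            rw [Function.update_self, Function.update_self] at this
            omega
          · by_cases hc : c = a
            · rw [hc, Function.update_self, Function.update_self]
              constructor <;> omega
            · rw [Function.update_of_ne hc, Function.update_of_ne hc]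
              constructor <;> omega
        · refine Or.inr ⟨fun e => ?_, fun c => ?_⟩
          · have := congrFun e a
            rw [Function.update_self, Function.update_self] at this
            omega
          · by_cases hc : c = a
            · rw [hc, Function.update_self, Function.update_self]
              constructor <;> omega
            · rw [Function.update_of_ne hc, Function.update_of_ne hc]
              constructor <;> omega
    have key := Art.chain_nab4.{v} (K := K) (L := D a + 1) (by omega) (a := 1)
      (b := (D a : ℤ) + 1) le_rfl (by push_cast; ring) V _ (fun z hz => hinj _ (hmem z hz)) hsys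
      (by rw [Nat.add_sub_cancel]; exact hr)
    have hxa := hx a
    have hya := hy a
    have h1 := key (x a - l a + 1) ⟨by omega, by omega⟩ (y a - l a + 1) ⟨by omega, by omega⟩
    have e1 : Function.update x a (l a + (x a - l a + 1) - 1) = x := by
      funext c
      by_cases hc : c = a
      · rw [hc, Function.update_self]; ring
      · rw [Function.update_of_ne hc]
    have e2 : Function.update x a (l a + (y a - l a + 1) - 1) = y := by
      funext c
      by_cases hc : c = a
      · rw [hc, Function.update_self]; ring
      · rw [Function.update_of_ne hc]; exact hxy c hc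
    simp only [e1, e2] at h1
    exact h1
  refine box_connected t fun x hx y hy hxy => ?_
  have hxa := hx a
  have hya := hy a
  -- two far points on the two lines
  have hx' : Function.update x a (l a) ∈ Box l u := by
    intro c
    by_cases hc : c = a
    · rw [hc, Function.update_self]; constructor <;> omega
    · rw [Function.update_of_ne hc]; exact hx c
  have hy' : Function.update y a (u a) ∈ Box l u := by
    intro c
    by_cases hc : c = a
    · rw [hc, Function.update_self]; constructor <;> omega
    · rw [Function.update_of_ne hc]; exact hy c
  have e1 := line x hx _ hx' fun c hc => by rw [Function.update_of_ne hc]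
  have e2 := line y hy _ hy' fun c hc => by rw [Function.update_of_ne hc]
  have hc := hS.comm _ hx' _ hy' (far_of_le a (by
    rw [Function.update_self, Function.update_self]
    omega))
  rw [← e1, ← e2] at hc
  have hb := hS.braid x hx y hy hxy
  refine LinearMap.ext fun w => ?_
  have h1 : t x * t y * t x = t x * t y * t y := by rw [hb, ← hc]
  have h2 := LinearMap.congr_fun h1 w
  simp only [Module.End.mul_apply] at h2
  exact hinj y hy (hinj x hx h2)

/-- the recursion -/
theorem nabS_rec [IsAlgClosed K] (D : Fin n → ℕ) (hD : ∀ c, 4 ≤ D c) {a b : Fin n} (hab : a ≠ b)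
    (ha : 6 ≤ D a) (hmax : ∀ c, D c ≤ D a) : ∀ T : Finset (Fin n), a ∈ T → b ∈ T →
      NabS.{v} K (fun c => if c ∈ T then D c else 2)
        (min (D a ^ T.card) (∏ c, if c ∈ T then D c else 2)) := by
  classical
  intro T
  induction T using Finset.strongInduction with
  | H T ih =>
    intro haT hbT
    have h2 : ∀ c, 2 ≤ (if c ∈ T then D c else 2) := fun c => by
      by_cases h : c ∈ T
      · rw [if_pos h]; have := hD c; omega
      · rw [if_neg h]
    have hTa : (if a ∈ T then D a else 2) = D a := if_pos haT
    have hTb : (if b ∈ T then D b else 2) = D b := if_pos hbT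
    by_cases hc : ∃ c ∈ T, c ≠ a ∧ c ≠ b
    · obtain ⟨c, hcT, hca, hcb⟩ := hc
      have hcT' : (if c ∈ T then D c else 2) = D c := if_pos hcT
      have e : Function.update (fun c => if c ∈ T then D c else 2) c 2 =
          fun c' => if c' ∈ T.erase c then D c' else 2 := by
        funext c'
        by_cases h : c' = c
        · rw [h, Function.update_self, if_neg (Finset.notMem_erase c T)]
        · rw [Function.update_of_ne h]
          by_cases h' : c' ∈ T
          · rw [if_pos h', if_pos (Finset.mem_erase.2 ⟨h, h'⟩)]
          · rw [if_neg h', if_neg (fun hh => h' (Finset.mem_of_mem_erase hh))]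
      have h1 := ih (T.erase c) (Finset.erase_ssubset hcT) (Finset.mem_erase.2 ⟨hca.symm, haT⟩)
        (Finset.mem_erase.2 ⟨hcb.symm, hbT⟩)
      rw [← e] at h1
      have h3 : NabS.{v} K (Function.update (fun c => if c ∈ T then D c else 2) c (D c - 4))
          (D a) := by
        have h4 := nabS_line.{v} (K := K)
          (Function.update (fun c => if c ∈ T then D c else 2) c (D c - 4)) a (by
            rw [Function.update_of_ne hca.symm]
            show 3 ≤ if a ∈ T then D a else 2
            rw [hTa]; omega)
        have h5 : Function.update (fun c => if c ∈ T then D c else 2) c (D c - 4) a = D a := by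
          rw [Function.update_of_ne hca.symm]
          exact hTa
        rwa [h5] at h4
      have h := nabS_step2.{v} (K := K) (fun c => if c ∈ T then D c else 2) h2 hab
        (by show 6 ≤ if a ∈ T then D a else 2; rw [hTa]; exact ha)
        (by show 4 ≤ if b ∈ T then D b else 2; rw [hTb]; exact hD b) c (p := 2) (q := D c - 4)
        (by show (if c ∈ T then D c else 2) = 2 + (D c - 4) + 2; rw [hcT']; have := hD c; omega)
        h1 h3
      have hcard : T.card = (T.erase c).card + 1 := (Finset.card_erase_add_one hcT).symm
      have hprod1 : ∏ c', (if c' ∈ T then D c' else 2) =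
          D c * ∏ c' ∈ Finset.univ.erase c, (if c' ∈ T then D c' else 2) := by
        rw [← Finset.mul_prod_erase _ _ (Finset.mem_univ c), hcT']
      have hprod2 : ∏ c', (if c' ∈ T.erase c then D c' else 2) =
          2 * ∏ c' ∈ Finset.univ.erase c, (if c' ∈ T then D c' else 2) := by
        rw [← Finset.mul_prod_erase _ _ (Finset.mem_univ c), if_neg (Finset.notMem_erase c T)]
        congr 1
        refine Finset.prod_congr rfl fun c' hc' => ?_
        have h' := Finset.ne_of_mem_erase hc'
        by_cases h6 : c' ∈ T
        · rw [if_pos h6, if_pos (Finset.mem_erase.2 ⟨h', h6⟩)]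
        · rw [if_neg h6, if_neg (fun hh => h6 (Finset.mem_of_mem_erase hh))]
      intro l u hlu V _ _ _ t hinj hS hr
      refine h l u hlu V t hinj hS (lt_of_lt_of_le hr ?_)
      refine le_min ?_ (min_le_right _ _)
      rw [e, hprod2]
      rcases min_choice (D a ^ (T.erase c).card)
          (2 * ∏ c' ∈ Finset.univ.erase c, (if c' ∈ T then D c' else 2)) with h7 | h7
      · rw [h7, hcard, pow_succ]
        exact min_le_left _ _
      · rw [h7]
        refine (min_le_right _ _).trans ?_
        rw [hprod1]
        have h8 := hmax c
        calc D c * ∏ c' ∈ Finset.univ.erase c, (if c' ∈ T then D c' else 2)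
            ≤ (2 * D a) * ∏ c' ∈ Finset.univ.erase c, (if c' ∈ T then D c' else 2) :=
              Nat.mul_le_mul_right _ (by omega)
          _ = _ := by ring
    · push Not at hc
      have hT : T = {a, b} := by
        ext c
        rw [Finset.mem_insert, Finset.mem_singleton]
        constructor
        · intro h
          by_cases h' : c = a
          · exact Or.inl h'
          · exact Or.inr (hc c h h')
        · rintro (rfl | rfl)
          · exact haT
          · exact hbT
      have hcard : T.card = 2 := by rw [hT, Finset.card_pair hab]
      have hl : ∀ p : ℕ, NabS.{v} K (Function.update (fun c => if c ∈ T then D c else 2) b p)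
          (D a) := by
        intro p
        have h4 := nabS_line.{v} (K := K)
          (Function.update (fun c => if c ∈ T then D c else 2) b p) a (by
            rw [Function.update_of_ne hab]
            show 3 ≤ if a ∈ T then D a else 2
            rw [hTa]; omega)
        have h5 : Function.update (fun c => if c ∈ T then D c else 2) b p a = D a := by
          rw [Function.update_of_ne hab]
          exact hTa
        rwa [h5] at h4
      have h := nabS_step2.{v} (K := K) (fun c => if c ∈ T then D c else 2) h2 hab
        (by show 6 ≤ if a ∈ T then D a else 2; rw [hTa]; exact ha)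
        (by show 4 ≤ if b ∈ T then D b else 2; rw [hTb]; exact hD b) b (p := D b - 2) (q := 0)
        (by show (if b ∈ T then D b else 2) = D b - 2 + 0 + 2; rw [hTb]; have := hD b; omega)
        (hl _) (hl _)
      rw [hcard, pow_two]
      exact h

/-- the bound for boxes -/
theorem nabS_full [IsAlgClosed K] (D : Fin n → ℕ) (hD : ∀ c, 4 ≤ D c) {a b : Fin n} (hab : a ≠ b)
    (ha : 6 ≤ D a) : NabS.{v} K D (∏ c, D c) := by
  classical
  obtain ⟨a', -, hmax⟩ := Finset.exists_max_image Finset.univ D ⟨a, Finset.mem_univ a⟩
  obtain ⟨b', hab'⟩ : ∃ b', a' ≠ b' := by
    by_cases h : a' = a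
    · exact ⟨b, fun h' => hab (h.symm.trans h')⟩
    · exact ⟨a, h⟩
  have h := nabS_rec.{v} (K := K) D hD hab' (by have := hmax a (Finset.mem_univ a); omega)
    (fun c => hmax c (Finset.mem_univ c)) Finset.univ (Finset.mem_univ _) (Finset.mem_univ _)
  simp only [Finset.mem_univ, if_true, Finset.card_univ, Fintype.card_fin] at h
  intro l u hlu V _ _ _ t hinj hS hr
  refine h l u hlu V t hinj hS (lt_of_lt_of_le hr (le_min ?_ (le_refl _)))
  calc ∏ c, D c ≤ ∏ _c : Fin n, D a' :=
        Finset.prod_le_prod' fun c _ => hmax c (Finset.mem_univ c)
    _ = D a' ^ n := by rw [Finset.prod_const, Finset.card_univ, Fintype.card_fin]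

end Pool.Agent.HypLow
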