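import Pool.Agent.Lib.HypQ.NIdem

/-! # Products of differences, one for each box of a list (page hyp70, section 2) -/

namespace Pool.Agent.HypLow

variable {n : ℕ} {K V : Type*} [Field K] [AddCommGroup V] [Module K V]

/-- `P` is a product of differences `t u - t v`, one for each set `X` of the list,
with `u, v ∈ X` -/
def Mix (t : (Fin n → ℤ) → Module.End K V) :
    List (Set (Fin n → ℤ)) → Module.End K V → Prop
  | [], P => P = 1
  | X :: L, P => ∃ u ∈ X, ∃ v ∈ X, ∃ Q, Mix t L Q ∧ P = (t u - t v) * Q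

/-- pairwise far boxes with a side `≥ 5` -/
structure Boxes (L : List ((Fin n → ℤ) × (Fin n → ℤ))) : Prop where
  good : ∀ b ∈ L, ∃ a, b.1 a + 4 ≤ b.2 a
  far : L.Pairwise fun b b' => ∀ x ∈ Box b.1 b.2, ∀ y ∈ Box b'.1 b'.2, Far x y

/-- the sets of a list of boxes -/
def sets (L : List ((Fin n → ℤ) × (Fin n → ℤ))) : List (Set (Fin n → ℤ)) :=
  L.map fun b => Box b.1 b.2

/-- the union -/
def un (L : List ((Fin n → ℤ) × (Fin n → ℤ))) : Set (Fin n → ℤ) :=
  {x | ∃ b ∈ L, x ∈ Box b.1 b.2}

/-- the iterated `NX` -/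
private def mix_F (t : (Fin n → ℤ) → Module.End K V) :
    List ((Fin n → ℤ) × (Fin n → ℤ)) → Submodule K V → Submodule K V
  | [], S => S
  | b :: L, S => NX (Box b.1 b.2) t (mix_F t L S)

private theorem mix_F_mono (t : (Fin n → ℤ) → Module.End K V)
    (L : List ((Fin n → ℤ) × (Fin n → ℤ))) {S S' : Submodule K V} (h : S ≤ S') :
    mix_F t L S ≤ mix_F t L S' := by
  induction L with
  | nil => exact h
  | cons b L ih => exact NX_mono (subset_refl _) ih

/-- products map into the iterated `NX` -/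
private theorem mix_mem (t : (Fin n → ℤ) → Module.End K V)
    (L : List ((Fin n → ℤ) × (Fin n → ℤ))) (S : Submodule K V) :
    ∀ P, Mix t (sets L) P → ∀ w ∈ S, P w ∈ mix_F t L S := by
  induction L with
  | nil =>
    intro P hP w hw
    have hP' : P = 1 := hP
    rw [hP']
    exact hw
  | cons b L ih =>
    intro P hP w hw
    obtain ⟨u, hu, v, hv, Q, hQ, rfl⟩ := hP
    have := mem_NX (t := t) hu hv (ih Q hQ w hw)
    rwa [Module.End.mul_apply, LinearMap.sub_apply]

/-- the iterated `NX` is the span of the images of the products -/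
private theorem mix_F_le (t : (Fin n → ℤ) → Module.End K V)
    (L : List ((Fin n → ℤ) × (Fin n → ℤ))) (S S' : Submodule K V)
    (h : ∀ P, Mix t (sets L) P → ∀ w ∈ S, P w ∈ S') : mix_F t L S ≤ S' := by
  induction L generalizing S' with
  | nil =>
    intro w hw
    have := h 1 rfl w hw
    simpa using this
  | cons b L ih =>
    refine NX_le_iff.2 fun u hu v hv w hw => ?_
    have h1 : mix_F t L S ≤ S'.comap (t u - t v) := by
      refine ih _ fun Q hQ z hz => ?_
      have := h ((t u - t v) * Q) ⟨u, hu, v, hv, Q, hQ, rfl⟩ z hz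
      rwa [Module.End.mul_apply] at this
    have h2 := h1 hw
    rwa [Submodule.mem_comap, LinearMap.sub_apply] at h2

/-- an operator which commutes with all `t y` and preserves `S` preserves the iterated `NX` -/
private theorem mix_F_stable (t : (Fin n → ℤ) → Module.End K V)
    (L : List ((Fin n → ℤ) × (Fin n → ℤ))) (S : Submodule K V) (T : Module.End K V)
    (hT : ∀ x ∈ un L, T * t x = t x * T) (hTS : ∀ w ∈ S, T w ∈ S) :
    ∀ w ∈ mix_F t L S, T w ∈ mix_F t L S := by
  induction L with
  | nil => exact hTS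
  | cons b L ih =>
    have h1 := ih fun x hx => hT x (by
      obtain ⟨b', hb', hx'⟩ := hx
      exact ⟨b', List.mem_cons_of_mem _ hb', hx'⟩)
    exact NX_map T (fun x hx => hT x ⟨b, List.mem_cons_self, hx⟩) h1

/-- the iterated `NX` commutes with `NX X` if `X` commutes with everything -/
private theorem mix_F_swap (t : (Fin n → ℤ) → Module.End K V)
    (L : List ((Fin n → ℤ) × (Fin n → ℤ))) (X : Set (Fin n → ℤ)) (S : Submodule K V)
    (hX : ∀ x ∈ X, ∀ y ∈ un L, t x * t y = t y * t x) :
    mix_F t L (NX X t S) = NX X t (mix_F t L S) := by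
  induction L with
  | nil => rfl
  | cons b L ih =>
    have h1 := ih fun x hx y hy => hX x hx y (by
      obtain ⟨b', hb', hy'⟩ := hy
      exact ⟨b', List.mem_cons_of_mem _ hb', hy'⟩)
    show NX (Box b.1 b.2) t (mix_F t L (NX X t S)) = NX X t (NX (Box b.1 b.2) t (mix_F t L S))
    rw [h1]
    exact NX_swap (fun x hx y hy => (hX y hy x ⟨b, List.mem_cons_self, hx⟩).symm) _

/-- the iterated `NX` is idempotent -/
private theorem mix_F_idem [FiniteDimensional K V] (t : (Fin n → ℤ) → Module.End K V)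
    (L : List ((Fin n → ℤ) × (Fin n → ℤ))) (hL : Boxes L)
    (hinj : ∀ x ∈ un L, Function.Injective (t x)) (hS : Sys (un L) t)
    (S : Submodule K V) (hW : ∀ x ∈ un L, ∀ w ∈ S, t x w ∈ S) :
    mix_F t L (mix_F t L S) = mix_F t L S := by
  induction L with
  | nil => rfl
  | cons b L ih =>
    have hsub : ∀ x ∈ un L, x ∈ un (b :: L) := by
      intro x hx
      obtain ⟨b', hb', hx'⟩ := hx
      exact ⟨b', List.mem_cons_of_mem _ hb', hx'⟩
    have hsubb : ∀ x ∈ Box b.1 b.2, x ∈ un (b :: L) := fun x hx => ⟨b, List.mem_cons_self, hx⟩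
    have hfar := List.pairwise_cons.1 hL.far
    have hcomm : ∀ x ∈ Box b.1 b.2, ∀ y ∈ un L, t x * t y = t y * t x := by
      intro x hx y hy
      obtain ⟨b', hb', hy'⟩ := hy
      exact hS.comm x (hsubb x hx) y (hsub y ⟨b', hb', hy'⟩) (hfar.1 b' hb' x hx y hy')
    have hL' : Boxes L := ⟨fun b' hb' => hL.good b' (List.mem_cons_of_mem _ hb'), hfar.2⟩
    have h1 := ih hL' (fun x hx => hinj x (hsub x hx)) (hS.mono hsub)
      (fun x hx => hW x (hsub x hx))
    show NX (Box b.1 b.2) t (mix_F t L (NX (Box b.1 b.2) t (mix_F t L S))) =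
      NX (Box b.1 b.2) t (mix_F t L S)
    rw [mix_F_swap t L (Box b.1 b.2) (mix_F t L S) hcomm, h1]
    obtain ⟨a, ha⟩ := hL.good b List.mem_cons_self
    refine NX_idem a ha (fun x hx => hinj x (hsubb x hx)) (hS.mono hsubb) ?_
    intro x hx
    exact mix_F_stable t L S (t x) (hcomm x hx) (hW x (hsubb x hx))

/-- If all products vanish on the stable subspace `W` and map `V` to `W` then they are zero.
Proof: `N := foldr NX ⊤` is the span of the ranges of all products; it is stable and the `NX` of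
the list commute and are idempotent, so `foldr NX N = N`; `N ≤ W`, so `N = foldr NX N` is
contained in `foldr NX W = 0`. -/
theorem mix_ext [FiniteDimensional K V] {t : (Fin n → ℤ) → Module.End K V}
    {L : List ((Fin n → ℤ) × (Fin n → ℤ))} (hL : Boxes L)
    (hinj : ∀ x ∈ un L, Function.Injective (t x)) (hS : Sys (un L) t)
    {W : Submodule K V} (hW : ∀ x ∈ un L, ∀ w ∈ W, t x w ∈ W)
    (h1 : ∀ P, Mix t (sets L) P → ∀ w ∈ W, P w = 0) (h2 : ∀ P, Mix t (sets L) P → ∀ w, P w ∈ W) :
    ∀ P, Mix t (sets L) P → P = 0 := by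
  have hidem := mix_F_idem t L hL hinj hS ⊤ (fun x _ w _ => Submodule.mem_top)
  have hle : mix_F t L ⊤ ≤ W := mix_F_le t L ⊤ W fun P hP w _ => h2 P hP w
  have hbot : mix_F t L W ≤ ⊥ := mix_F_le t L W ⊥ fun P hP w hw => by
    rw [h1 P hP w hw]
    exact Submodule.zero_mem _
  have hzero : mix_F t L ⊤ ≤ ⊥ := by
    rw [← hidem]
    exact (mix_F_mono t L hle).trans hbot
  intro P hP
  refine LinearMap.ext fun w => ?_
  have := hzero (mix_mem t L ⊤ P hP w Submodule.mem_top)
  rw [Submodule.mem_bot] at this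
  simpa using this

end Pool.Agent.HypLow
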