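import Pool.Agent.Lib.HypQ.Mix
import Pool.Agent.Lib.HypQ.Iso

/-! # The dimension of a system with a nonzero product (page hyp70, (T3)) -/

namespace Pool.Agent.HypLow

universe v

variable {n : ℕ} {K : Type*} [Field K]

/-- the products act on a second system which is compatible with the first one by `g` -/
theorem mixDim_transfer {V V' : Type*} [AddCommGroup V] [Module K V] [AddCommGroup V']
    [Module K V'] {ι : Type*} (g : ι → V) (g' : ι → V') (R : V → V' → Prop)
    (hsub : ∀ a b a' b', R a a' → R b b' → R (a - b) (a' - b'))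
    {t : (Fin n → ℤ) → Module.End K V} {t' : (Fin n → ℤ) → Module.End K V'} :
    ∀ (L : List (Set (Fin n → ℤ))), (∀ X ∈ L, ∀ x ∈ X, ∀ a a', R a a' → R (t x a) (t' x a')) →
      ∀ P, Mix t L P → ∃ P', Mix t' L P' ∧ ∀ a a', R a a' → R (P a) (P' a') := by
  intro L
  induction L with
  | nil =>
    intro _ P hP
    refine ⟨1, rfl, ?_⟩
    intro a a' h
    rw [show P = 1 from hP]
    exact h
  | cons X L ih =>
    rintro hR P ⟨u, hu, v, hv, Q, hQ, rfl⟩
    obtain ⟨Q', hQ', h1⟩ := ih (fun Y hY => hR Y (List.mem_cons_of_mem _ hY)) Q hQ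
    refine ⟨(t' u - t' v) * Q', ⟨u, hu, v, hv, Q', hQ', rfl⟩, ?_⟩
    intro a a' h
    have h2 := h1 a a' h
    exact hsub _ _ _ _ (hR X List.mem_cons_self u hu _ _ h2)
      (hR X List.mem_cons_self v hv _ _ h2)

theorem mixDim_sets_un {L : List ((Fin n → ℤ) × (Fin n → ℤ))} {X : Set (Fin n → ℤ)}
    (hX : X ∈ sets L) {x : Fin n → ℤ} (hx : x ∈ X) : x ∈ un L := by
  unfold sets at hX
  obtain ⟨b, hb, rfl⟩ := List.mem_map.1 hX
  exact ⟨b, hb, hx⟩

/-- a nonzero product of `t` on the stable subspace `W` gives one for the restriction -/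
theorem mixDim_restrict {V : Type*} [AddCommGroup V] [Module K V]
    {t : (Fin n → ℤ) → Module.End K V} {L : List ((Fin n → ℤ) × (Fin n → ℤ))}
    {W : Submodule K V} {t' : (Fin n → ℤ) → Module.End K W}
    (ht' : ∀ x ∈ un L, ∀ w : W, (t' x w : V) = t x w) {P : Module.End K V}
    (hP : Mix t (sets L) P) : ∃ P', Mix t' (sets L) P' ∧ ∀ w : W, (P' w : V) = P w := by
  obtain ⟨P', hP', h⟩ := mixDim_transfer (ι := Unit) (fun _ => (0 : V)) (fun _ => (0 : W))
    (fun a a' => (a' : V) = a) (t := t) (t' := t')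
    (fun a b a' b' h1 h2 => by
      show ((a' - b' : W) : V) = a - b
      rw [Submodule.coe_sub]
      have h1' : (a' : V) = a := h1
      have h2' : (b' : V) = b := h2
      rw [h1', h2']) (sets L)
    (fun X hX x hx a a' h1 => by
      show (t' x a' : V) = t x a
      have h1' : (a' : V) = a := h1
      rw [ht' x (mixDim_sets_un hX hx), h1']) P hP
  exact ⟨P', hP', fun w => h w w rfl⟩

/-- the same for the quotient -/
theorem mixDim_quot {V : Type*} [AddCommGroup V] [Module K V]
    {t : (Fin n → ℤ) → Module.End K V} {L : List ((Fin n → ℤ) × (Fin n → ℤ))}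
    {W : Submodule K V} {t' : (Fin n → ℤ) → Module.End K (V ⧸ W)}
    (ht' : ∀ x ∈ un L, ∀ w, t' x (W.mkQ w) = W.mkQ (t x w)) {P : Module.End K V}
    (hP : Mix t (sets L) P) : ∃ P', Mix t' (sets L) P' ∧ ∀ w, P' (W.mkQ w) = W.mkQ (P w) := by
  obtain ⟨P', hP', h⟩ := mixDim_transfer (ι := Unit) (fun _ => (0 : V)) (fun _ => (0 : V ⧸ W))
    (fun a a' => a' = W.mkQ a) (t := t) (t' := t')
    (fun a b a' b' h1 h2 => by
      show a' - b' = W.mkQ (a - b)
      have h1' : a' = W.mkQ a := h1
      have h2' : b' = W.mkQ b := h2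
      rw [h1', h2', map_sub]) (sets L)
    (fun X hX x hx a a' h1 => by
      show t' x a' = W.mkQ (t x a)
      have h1' : a' = W.mkQ a := h1
      rw [h1', ht' x (mixDim_sets_un hX hx)]) P hP
  exact ⟨P', hP', fun w => h w _ rfl⟩

/-- the products act on the equivariant maps by composition -/
theorem mixDim_comp {V U : Type*} [AddCommGroup V] [Module K V] [AddCommGroup U] [Module K U]
    {t : (Fin n → ℤ) → Module.End K V} {L : List ((Fin n → ℤ) × (Fin n → ℤ))}
    {H : Submodule K (U →ₗ[K] V)} {t' : (Fin n → ℤ) → Module.End K H}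
    (ht' : ∀ x ∈ un L, ∀ φ : H, ((t' x φ : H) : U →ₗ[K] V) = t x ∘ₗ (φ : U →ₗ[K] V))
    {P : Module.End K V} (hP : Mix t (sets L) P) :
    ∃ P', Mix t' (sets L) P' ∧ ∀ φ : H, ((P' φ : H) : U →ₗ[K] V) = P ∘ₗ (φ : U →ₗ[K] V) := by
  suffices h : ∀ (M : List (Set (Fin n → ℤ))), (∀ X ∈ M, ∀ x ∈ X, x ∈ un L) → ∀ P, Mix t M P →
      ∃ P', Mix t' M P' ∧ ∀ φ : H, ((P' φ : H) : U →ₗ[K] V) = P ∘ₗ (φ : U →ₗ[K] V) from
    h (sets L) (fun X hX x hx => mixDim_sets_un hX hx) P hP
  intro M
  induction M with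
  | nil =>
    intro _ P hP
    refine ⟨1, rfl, ?_⟩
    intro φ
    rw [show P = 1 from hP]
    rfl
  | cons X M ih =>
    rintro hR P ⟨u, hu, v, hv, Q, hQ, rfl⟩
    obtain ⟨Q', hQ', h1⟩ := ih (fun Y hY => hR Y (List.mem_cons_of_mem _ hY)) Q hQ
    refine ⟨(t' u - t' v) * Q', ⟨u, hu, v, hv, Q', hQ', rfl⟩, ?_⟩
    intro φ
    have h2 := h1 φ
    show ((t' u (Q' φ) - t' v (Q' φ) : H) : U →ₗ[K] V) = ((t u - t v) * Q) ∘ₗ (φ : U →ₗ[K] V)
    rw [Submodule.coe_sub, ht' u (hR X List.mem_cons_self u hu),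
      ht' v (hR X List.mem_cons_self v hv), h2]
    rfl

/-- the system on the equivariant maps -/
theorem mixDim_sys {V U : Type*} [AddCommGroup V] [Module K V] [AddCommGroup U] [Module K U]
    {B : Set (Fin n → ℤ)} {t : (Fin n → ℤ) → Module.End K V} (hS : Sys B t)
    (hinj : ∀ x ∈ B, Function.Injective (t x))
    {H : Submodule K (U →ₗ[K] V)} (hH : ∀ φ ∈ H, ∀ x ∈ B, t x ∘ₗ φ ∈ H) :
    ∃ t' : (Fin n → ℤ) → Module.End K H, Sys B t' ∧ (∀ x ∈ B, Function.Injective (t' x)) ∧
      ∀ x ∈ B, ∀ φ : H, ((t' x φ : H) : U →ₗ[K] V) = t x ∘ₗ (φ : U →ₗ[K] V) := by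
  classical
  have hd : ∀ x ∈ B, ∃ T : Module.End K H, ∀ φ : H, ((T φ : H) : U →ₗ[K] V) =
      t x ∘ₗ (φ : U →ₗ[K] V) := by
    intro x hx
    refine ⟨{ toFun := fun φ => ⟨t x ∘ₗ (φ : U →ₗ[K] V), hH φ φ.2 x hx⟩, map_add' := ?_,
              map_smul' := ?_ }, fun φ => rfl⟩
    · intro φ ψ
      apply Subtype.ext
      show t x ∘ₗ ((φ : U →ₗ[K] V) + (ψ : U →ₗ[K] V)) = t x ∘ₗ (φ : U →ₗ[K] V) +
        t x ∘ₗ (ψ : U →ₗ[K] V)
      exact LinearMap.comp_add _ _ _
    · intro c φ
      apply Subtype.ext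
      show t x ∘ₗ (c • (φ : U →ₗ[K] V)) = c • (t x ∘ₗ (φ : U →ₗ[K] V))
      exact LinearMap.comp_smul _ _ _
  obtain ⟨t', key⟩ : ∃ t' : (Fin n → ℤ) → Module.End K H, ∀ x ∈ B, ∀ φ : H,
      ((t' x φ : H) : U →ₗ[K] V) = t x ∘ₗ (φ : U →ₗ[K] V) := by
    refine ⟨fun x => if h : x ∈ B then (hd x h).choose else 0, ?_⟩
    intro x hx φ
    dsimp only
    rw [dif_pos hx]
    exact (hd x hx).choose_spec φ
  refine ⟨t', ⟨?_, ?_, ?_⟩, ?_, key⟩
  · intro x hx y hy h
    refine LinearMap.ext fun φ => Subtype.ext (LinearMap.ext fun z => ?_)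
    have e := LinearMap.congr_fun (hS.comm x hx y hy h) ((φ : U →ₗ[K] V) z)
    simp only [Module.End.mul_apply] at e ⊢
    rw [key x hx, key y hy, key y hy, key x hx]
    exact e
  · intro x hx y hy h
    refine LinearMap.ext fun φ => Subtype.ext (LinearMap.ext fun z => ?_)
    have e := LinearMap.congr_fun (hS.braid x hx y hy h) ((φ : U →ₗ[K] V) z)
    simp only [Module.End.mul_apply] at e ⊢
    rw [key x hx, key y hy, key x hx, key y hy, key x hx, key y hy]
    exact e
  · intro x hx y hy z hz h1 h2 h3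
    refine LinearMap.ext fun φ => Subtype.ext (LinearMap.ext fun w => ?_)
    have e := LinearMap.congr_fun (hS.tri x hx y hy z hz h1 h2 h3) ((φ : U →ₗ[K] V) w)
    simp only [Module.End.mul_apply] at e ⊢
    rw [key x hx, key y hy, key z hz, key x hx, key y hy, key z hz, key x hx, key y hy]
    exact e
  · intro x hx φ ψ h
    apply Subtype.ext
    refine LinearMap.ext fun z => hinj x hx ?_
    have h1 : ((t' x φ : H) : U →ₗ[K] V) = ((t' x ψ : H) : U →ₗ[K] V) := by rw [h]
    rw [key x hx, key x hx] at h1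
    exact LinearMap.congr_fun h1 z

theorem mixDim_boxes_tail {b : (Fin n → ℤ) × (Fin n → ℤ)}
    {L : List ((Fin n → ℤ) × (Fin n → ℤ))} (h : Boxes (b :: L)) : Boxes L :=
  ⟨fun c hc => h.good c (List.mem_cons_of_mem _ hc), (List.pairwise_cons.1 h.far).2⟩

/-- (T3). Induction on the length of the list, and for each list strong induction on the dimension
of `V`: if `V` has a stable subspace `W` use `mix_ext` (restriction and quotient). If `V` is
irreducible apply `exists_iso` with `A` the operators of the first box and `B` the others: the first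
box is not flat on `U`, so `k b ≤ dim U`; `H` with `φ ↦ t x ∘ φ` is a system for the rest of the
list with a nonzero product. -/
theorem mix_dim [IsAlgClosed K] (k : (Fin n → ℤ) × (Fin n → ℤ) → ℕ)
    (L : List ((Fin n → ℤ) × (Fin n → ℤ))) (hL : Boxes L)
    (hN : ∀ b ∈ L, Nab.{v} K b.1 b.2 (k b)) :
    ∀ (V : Type v) [AddCommGroup V] [Module K V] [FiniteDimensional K V]
      (t : (Fin n → ℤ) → Module.End K V), (∀ x ∈ un L, Function.Injective (t x)) →
      Sys (un L) t → ∀ P, Mix t (sets L) P → P ≠ 0 → (L.map k).prod ≤ Module.finrank K V := by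
  induction L with
  | nil =>
    intro V _ _ _ t _ _ P hP hP0
    have h1 : Nontrivial V := by
      by_contra h2
      rw [not_nontrivial_iff_subsingleton] at h2
      exact hP0 (LinearMap.ext fun z => Subsingleton.elim _ _)
    have h3 : 0 < Module.finrank K V := Module.finrank_pos
    simpa using Nat.succ_le_of_lt h3
  | cons b L ih =>
    -- strong induction on the dimension
    suffices hs : ∀ (N : ℕ) (V : Type v) [AddCommGroup V] [Module K V] [FiniteDimensional K V]
        (t : (Fin n → ℤ) → Module.End K V), Module.finrank K V ≤ N →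
        (∀ x ∈ un (b :: L), Function.Injective (t x)) →
        Sys (un (b :: L)) t → ∀ P, Mix t (sets (b :: L)) P → P ≠ 0 →
        ((b :: L).map k).prod ≤ Module.finrank K V by
      intro V _ _ _ t h1 h2 P h3 h4
      exact hs _ V t le_rfl h1 h2 P h3 h4
    intro N
    induction N with
    | zero =>
      intro V _ _ _ t hN0 _ _ P hP hP0
      exfalso
      have h1 : Subsingleton V := Module.finrank_zero_iff.1 (Nat.le_zero.1 hN0)
      exact hP0 (LinearMap.ext fun z => Subsingleton.elim _ _)
    | succ N ihN =>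
      intro V _ _ _ t hVN hinj hS P hP hP0
      have hnt : Nontrivial V := by
        by_contra h2
        rw [not_nontrivial_iff_subsingleton] at h2
        exact hP0 (LinearMap.ext fun z => Subsingleton.elim _ _)
      by_cases hirr : ∀ W : Submodule K V, (∀ x ∈ un (b :: L), ∀ w ∈ W, t x w ∈ W) →
          W = ⊥ ∨ W = ⊤
      · -- irreducible
        have hb : ∀ x ∈ Box b.1 b.2, x ∈ un (b :: L) := fun x hx => ⟨b, List.mem_cons_self, hx⟩
        have hLu : ∀ x ∈ un L, x ∈ un (b :: L) := by
          rintro x ⟨c, hc, hx⟩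
          exact ⟨c, List.mem_cons_of_mem _ hc, hx⟩
        obtain ⟨U, H, hU0, hUst, hHeq, hHst, hH0, hdim⟩ := exists_iso (K := K) (V := V)
          {S | ∃ x ∈ Box b.1 b.2, S = t x} {T | ∃ x ∈ un L, T = t x} (by
            rintro S ⟨x, hx, rfl⟩ T ⟨y, ⟨c, hc, hy⟩, rfl⟩
            exact hS.comm x (hb x hx) y (hLu y ⟨c, hc, hy⟩)
              ((List.pairwise_cons.1 hL.far).1 c hc x hx y hy)) (by
            intro W h1 h2
            refine hirr W ?_
            rintro x ⟨c, hc, hx⟩ w hw
            rcases List.mem_cons.1 hc with rfl | hc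
            · exact h1 (t x) ⟨x, hx, rfl⟩ w hw
            · exact h2 (t x) ⟨x, ⟨c, hc, hx⟩, rfl⟩ w hw)
        obtain ⟨u, hu, v, hv, Q, hQ, hPQ⟩ := hP
        have hk1 : k b ≤ Module.finrank K U := by
          by_contra hlt
          have hflat := (hN b List.mem_cons_self).flat_on (fun x hx => hinj x (hb x hx))
            (hS.mono (fun x hx => hb x hx)) U (fun x hx w hw => hUst (t x) ⟨x, hx, rfl⟩ w hw)
            (not_le.1 hlt) u hu v hv
          have h1 : t u - t v = 0 := by
            refine hH0 (t u - t v) ?_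
            intro φ hφ
            refine LinearMap.ext fun z => ?_
            show t u (φ z) - t v (φ z) = 0
            have h2 := hHeq φ hφ (t u) ⟨u, hu, rfl⟩ z ⟨t u z, hUst (t u) ⟨u, hu, rfl⟩ z z.2⟩ rfl
            have h3 := hHeq φ hφ (t v) ⟨v, hv, rfl⟩ z ⟨t v z, hUst (t v) ⟨v, hv, rfl⟩ z z.2⟩ rfl
            rw [← h2, ← h3, ← map_sub]
            have h4 : ((⟨t u z, hUst (t u) ⟨u, hu, rfl⟩ z z.2⟩ : U) -
                ⟨t v z, hUst (t v) ⟨v, hv, rfl⟩ z z.2⟩) = 0 := by
              apply Subtype.ext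
              show t u (z : V) - t v (z : V) = 0
              rw [hflat z z.2, sub_self]
            rw [h4, map_zero]
          exact hP0 (by rw [hPQ, h1, zero_mul])
        obtain ⟨t', hS', hinj', key⟩ := mixDim_sys (hS.mono hLu) (fun x hx => hinj x (hLu x hx))
          (H := H) (fun φ hφ x hx => hHst φ hφ (t x) ⟨x, hx, rfl⟩)
        obtain ⟨Q', hQ', hQQ⟩ := mixDim_comp key hQ
        have hQ0 : Q' ≠ 0 := by
          intro h0
          have h1 : Q = 0 := by
            refine hH0 Q ?_
            intro φ hφ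
            have h2 := hQQ ⟨φ, hφ⟩
            rw [h0] at h2
            exact h2.symm
          exact hP0 (by rw [hPQ, h1, mul_zero])
        have hk2 := ih (mixDim_boxes_tail hL) (fun c hc => hN c (List.mem_cons_of_mem _ hc)) H t'
          hinj' hS' Q' hQ' hQ0
        rw [List.map_cons, List.prod_cons]
        exact (Nat.mul_le_mul hk1 hk2).trans hdim
      · push Not at hirr
        obtain ⟨W, hW, hW0, hW1⟩ := hirr
        by_cases h1 : ∀ P, Mix t (sets (b :: L)) P → ∀ w ∈ W, P w = 0
        · by_cases h2 : ∀ P, Mix t (sets (b :: L)) P → ∀ w, P w ∈ W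
          · exact absurd (mix_ext hL hinj hS hW h1 h2 P hP) hP0
          · push Not at h2
            obtain ⟨P₁, hP₁, w, hw⟩ := h2
            obtain ⟨t', hS', hinj', key⟩ := hS.quot hinj W hW
            obtain ⟨P', hP', hPP⟩ := mixDim_quot key hP₁
            have hlt : Module.finrank K (V ⧸ W) + Module.finrank K W = Module.finrank K V :=
              Submodule.finrank_quotient_add_finrank W
            have hpos : 0 < Module.finrank K W := by
              rw [Nat.pos_iff_ne_zero]
              intro h0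
              exact hW0 (Submodule.finrank_eq_zero.1 h0)
            have h3 := ihN (V ⧸ W) t' (by omega) hinj' hS' P' hP' (by
              intro h0
              apply hw
              have h4 := hPP w
              rw [h0] at h4
              exact (Submodule.Quotient.mk_eq_zero W).1 h4.symm)
            omega
        · push Not at h1
          obtain ⟨P₁, hP₁, w, hw, hPw⟩ := h1
          obtain ⟨t', hS', key⟩ := hS.restrict W hW
          obtain ⟨P', hP', hPP⟩ := mixDim_restrict key hP₁
          have hlt : Module.finrank K W < Module.finrank K V :=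
            Submodule.finrank_lt hW1
          have h3 := ihN W t' (by omega) (by
            intro x hx a a' h
            apply Subtype.ext
            apply hinj x hx
            rw [← key x hx, ← key x hx, h]) hS' P' hP' (by
              intro h0
              apply hPw
              have h4 := hPP ⟨w, hw⟩
              rw [h0] at h4
              exact h4.symm)
          omega

end Pool.Agent.HypLow
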