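import Pool.Agent.Lib.HypLow.Edge

/-! # Moving edges (page hyp70, section 3) -/

namespace Pool.Agent.HypLow

variable {n : ℕ} {K V : Type*} [Field K] [AddCommGroup V] [Module K V]
  {t : (Fin n → ℤ) → Module.End K V}

theorem mem_boxU {l u x : Fin n → ℤ} {a : Fin n} {g : ℤ} (h : g ≤ u a) :
    x ∈ Box l (Function.update u a g) ↔ x ∈ Box l u ∧ x a ≤ g := by
  constructor
  · intro hx
    have ha := hx a
    rw [Function.update_self] at ha
    refine ⟨fun c => ?_, ha.2⟩
    by_cases hc : c = a
    · subst hc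
      exact ⟨ha.1, by omega⟩
    · have := hx c
      rwa [Function.update_of_ne hc] at this
  · rintro ⟨hx, hg⟩ c
    have := hx c
    by_cases hc : c = a
    · subst hc
      rw [Function.update_self]
      exact ⟨this.1, hg⟩
    · rwa [Function.update_of_ne hc]

theorem mem_boxL {l u x : Fin n → ℤ} {a : Fin n} {g : ℤ} (h : l a ≤ g) :
    x ∈ Box (Function.update l a g) u ↔ x ∈ Box l u ∧ g ≤ x a := by
  constructor
  · intro hx
    have ha := hx a
    rw [Function.update_self] at ha
    refine ⟨fun c => ?_, ha.1⟩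
    by_cases hc : c = a
    · subst hc
      exact ⟨by omega, ha.2⟩
    · have := hx c
      rwa [Function.update_of_ne hc] at this
  · rintro ⟨hx, hg⟩ c
    have := hx c
    by_cases hc : c = a
    · subst hc
      rw [Function.update_self]
      exact ⟨hg, this.2⟩
    · rwa [Function.update_of_ne hc]

/-- differences of far pairs commute -/
theorem diff_comm {B : Set (Fin n → ℤ)} (hS : Sys B t) {x y z w : Fin n → ℤ} (hx : x ∈ B)
    (hy : y ∈ B) (hz : z ∈ B) (hw : w ∈ B) (h1 : Far x z) (h2 : Far x w) (h3 : Far y z)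
    (h4 : Far y w) : (t x - t y) * (t z - t w) = (t z - t w) * (t x - t y) := by
  have e1 := hS.comm x hx z hz h1
  have e2 := hS.comm x hx w hw h2
  have e3 := hS.comm y hy z hz h3
  have e4 := hS.comm y hy w hw h4
  rw [sub_mul, mul_sub, mul_sub, sub_mul, mul_sub, mul_sub, e1, e2, e3, e4]
  abel

/-- (M): `edge_induction` with `R v w := (t v - t w) * D = 0`; for `v ~ w ~ z`, `v` far from `z`,
`g = t v * t w * t z`: `g * t v = t w * g`, `g * t w = t z * g`, so
`(t w - t z) * D * g = g * (t v - t w) * D = 0` and `g` is surjective. Then `box_connected`. -/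
theorem edge_move {l u : Fin n → ℤ} (hs : ∀ c, l c + 2 ≤ u c)
    (hsurj : ∀ x ∈ Box l u, Function.Surjective (t x)) (hS : Sys (Box l u) t)
    (D : Module.End K V) (hD : ∀ x ∈ Box l u, D * t x = t x * D)
    (h : ∃ v ∈ Box l u, ∃ w ∈ Box l u, Adj v w ∧ (t v - t w) * D = 0) :
    ∀ x ∈ Box l u, ∀ y ∈ Box l u, (t x - t y) * D = 0 := by
  have key : ∀ v ∈ Box l u, ∀ w ∈ Box l u, Adj v w → (t v - t w) * D = 0 := by
    refine edge_induction hs (fun v w => (t v - t w) * D = 0) ?_ ?_ h
    · intro v _ w _ _ h0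
      show (t w - t v) * D = 0
      rw [← neg_sub, neg_mul, h0, neg_zero]
    · intro v hv w hw z hz hvw hwz hvz h0
      show (t w - t z) * D = 0
      have c1 := hS.comm v hv z hz hvz
      have b1 := hS.braid v hv w hw hvw
      have b2 := hS.braid w hw z hz hwz
      have g1 : t w * (t v * t w * t z) = t v * t w * t z * t v := by
        calc t w * (t v * t w * t z) = t w * t v * t w * t z := by simp only [mul_assoc]
          _ = t v * t w * t v * t z := by rw [b1]
          _ = t v * t w * (t v * t z) := by simp only [mul_assoc]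
          _ = t v * t w * t z * t v := by rw [c1]; simp only [mul_assoc]
      have g2 : t z * (t v * t w * t z) = t v * t w * t z * t w := by
        calc t z * (t v * t w * t z) = t z * t v * (t w * t z) := by simp only [mul_assoc]
          _ = t v * t z * (t w * t z) := by rw [c1]
          _ = t v * (t z * t w * t z) := by simp only [mul_assoc]
          _ = t v * (t w * t z * t w) := by rw [b2]
          _ = t v * t w * t z * t w := by simp only [mul_assoc]
      have dg : D * (t v * t w * t z) = t v * t w * t z * D := by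
        calc D * (t v * t w * t z) = D * t v * t w * t z := by simp only [mul_assoc]
          _ = t v * (D * t w) * t z := by rw [hD v hv]; simp only [mul_assoc]
          _ = t v * t w * (D * t z) := by rw [hD w hw]; simp only [mul_assoc]
          _ = t v * t w * t z * D := by rw [hD z hz]; simp only [mul_assoc]
      have e : (t w - t z) * D * (t v * t w * t z) = 0 := by
        calc (t w - t z) * D * (t v * t w * t z) = (t w - t z) * (D * (t v * t w * t z)) := by
              rw [mul_assoc]
          _ = (t w * (t v * t w * t z) - t z * (t v * t w * t z)) * D := by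
              rw [dg, ← mul_assoc, sub_mul]
          _ = t v * t w * t z * ((t v - t w) * D) := by
              rw [g1, g2, ← mul_sub, mul_assoc]
          _ = 0 := by rw [h0, mul_zero]
      refine LinearMap.ext fun y => ?_
      obtain ⟨y1, rfl⟩ := hsurj v hv y
      obtain ⟨y2, rfl⟩ := hsurj w hw y1
      obtain ⟨y3, rfl⟩ := hsurj z hz y2
      exact LinearMap.congr_fun e y3
  have hc := box_connected (l := l) (u := u) (fun x => t x * D) (fun x hx y hy hxy => by
    have h1 := key x hx y hy hxy
    rw [sub_mul, sub_eq_zero] at h1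
    exact h1)
  intro x hx y hy
  rw [sub_mul, sub_eq_zero]
  exact hc x hx y hy

/-- `P(c, g)` of the page -/
def PP (l u : Fin n → ℤ) (t : (Fin n → ℤ) → Module.End K V) (c : Fin n) (g : ℤ) : Prop :=
  ∀ x ∈ Box l u, ∀ y ∈ Box l u, ∀ z ∈ Box l u, ∀ w ∈ Box l u, x c ≤ g → y c ≤ g →
    g + 2 ≤ z c → g + 2 ≤ w c → (t x - t y) * (t z - t w) = 0

/-- the corner condition: `(t l - t (l + e_i)) * (t u - t (u - e_i)) = 0` -/
def Corner (l u : Fin n → ℤ) (t : (Fin n → ℤ) → Module.End K V) (i : Fin n) : Prop :=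
  (t l - t (mv l i 1)) * (t u - t (mv u i (-1))) = 0

/-- move the upper edge: if the difference of `x`, `y` (with `a`-coordinates `≤ g`) kills one
difference of an edge in `{≥ g + 2}` then it kills all -/
theorem move_up {l u : Fin n → ℤ} (hs : ∀ c, l c + 2 ≤ u c)
    (hsurj : ∀ x ∈ Box l u, Function.Surjective (t x)) (hS : Sys (Box l u) t) {a : Fin n}
    {g g' : ℤ} (hg : l a ≤ g') (hgg : g + 2 ≤ g') (hg' : g' + 2 ≤ u a) {x y : Fin n → ℤ}
    (hx : x ∈ Box l u) (hy : y ∈ Box l u) (hxg : x a ≤ g) (hyg : y a ≤ g)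
    (h : ∃ v ∈ Box l u, ∃ w ∈ Box l u, Adj v w ∧ g' ≤ v a ∧ g' ≤ w a ∧
      (t x - t y) * (t v - t w) = 0) :
    ∀ z ∈ Box l u, ∀ w ∈ Box l u, g' ≤ z a → g' ≤ w a → (t x - t y) * (t z - t w) = 0 := by
  obtain ⟨v, hv, w, hw, hvw, hvg, hwg, h0⟩ := h
  have hsub : ∀ z ∈ Box (Function.update l a g') u, z ∈ Box l u := fun z hz =>
    ((mem_boxL hg).1 hz).1
  have hfx : ∀ z : Fin n → ℤ, g' ≤ z a → Far x z := fun z hz => far_of_le a (by omega)
  have hfy : ∀ z : Fin n → ℤ, g' ≤ z a → Far y z := fun z hz => far_of_le a (by omega)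
  have key := edge_move (t := t) (l := Function.update l a g') (u := u) (fun c => by
      by_cases hc : c = a
      · subst hc
        rw [Function.update_self]
        exact hg'
      · rw [Function.update_of_ne hc]
        exact hs c) (fun z hz => hsurj z (hsub z hz)) (hS.mono hsub) (t x - t y) (fun z hz => by
      have hz' := (mem_boxL hg).1 hz
      rw [sub_mul, mul_sub, hS.comm x hx z hz'.1 (hfx z hz'.2), hS.comm y hy z hz'.1 (hfy z hz'.2)])
    ⟨v, (mem_boxL hg).2 ⟨hv, hvg⟩, w, (mem_boxL hg).2 ⟨hw, hwg⟩, hvw, by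
      rw [← diff_comm hS hx hy hv hw (hfx v hvg) (hfx w hwg) (hfy v hvg) (hfy w hwg)]
      exact h0⟩
  intro z hz w' hw' hzg hwg'
  rw [diff_comm hS hx hy hz hw' (hfx z hzg) (hfx w' hwg') (hfy z hzg) (hfy w' hwg')]
  exact key z ((mem_boxL hg).2 ⟨hz, hzg⟩) w' ((mem_boxL hg).2 ⟨hw', hwg'⟩)

/-- move the lower edge -/
theorem move_down {l u : Fin n → ℤ} (hs : ∀ c, l c + 2 ≤ u c)
    (hsurj : ∀ x ∈ Box l u, Function.Surjective (t x)) (hS : Sys (Box l u) t) {a : Fin n}
    {g g' : ℤ} (hg : g ≤ u a) (hgg : g + 2 ≤ g') (hg' : l a + 2 ≤ g) {z w : Fin n → ℤ}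
    (hz : z ∈ Box l u) (hw : w ∈ Box l u) (hzg : g' ≤ z a) (hwg : g' ≤ w a)
    (h : ∃ x ∈ Box l u, ∃ y ∈ Box l u, Adj x y ∧ x a ≤ g ∧ y a ≤ g ∧
      (t x - t y) * (t z - t w) = 0) :
    ∀ x ∈ Box l u, ∀ y ∈ Box l u, x a ≤ g → y a ≤ g → (t x - t y) * (t z - t w) = 0 := by
  obtain ⟨x, hx, y, hy, hxy, hxg, hyg, h0⟩ := h
  have hsub : ∀ z ∈ Box l (Function.update u a g), z ∈ Box l u := fun z hz =>
    ((mem_boxU hg).1 hz).1
  have hfz : ∀ x : Fin n → ℤ, x a ≤ g → Far z x := fun x hx => (far_of_le a (by omega)).symm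
  have hfw : ∀ x : Fin n → ℤ, x a ≤ g → Far w x := fun x hx => (far_of_le a (by omega)).symm
  have key := edge_move (t := t) (l := l) (u := Function.update u a g) (fun c => by
      by_cases hc : c = a
      · subst hc
        rw [Function.update_self]
        exact hg'
      · rw [Function.update_of_ne hc]
        exact hs c) (fun z hz => hsurj z (hsub z hz)) (hS.mono hsub) (t z - t w) (fun x hx => by
      have hx' := (mem_boxU hg).1 hx
      rw [sub_mul, mul_sub, hS.comm z hz x hx'.1 (hfz x hx'.2), hS.comm w hw x hx'.1 (hfw x hx'.2)])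
    ⟨x, (mem_boxU hg).2 ⟨hx, hxg⟩, y, (mem_boxU hg).2 ⟨hy, hyg⟩, hxy, h0⟩
  intro x' hx' y' hy' hxg' hyg'
  exact key x' ((mem_boxU hg).2 ⟨hx', hxg'⟩) y' ((mem_boxU hg).2 ⟨hy', hyg'⟩)

theorem low_mem {l u : Fin n → ℤ} (hs : ∀ c, l c + 2 ≤ u c) : l ∈ Box l u := fun c => by
  have := hs c
  omega

theorem up_mem {l u : Fin n → ℤ} (hs : ∀ c, l c + 2 ≤ u c) : u ∈ Box l u := fun c => by
  have := hs c
  omega

theorem low_mv_mem {l u : Fin n → ℤ} (hs : ∀ c, l c + 2 ≤ u c) (i : Fin n) :
    mv l i 1 ∈ Box l u := mem_mv (low_mem hs) (by omega) (by have := hs i; omega)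

theorem up_mv_mem {l u : Fin n → ℤ} (hs : ∀ c, l c + 2 ≤ u c) (i : Fin n) :
    mv u i (-1) ∈ Box l u := mem_mv (up_mem hs) (by have := hs i; omega) (by omega)

/-- from two far slabs to the corners -/
theorem corner_of_slabs {l u : Fin n → ℤ} (hs : ∀ c, l c + 2 ≤ u c) {a b : Fin n} (hab : a ≠ b)
    (hsurj : ∀ x ∈ Box l u, Function.Surjective (t x)) (hS : Sys (Box l u) t) {g g' : ℤ}
    (hg : l a + 2 ≤ g) (hgg : g + 2 ≤ g') (hg' : g' + 2 ≤ u a)
    (h : ∃ v ∈ Box l u, ∃ w ∈ Box l u, ∃ v' ∈ Box l u, ∃ w' ∈ Box l u, Adj v w ∧ Adj v' w' ∧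
      v a ≤ g ∧ w a ≤ g ∧ g' ≤ v' a ∧ g' ≤ w' a ∧ (t v - t w) * (t v' - t w') = 0) :
    Corner l u t b := by
  obtain ⟨v, hv, w, hw, v', hv', w', hw', hvw, hvw', h1, h2, h3, h4, h0⟩ := h
  have k1 := move_down (t := t) hs hsurj hS (a := a) (g := g) (g' := g') (by omega) hgg hg hv' hw'
    h3 h4 ⟨v, hv, w, hw, hvw, h1, h2, h0⟩ l (low_mem hs) (mv l b 1) (low_mv_mem hs b) (by omega)
    (by rw [mv_ne l hab]; omega)
  exact move_up (t := t) hs hsurj hS (a := a) (g := g) (g' := g') (by omega) hgg hg' (low_mem hs)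
    (low_mv_mem hs b) (by omega) (by rw [mv_ne l hab]; omega) ⟨v', hv', w', hw', hvw', h3, h4, k1⟩
    u (up_mem hs) (mv u b (-1)) (up_mv_mem hs b) (by omega) (by rw [mv_ne u hab]; omega)

theorem mv_le_add (x : Fin n → ℤ) (i a : Fin n) : mv x i 1 a ≤ x a + 1 := by
  by_cases h : a = i
  · subst h
    rw [mv_same]
  · rw [mv_ne x h]
    omega

theorem le_mv_add (x : Fin n → ℤ) (i a : Fin n) : x a - 1 ≤ mv x i (-1) a := by
  by_cases h : a = i
  · subst h
    rw [mv_same]
    omega
  · rw [mv_ne x h]
    omega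

/-- (Q), direction `a` -/
theorem pp_a {l u : Fin n → ℤ} (hs : ∀ c, l c + 2 ≤ u c) {a : Fin n} (ha : l a + 6 ≤ u a)
    (hsurj : ∀ x ∈ Box l u, Function.Surjective (t x)) (hS : Sys (Box l u) t) {i : Fin n}
    (h : Corner l u t i) : ∀ g, l a ≤ g → g + 2 ≤ u a → PP l u t a g := by
  intro g hg hg' x hx y hy z hz w hw hxg hyg hzg hwg
  have hl := low_mem hs
  have hu := up_mem hs
  have hl' := low_mv_mem hs i
  have hu' := up_mv_mem hs i
  have m1 := mv_le_add l i a
  have m2 := le_mv_add u i a
  by_cases hc : g ≤ u a - 4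
  · have k1 := move_down (t := t) hs hsurj hS (a := a) (g := u a - 3) (g' := u a - 1) (by omega)
      (by omega) (by omega) hu hu' (by omega) m2
      ⟨l, hl, mv l i 1, hl', adj_mv l i, by omega, by omega, h⟩ x hx y hy (by omega) (by omega)
    exact move_up (t := t) hs hsurj hS (a := a) (g := g) (g' := g + 2) (by omega) (by omega)
      (by omega) hx hy hxg hyg ⟨u, hu, mv u i (-1), hu', adj_mv' u i, by omega, by omega, k1⟩
      z hz w hw hzg hwg
  · have k1 := move_up (t := t) hs hsurj hS (a := a) (g := l a + 1) (g' := l a + 3) (by omega)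
      (by omega) (by omega) hl hl' (by omega) m1
      ⟨u, hu, mv u i (-1), hu', adj_mv' u i, by omega, by omega, h⟩ z hz w hw (by omega) (by omega)
    exact move_down (t := t) hs hsurj hS (a := a) (g := g) (g' := g + 2) (by omega) (by omega)
      (by omega) hz hw hzg hwg ⟨l, hl, mv l i 1, hl', adj_mv l i, by omega, by omega, k1⟩
      x hx y hy hxg hyg

/-- the coordinates of adjacent points differ by at most one -/
theorem Adj.coord {x y : Fin n → ℤ} (h : Adj x y) (c : Fin n) : x c ≤ y c + 1 ∧ y c ≤ x c + 1 := by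
  rcases h with h | h <;> have := h.2 c <;> omega

/-- (Q), direction `b` -/
theorem pp_b {l u : Fin n → ℤ} (hs : ∀ c, l c + 2 ≤ u c) {a b : Fin n} (hab : a ≠ b)
    (ha : l a + 6 ≤ u a) (hb : l b + 4 ≤ u b)
    (hsurj : ∀ x ∈ Box l u, Function.Surjective (t x)) (hS : Sys (Box l u) t)
    (h : ∀ g, l a ≤ g → g + 2 ≤ u a → PP l u t a g) :
    PP l u t b (l b) ∧ PP l u t b (u b - 2) := by
  -- the edges `{p, mv p b 1}`, `p = (c, d)` in the coordinates `(a, b)`
  have hp : ∀ c d : ℤ, l a ≤ c → c ≤ u a → l b ≤ d → d + 1 ≤ u b →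
      ∃ p ∈ Box l u, ∃ q ∈ Box l u, Adj p q ∧ p a = c ∧ q a = c ∧ p b = d ∧ q b = d + 1 := by
    intro c d h1 h2 h3 h4
    have hpm : Function.update (Function.update l a c) b d ∈ Box l u := by
      intro k
      have hk := hs k
      by_cases hkb : k = b
      · subst hkb
        rw [Function.update_self]
        omega
      · rw [Function.update_of_ne hkb]
        by_cases hka : k = a
        · subst hka
          rw [Function.update_self]
          omega
        · rw [Function.update_of_ne hka]
          omega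
    have e1 : Function.update (Function.update l a c) b d b = d := Function.update_self _ _ _
    have e2 : Function.update (Function.update l a c) b d a = c := by
      rw [Function.update_of_ne hab, Function.update_self]
    refine ⟨_, hpm, mv (Function.update (Function.update l a c) b d) b 1,
      mem_mv hpm (by rw [e1]; omega) (by rw [e1]; omega), adj_mv _ _, e2, ?_, e1, ?_⟩
    · rw [mv_ne _ hab, e2]
    · rw [mv_same, e1]
  constructor
  · -- the layer `l b`
    intro x hx y hy z hz w hw hxg hyg hzg hwg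
    have key : ∀ x ∈ Box l (Function.update u b (l b)), ∀ y ∈ Box l (Function.update u b (l b)),
        Adj x y → t x * (t z - t w) = t y * (t z - t w) := by
      intro x hx y hy hxy
      obtain ⟨hx, hxg⟩ := (mem_boxU (by omega)).1 hx
      obtain ⟨hy, hyg⟩ := (mem_boxU (by omega)).1 hy
      rw [← sub_eq_zero, ← sub_mul]
      have hco := hxy.coord a
      have hxa := hx a
      have hya := hy a
      have hxb := hx b
      have hyb := hy b
      refine move_up (t := t) hs hsurj hS (a := b) (g := l b) (g' := l b + 2) (by omega) (by omega)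
        (by omega) hx hy hxg hyg ?_ z hz w hw hzg hwg
      by_cases hM : x a + 2 ≤ u a ∧ y a + 2 ≤ u a
      · obtain ⟨p, hp, q, hq, hpq, p1, q1, p2, q2⟩ := hp (u a) (l b + 2) (by omega) le_rfl
          (by omega) (by omega)
        refine ⟨p, hp, q, hq, hpq, by omega, by omega, ?_⟩
        exact h (max (x a) (y a)) (by omega) (by omega) x hx y hy p hp q hq (by omega) (by omega)
          (by omega) (by omega)
      · obtain ⟨p, hp, q, hq, hpq, p1, q1, p2, q2⟩ := hp (l a) (l b + 2) (by omega) (by omega)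
          (by omega) (by omega)
        refine ⟨p, hp, q, hq, hpq, by omega, by omega, ?_⟩
        have k := h (l a) (by omega) (by omega) p hp q hq x hx y hy (by omega) (by omega)
          (by omega) (by omega)
        rw [diff_comm hS hx hy hp hq (far_of_le a (by omega)).symm (far_of_le a (by omega)).symm
          (far_of_le a (by omega)).symm (far_of_le a (by omega)).symm]
        exact k
    have h1 := box_connected (l := l) (u := Function.update u b (l b)) (fun x => t x * (t z - t w))
      key x ((mem_boxU (by omega)).2 ⟨hx, hxg⟩) y ((mem_boxU (by omega)).2 ⟨hy, hyg⟩)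
    rw [sub_mul, sub_eq_zero]
    exact h1
  · -- the layer `u b`
    intro x hx y hy z hz w hw hxg hyg hzg hwg
    have key : ∀ z ∈ Box (Function.update l b (u b)) u, ∀ w ∈ Box (Function.update l b (u b)) u,
        Adj z w → (t x - t y) * t z = (t x - t y) * t w := by
      intro z hz w hw hzw
      obtain ⟨hz, hzg⟩ := (mem_boxL (by omega)).1 hz
      obtain ⟨hw, hwg⟩ := (mem_boxL (by omega)).1 hw
      rw [← sub_eq_zero, ← mul_sub]
      have hco := hzw.coord a
      have hza := hz a
      have hwa := hw a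
      refine move_down (t := t) hs hsurj hS (a := b) (g := u b - 2) (g' := u b) (by omega)
        (by omega) (by omega) hz hw hzg hwg ?_ x hx y hy hxg hyg
      by_cases hM : z a + 2 ≤ u a ∧ w a + 2 ≤ u a
      · obtain ⟨p, hp, q, hq, hpq, p1, q1, p2, q2⟩ := hp (u a) (l b) (by omega) le_rfl
          (by omega) (by omega)
        refine ⟨p, hp, q, hq, hpq, by omega, by omega, ?_⟩
        have k := h (max (z a) (w a)) (by omega) (by omega) z hz w hw p hp q hq (by omega)
          (by omega) (by omega) (by omega)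
        rw [diff_comm hS hp hq hz hw (far_of_le a (by omega)).symm (far_of_le a (by omega)).symm
          (far_of_le a (by omega)).symm (far_of_le a (by omega)).symm]
        exact k
      · obtain ⟨p, hp, q, hq, hpq, p1, q1, p2, q2⟩ := hp (l a) (l b) (by omega) (by omega)
          (by omega) (by omega)
        refine ⟨p, hp, q, hq, hpq, by omega, by omega, ?_⟩
        exact h (l a) (by omega) (by omega) p hp q hq z hz w hw (by omega) (by omega)
          (by omega) (by omega)
    have h1 := box_connected (l := Function.update l b (u b)) (u := u) (fun z => (t x - t y) * t z)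
      key z ((mem_boxL (by omega)).2 ⟨hz, by omega⟩) w ((mem_boxL (by omega)).2 ⟨hw, by omega⟩)
    rw [mul_sub, sub_eq_zero]
    exact h1

end Pool.Agent.HypLow
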