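import Pool.Agent.Lib.HypQ.Move
import Pool.Agent.Lib.HypLow.Eig

/-! # The common eigenvalue, new version (page hyp70, section 4) -/

namespace Pool.Agent.HypLow

universe v

variable {n : ℕ} {K : Type*} {V : Type v} [Field K] [IsAlgClosed K] [AddCommGroup V] [Module K V]
  [FiniteDimensional K V]

/-- Section 4 of the page: the conclusion of `exists_mu` from the conditions `PP`. -/
theorem exists_mu2 {l u : Fin n → ℤ} (hs : ∀ c, l c + 2 ≤ u c) {a b : Fin n} (hab : a ≠ b)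
    (ha : l a + 6 ≤ u a) (hb : l b + 4 ≤ u b)
    {t : (Fin n → ℤ) → Module.End K V} (hinj : ∀ x ∈ Box l u, Function.Injective (t x))
    (hS : Sys (Box l u) t)
    (hirr : ∀ W : Submodule K V, (∀ x ∈ Box l u, ∀ w ∈ W, t x w ∈ W) → W = ⊥ ∨ W = ⊤)
    (hnf : ∃ x ∈ Box l u, ∃ y ∈ Box l u, t x ≠ t y)
    (hPa : ∀ g, l a ≤ g → g + 2 ≤ u a → PP l u t a g)
    (hPb : PP l u t b (l b)) (hPb' : PP l u t b (u b - 2)) :
    ∃ μ : K, μ ≠ 0 ∧
      (∀ x ∈ Box l u, ∀ y ∈ Box l u, l a + 2 ≤ x a → l a + 2 ≤ y a →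
        ∀ w, t x (t l w - μ • w) = t y (t l w - μ • w)) ∧
      (∀ x ∈ Box l u, ∀ y ∈ Box l u, x a ≤ u a - 2 → y a ≤ u a - 2 →
        ∀ w, t x (t (Function.update l a (u a)) w - μ • w) =
          t y (t (Function.update l a (u a)) w - μ • w)) :=
  exists_mu_sep hs hab ha hb hinj hS hirr hnf (fun g h1 h2 => hPa g h1 (by omega)) hPb hPb'

end Pool.Agent.HypLow
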