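import Pool.Agent.Lib.HypQ.NSub
import Pool.Agent.Lib.HypLow.RecA

/-! # `NX` is idempotent (page hyp70, (N2)) -/

namespace Pool.Agent.HypLow

universe v

variable {n : ℕ} {K : Type*} {V : Type v} [Field K] [AddCommGroup V] [Module K V]
  {t : (Fin n → ℤ) → Module.End K V}

/-- (N2): apply `ext_flat` to the quotient of `W` by `NX (NX W)` (`Sys.restrict`, `Sys.quot`) -/
theorem NX_idem [FiniteDimensional K V] {l u : Fin n → ℤ} (a : Fin n) (ha : l a + 4 ≤ u a)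
    (hinj : ∀ x ∈ Box l u, Function.Injective (t x)) (hS : Sys (Box l u) t)
    {W : Submodule K V} (hW : ∀ x ∈ Box l u, ∀ w ∈ W, t x w ∈ W) :
    NX (Box l u) t (NX (Box l u) t W) = NX (Box l u) t W := by
  classical
  obtain ⟨W1, hW1⟩ : ∃ W1, W1 = NX (Box l u) t W := ⟨_, rfl⟩
  obtain ⟨W2, hW2⟩ : ∃ W2, W2 = NX (Box l u) t W1 := ⟨_, rfl⟩
  have s1 : ∀ x ∈ Box l u, ∀ w ∈ W1, t x w ∈ W1 := by
    rw [hW1]; exact NX_stable a ha hS hW
  have s2 : ∀ x ∈ Box l u, ∀ w ∈ W2, t x w ∈ W2 := by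
    rw [hW2]; exact NX_stable a ha hS s1
  have h21 : W2 ≤ W1 := by
    rw [hW2]
    exact NX_le_iff.2 fun x hx y hy w hw => W1.sub_mem (s1 x hx w hw) (s1 y hy w hw)
  have h10 : W1 ≤ W := by
    rw [hW1]
    exact NX_le_iff.2 fun x hx y hy w hw => W.sub_mem (hW x hx w hw) (hW y hy w hw)
  rw [← hW1, ← hW2]
  refine le_antisymm h21 ?_
  -- the system on `W`
  obtain ⟨t1, ht1⟩ : ∃ t1 : (Fin n → ℤ) → Module.End K W,
      ∀ x ∈ Box l u, ∀ w : W, (t1 x w : V) = t x w := by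
    refine ⟨fun x => if h : x ∈ Box l u then (t x).restrict (hW x h) else 0, fun x hx w => ?_⟩
    dsimp only
    rw [dif_pos hx]
    rfl
  have hS1 : Sys (Box l u) t1 := by
    refine ⟨?_, ?_, ?_⟩
    · intro x hx y hy hxy
      refine LinearMap.ext fun w => Subtype.ext ?_
      have h := LinearMap.congr_fun (hS.comm x hx y hy hxy) (w : V)
      simp only [Module.End.mul_apply] at h ⊢
      rw [ht1 x hx, ht1 y hy, ht1 y hy, ht1 x hx, h]
    · intro x hx y hy hxy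
      refine LinearMap.ext fun w => Subtype.ext ?_
      have h := LinearMap.congr_fun (hS.braid x hx y hy hxy) (w : V)
      simp only [Module.End.mul_apply] at h ⊢
      rw [ht1 x hx, ht1 y hy, ht1 x hx, ht1 y hy, ht1 x hx, ht1 y hy, h]
    · intro x hx y hy z hz hxy hyz hxz
      refine LinearMap.ext fun w => Subtype.ext ?_
      have h := LinearMap.congr_fun (hS.tri x hx y hy z hz hxy hyz hxz) (w : V)
      simp only [Module.End.mul_apply] at h ⊢
      rw [ht1 x hx, ht1 y hy, ht1 z hz, ht1 x hx, ht1 y hy, ht1 z hz, ht1 x hx, ht1 y hy, h]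
  have hinj1 : ∀ x ∈ Box l u, Function.Injective (t1 x) := by
    intro x hx w w' h
    apply Subtype.ext
    apply hinj x hx
    rw [← ht1 x hx, ← ht1 x hx, h]
  -- the quotient
  obtain ⟨Q, hQ⟩ : ∃ Q : Submodule K W, ∀ w : W, w ∈ Q ↔ (w : V) ∈ W2 :=
    ⟨W2.comap W.subtype, fun w => Iff.rfl⟩
  obtain ⟨t2, hS2, hinj2, ht2⟩ := hS1.quot hinj1 Q fun x hx w hw => by
    rw [hQ, ht1 x hx]
    exact s2 x hx _ ((hQ w).1 hw)
  obtain ⟨P, hP⟩ : ∃ P : Submodule K (W ⧸ Q), P = (W1.comap W.subtype).map Q.mkQ := ⟨_, rfl⟩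
  have hflat := ext_flat a ha (fun x hx => LinearMap.injective_iff_surjective.1 (hinj2 x hx)) hS2 P
    (by
      intro x hx y hy q hq
      rw [hP] at hq
      obtain ⟨w, hw, rfl⟩ := hq
      rw [ht2 x hx, ht2 y hy, ← sub_eq_zero, ← map_sub]
      refine (Submodule.Quotient.mk_eq_zero Q).2 ((hQ _).2 ?_)
      rw [AddSubgroupClass.coe_sub, ht1 x hx, ht1 y hy, hW2]
      exact mem_NX hx hy hw)
    (by
      intro x hx y hy q
      obtain ⟨w, rfl⟩ := Submodule.mkQ_surjective Q q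
      rw [ht2 x hx, ht2 y hy, ← map_sub, hP]
      refine ⟨_, ?_, rfl⟩
      show ((t1 x w - t1 y w : W) : V) ∈ W1
      rw [AddSubgroupClass.coe_sub, ht1 x hx, ht1 y hy, hW1]
      exact mem_NX hx hy w.2)
  rw [hW1]
  refine NX_le_iff.2 fun x hx y hy w hw => ?_
  have h := LinearMap.congr_fun (hflat x hx y hy) (Q.mkQ ⟨w, hw⟩)
  rw [ht2 x hx, ht2 y hy, ← sub_eq_zero, ← map_sub] at h
  have h' := (hQ _).1 ((Submodule.Quotient.mk_eq_zero Q).1 h)
  rw [AddSubgroupClass.coe_sub, ht1 x hx, ht1 y hy] at h'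
  exact h'

end Pool.Agent.HypLow
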