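import Pool.Agent.Lib.HypLow.Ext
import Pool.Agent.Lib.HypLow.RecA

/-! # The operator `NX` on stable subspaces (page hyp70, section 1) -/

namespace Pool.Agent.HypLow

variable {n : ℕ} {K V : Type*} [Field K] [AddCommGroup V] [Module K V]
  {t : (Fin n → ℤ) → Module.End K V}

/-- the span of the `t u w - t v w`, `u, v ∈ X`, `w ∈ W` -/
def NX (X : Set (Fin n → ℤ)) (t : (Fin n → ℤ) → Module.End K V) (W : Submodule K V) :
    Submodule K V :=
  Submodule.span K {z | ∃ u ∈ X, ∃ v ∈ X, ∃ w ∈ W, z = t u w - t v w}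

theorem mem_NX {X : Set (Fin n → ℤ)} {W : Submodule K V} {u v : Fin n → ℤ} (hu : u ∈ X)
    (hv : v ∈ X) {w : V} (hw : w ∈ W) : t u w - t v w ∈ NX X t W :=
  Submodule.subset_span ⟨u, hu, v, hv, w, hw, rfl⟩

theorem NX_le_iff {X : Set (Fin n → ℤ)} {W W' : Submodule K V} :
    NX X t W ≤ W' ↔ ∀ u ∈ X, ∀ v ∈ X, ∀ w ∈ W, t u w - t v w ∈ W' := by
  constructor
  · intro h u hu v hv w hw
    exact h (mem_NX hu hv hw)
  · intro h
    refine Submodule.span_le.2 ?_
    rintro z ⟨u, hu, v, hv, w, hw, rfl⟩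
    exact h u hu v hv w hw

theorem NX_mono {X X' : Set (Fin n → ℤ)} (hX : X ⊆ X') {W W' : Submodule K V} (hW : W ≤ W') :
    NX X t W ≤ NX X' t W' :=
  NX_le_iff.2 fun _ hu _ hv _ hw => mem_NX (hX hu) (hX hv) (hW hw)

/-- it is enough to look at edges (`box_connected`) -/
theorem NX_le_of_edges {l u : Fin n → ℤ} {W W' : Submodule K V}
    (h : ∀ x ∈ Box l u, ∀ y ∈ Box l u, Adj x y → ∀ w ∈ W, t x w - t y w ∈ W') :
    NX (Box l u) t W ≤ W' := by
  refine NX_le_iff.2 fun x hx y hy w hw => ?_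
  have key := box_connected (l := l) (u := u) (fun x => W'.mkQ (t x w)) (fun x hx y hy hxy => by
    have := h x hx y hy hxy w hw
    simp only [Submodule.mkQ_apply]
    exact (Submodule.Quotient.eq W').2 this) x hx y hy
  simp only [Submodule.mkQ_apply] at key
  exact (Submodule.Quotient.eq W').1 key

/-- `T` commutes with the `t x`, `x ∈ X`, and maps `W` to `W'` -/
theorem NX_map {X : Set (Fin n → ℤ)} (T : Module.End K V) (hT : ∀ x ∈ X, T * t x = t x * T)
    {W W' : Submodule K V} (h : ∀ w ∈ W, T w ∈ W') : ∀ z ∈ NX X t W, T z ∈ NX X t W' := by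
  have hle : NX X t W ≤ (NX X t W').comap T := by
    refine NX_le_iff.2 fun u hu v hv w hw => ?_
    rw [Submodule.mem_comap, map_sub]
    have h1 : T (t u w) = t u (T w) := by
      rw [← Module.End.mul_apply, hT u hu, Module.End.mul_apply]
    have h2 : T (t v w) = t v (T w) := by
      rw [← Module.End.mul_apply, hT v hv, Module.End.mul_apply]
    rw [h1, h2]
    exact mem_NX hu hv (h w hw)
  exact fun z hz => hle hz

/-- (N1) -/
theorem NX_stable {l u : Fin n → ℤ} (a : Fin n) (ha : l a + 4 ≤ u a) (hS : Sys (Box l u) t)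
    {W : Submodule K V} (hW : ∀ x ∈ Box l u, ∀ w ∈ W, t x w ∈ W) :
    ∀ x ∈ Box l u, ∀ w ∈ NX (Box l u) t W, t x w ∈ NX (Box l u) t W := by
  intro x hx
  have hle : NX (Box l u) t W ≤ (NX (Box l u) t W).comap (t x) := by
    refine NX_le_of_edges fun y hy z hz hyz w hw => ?_
    rw [Submodule.mem_comap]
    obtain ⟨v, hv, hyv, hzv⟩ := far_vertex a ha hy hz hyz
    have h1 : t v (t y w) = t y (t v w) := by
      rw [← Module.End.mul_apply, ← hS.comm y hy v hv hyv, Module.End.mul_apply]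
    have h2 : t v (t z w) = t z (t v w) := by
      rw [← Module.End.mul_apply, ← hS.comm z hz v hv hzv, Module.End.mul_apply]
    have h3 : t x (t y w - t z w) =
        (t x (t y w - t z w) - t v (t y w - t z w)) + (t y (t v w) - t z (t v w)) := by
      rw [map_sub (t v), h1, h2]
      abel
    rw [h3]
    exact Submodule.add_mem _
      (mem_NX hx hv (Submodule.sub_mem _ (hW y hy w hw) (hW z hz w hw)))
      (mem_NX hy hz (hW v hv w hw))
  exact fun w hw => hle hw

private theorem NX_swap_le {X Y : Set (Fin n → ℤ)} (h : ∀ x ∈ X, ∀ y ∈ Y, t x * t y = t y * t x)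
    (W : Submodule K V) : NX X t (NX Y t W) ≤ NX Y t (NX X t W) := by
  refine NX_le_iff.2 fun u hu v hv w hw => ?_
  have hle : NX Y t W ≤ (NX Y t (NX X t W)).comap (t u - t v) := by
    refine NX_le_iff.2 fun a ha b hb w hw => ?_
    rw [Submodule.mem_comap, LinearMap.sub_apply]
    have e1 : ∀ x ∈ X, ∀ y ∈ Y, t x (t y w) = t y (t x w) := fun x hx y hy => by
      rw [← Module.End.mul_apply, h x hx y hy, Module.End.mul_apply]
    have h3 : t u (t a w - t b w) - t v (t a w - t b w) =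
        t a (t u w - t v w) - t b (t u w - t v w) := by
      simp only [map_sub]
      rw [e1 u hu a ha, e1 u hu b hb, e1 v hv a ha, e1 v hv b hb]
      abel
    rw [h3]
    exact mem_NX ha hb (mem_NX hu hv hw)
  have := hle hw
  rwa [Submodule.mem_comap, LinearMap.sub_apply] at this

/-- (N3) -/
theorem NX_swap {X Y : Set (Fin n → ℤ)} (h : ∀ x ∈ X, ∀ y ∈ Y, t x * t y = t y * t x)
    (W : Submodule K V) : NX X t (NX Y t W) = NX Y t (NX X t W) :=
  le_antisymm (NX_swap_le h W) (NX_swap_le (fun y hy x hx => (h x hx y hy).symm) W)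

theorem NX_union {X Y : Set (Fin n → ℤ)} (h : (X ∩ Y).Nonempty) (W : Submodule K V) :
    NX (X ∪ Y) t W = NX X t W ⊔ NX Y t W := by
  obtain ⟨c, hcX, hcY⟩ := h
  refine le_antisymm ?_ (sup_le (NX_mono Set.subset_union_left le_rfl)
    (NX_mono Set.subset_union_right le_rfl))
  have key : ∀ x ∈ X ∪ Y, ∀ w ∈ W, t x w - t c w ∈ NX X t W ⊔ NX Y t W := by
    intro x hx w hw
    rcases hx with hx | hx
    · exact Submodule.mem_sup_left (mem_NX hx hcX hw)
    · exact Submodule.mem_sup_right (mem_NX hx hcY hw)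
  refine NX_le_iff.2 fun u hu v hv w hw => ?_
  have h3 : t u w - t v w = (t u w - t c w) - (t v w - t c w) := by abel
  rw [h3]
  exact Submodule.sub_mem _ (key u hu w hw) (key v hv w hw)

/-- (N5) -/
theorem eq_stable {l u : Fin n → ℤ} (a : Fin n) (ha : l a + 4 ≤ u a) (hS : Sys (Box l u) t)
    {z : V} (hz : ∀ x ∈ Box l u, ∀ y ∈ Box l u, t x z = t y z) :
    ∀ w ∈ Box l u, ∀ x ∈ Box l u, ∀ y ∈ Box l u, t x (t w z) = t y (t w z) := by
  intro w hw
  refine box_connected (fun x => t x (t w z)) fun x hx y hy hxy => ?_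
  obtain ⟨v, hv, hxv, hyv⟩ := far_vertex a ha hx hy hxy
  have h1 : t x (t v z) = t v (t x z) := by
    rw [← Module.End.mul_apply, hS.comm x hx v hv hxv, Module.End.mul_apply]
  have h2 : t y (t v z) = t v (t y z) := by
    rw [← Module.End.mul_apply, hS.comm y hy v hv hyv, Module.End.mul_apply]
  change t x (t w z) = t y (t w z)
  rw [hz w hw v hv, h1, h2, hz x hx y hy]

end Pool.Agent.HypLow
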