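import Pool.Agent.Lib.HypQ.RecQ

/-! # The recursion, numerics (page hyp70, section 5) -/

namespace Pool.Agent.HypLow

universe v

variable {n : ℕ} {K : Type*} [Field K]

theorem NabS.mono {D : Fin n → ℕ} {k k' : ℕ} (h : NabS.{v} K D k) (hk : k' ≤ k) :
    NabS.{v} K D k' := by
  intro l u hlu V _ _ _ t hinj hS hr
  exact h l u hlu V t hinj hS (lt_of_lt_of_le hr hk)

theorem sum_half_update (D : Fin n → ℕ) (c : Fin n) (hc : 4 ≤ D c) :
    ∑ c', (Function.update D c (D c - 2) c' / 2 - 1) + 1 = ∑ c', (D c' / 2 - 1) := by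
  rw [← Finset.add_sum_erase _ _ (Finset.mem_univ c),
    ← Finset.add_sum_erase (a := c) _ (fun c' => D c' / 2 - 1) (Finset.mem_univ c),
    Function.update_self]
  have h : ∑ c' ∈ Finset.univ.erase c, (Function.update D c (D c - 2) c' / 2 - 1) =
      ∑ c' ∈ Finset.univ.erase c, (D c' / 2 - 1) :=
    Finset.sum_congr rfl fun c' hc' => by
      rw [Function.update_of_ne (Finset.ne_of_mem_erase hc')]
  rw [h]
  omega

theorem prod_le_update (D : Fin n → ℕ) (c : Fin n) (hc : 4 ≤ D c) :
    ∏ c', D c' ≤ 2 * ∏ c', Function.update D c (D c - 2) c' := by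
  rw [← Finset.mul_prod_erase _ (fun c' => Function.update D c (D c - 2) c') (Finset.mem_univ c),
    ← Finset.mul_prod_erase (a := c) _ D (Finset.mem_univ c), Function.update_self]
  have h : ∏ c' ∈ Finset.univ.erase c, Function.update D c (D c - 2) c' =
      ∏ c' ∈ Finset.univ.erase c, D c' :=
    Finset.prod_congr rfl fun c' hc' => by
      rw [Function.update_of_ne (Finset.ne_of_mem_erase hc')]
  rw [h, ← mul_assoc]
  exact Nat.mul_le_mul_right _ (by omega)

theorem nabS_pow2 [IsAlgClosed K] (m : ℕ) : ∀ D : Fin n → ℕ, (∀ c, 2 ≤ D c) →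
    ∀ a b : Fin n, a ≠ b → 6 ≤ D a → 4 ≤ D b → m + 1 ≤ ∑ c, (D c / 2 - 1) →
    NabS.{v} K D (min (2 ^ m) (∏ c, D c)) := by
  classical
  induction m with
  | zero =>
    intro D _ a b _ _ _ _
    exact (nabS_two D).mono (le_trans (min_le_left _ _) (by norm_num))
  | succ m ih =>
    intro D hD a b hab ha hb hsum
    by_cases hm : m ≤ 1
    · have h := nabS_step2.{v} (K := K) D hD hab ha hb a (p := D a - 2) (q := 0) (by omega)
        (nabS_two _) (nabS_two _)
      refine h.mono (min_le_min ?_ (le_refl _))
      calc 2 ^ (m + 1) ≤ 2 ^ 2 := Nat.pow_le_pow_right (by norm_num) (by omega)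
        _ = 2 * 2 := by norm_num
    · -- the reduced direction
      have step : ∀ c, 4 ≤ D c → (∀ c', 2 ≤ Function.update D c (D c - 2) c') →
          6 ≤ Function.update D c (D c - 2) a → 4 ≤ Function.update D c (D c - 2) b →
          NabS.{v} K D (min (2 ^ (m + 1)) (∏ c, D c)) := by
        intro c hc h2 ha' hb'
        have h1 := ih (Function.update D c (D c - 2)) h2 a b hab ha' hb' (by
          have := sum_half_update D c hc
          omega)
        have h := nabS_step2.{v} (K := K) D hD hab ha hb c (p := D c - 2) (q := 0) (by omega)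
          h1 (nabS_two _)
        refine h.mono (le_min ?_ (min_le_right _ _))
        have hp2 := prod_le_update D c hc
        rcases min_choice (2 ^ m) (∏ c', Function.update D c (D c - 2) c') with h3 | h3
        · rw [h3, ← pow_succ]
          exact min_le_left _ _
        · rw [h3, mul_comm]
          exact (min_le_right _ _).trans hp2
      by_cases h8 : 8 ≤ D a
      · refine step a (by omega) (fun c' => ?_) ?_ ?_
        · by_cases h : c' = a
          · rw [h, Function.update_self]; omega
          · rw [Function.update_of_ne h]; exact hD c'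
        · rw [Function.update_self]; omega
        · rw [Function.update_of_ne hab.symm]; exact hb
      · by_cases h6 : 6 ≤ D b
        · refine step b (by omega) (fun c' => ?_) ?_ ?_
          · by_cases h : c' = b
            · rw [h, Function.update_self]; omega
            · rw [Function.update_of_ne h]; exact hD c'
          · rw [Function.update_of_ne hab]; exact ha
          · rw [Function.update_self]; omega
        · by_cases h4 : ∃ c, c ≠ a ∧ c ≠ b ∧ 4 ≤ D c
          · obtain ⟨c, hca, hcb, hc⟩ := h4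
            refine step c hc (fun c' => ?_) ?_ ?_
            · by_cases h : c' = c
              · rw [h, Function.update_self]; omega
              · rw [Function.update_of_ne h]; exact hD c'
            · rw [Function.update_of_ne hca.symm]; exact ha
            · rw [Function.update_of_ne hcb.symm]; exact hb
          · exfalso
            have hz : ∑ c, (D c / 2 - 1) ≤ ∑ c, ((if c = a then 2 else 0) + if c = b then 1 else 0) := by
              refine Finset.sum_le_sum fun c _ => ?_
              by_cases h1 : c = a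
              · rw [h1, if_pos rfl, if_neg hab]; omega
              · by_cases h2 : c = b
                · rw [h2, if_pos rfl, if_neg hab.symm]; omega
                · have h3 : ¬ 4 ≤ D c := fun h => h4 ⟨c, h1, h2, h⟩
                  rw [if_neg h1, if_neg h2]; omega
            rw [Finset.sum_add_distrib, Finset.sum_ite_eq' Finset.univ a,
              Finset.sum_ite_eq' Finset.univ b, if_pos (Finset.mem_univ a),
              if_pos (Finset.mem_univ b)] at hz
            omega

theorem pow_aux1 (x : ℕ) : 2 * (x + 2) + 1 ≤ 5 * 2 ^ x := by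
  induction x with
  | zero => norm_num
  | succ x ih => rw [pow_succ]; omega

theorem pow_aux2 (y : ℕ) : 2 * (y + 8) + 1 ≤ 17 * 2 ^ y := by
  induction y with
  | zero => norm_num
  | succ y ih => rw [pow_succ]; omega

theorem slab_aux {N p : ℕ} (hN : 16 ≤ N) (hp : 4 ≤ p) (j : ℕ) :
    p * N ^ (j + 1) ≤ 2 ^ (p / 2 - 1 + (j + 1) * (N / 2 - 1) - 1) := by
  induction j with
  | zero =>
    obtain ⟨x, hx⟩ : ∃ x, p / 2 = x + 2 := ⟨p / 2 - 2, by omega⟩
    obtain ⟨y, hy⟩ : ∃ y, N / 2 = y + 8 := ⟨N / 2 - 8, by omega⟩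
    have h1 : p ≤ 5 * 2 ^ x := le_trans (by omega) (pow_aux1 x)
    have h2 : N ≤ 17 * 2 ^ y := le_trans (by omega) (pow_aux2 y)
    have h3 : p / 2 - 1 + (0 + 1) * (N / 2 - 1) - 1 = 7 + x + y := by omega
    rw [h3, zero_add, pow_one]
    calc p * N ≤ (5 * 2 ^ x) * (17 * 2 ^ y) := Nat.mul_le_mul h1 h2
      _ = 85 * (2 ^ x * 2 ^ y) := by ring
      _ ≤ 128 * (2 ^ x * 2 ^ y) := Nat.mul_le_mul_right _ (by norm_num)
      _ = 2 ^ (7 + x + y) := by rw [pow_add, pow_add]; ring
  | succ j ih =>
    obtain ⟨y, hy⟩ : ∃ y, N / 2 = y + 8 := ⟨N / 2 - 8, by omega⟩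
    have h2 : N ≤ 17 * 2 ^ y := le_trans (by omega) (pow_aux2 y)
    have h4 : N ≤ 2 ^ (N / 2 - 1) := by
      have h5 : N / 2 - 1 = 7 + y := by omega
      rw [h5, pow_add]
      exact h2.trans (Nat.mul_le_mul_right _ (by norm_num))
    have h6 : p / 2 - 1 + (j + 1 + 1) * (N / 2 - 1) - 1 =
        (p / 2 - 1 + (j + 1) * (N / 2 - 1) - 1) + (N / 2 - 1) := by
      have h7 : (j + 1 + 1) * (N / 2 - 1) = (j + 1) * (N / 2 - 1) + (N / 2 - 1) := by ring
      rw [h7]
      omega
    rw [h6]
    calc p * N ^ (j + 1 + 1) = p * N ^ (j + 1) * N := by rw [pow_succ N (j + 1), ← mul_assoc]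
      _ ≤ 2 ^ (p / 2 - 1 + (j + 1) * (N / 2 - 1) - 1) * 2 ^ (N / 2 - 1) := Nat.mul_le_mul ih h4
      _ = _ := (pow_add _ _ _).symm

/-- the slabs -/
theorem nabS_slab [IsAlgClosed K] (hn : 2 ≤ n) {N p : ℕ} (hN : 16 ≤ N) (hp : 4 ≤ p)
    (a : Fin n) :
    NabS.{v} K (Function.update (fun _ => N) a p) (p * N ^ (n - 1)) := by
  classical
  obtain ⟨a', ha'⟩ : ∃ a' : Fin n, a' ≠ a := by
    by_cases h : a.val = 0
    · exact ⟨⟨1, by omega⟩, fun h' => by rw [← h'] at h; exact absurd h (by norm_num)⟩
    · exact ⟨⟨0, by omega⟩, fun h' => h (by rw [← h'])⟩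
  have hsum : ∑ c, (Function.update (fun _ : Fin n => N) a p c / 2 - 1) =
      (p / 2 - 1) + (n - 1) * (N / 2 - 1) := by
    rw [← Finset.add_sum_erase _ _ (Finset.mem_univ a), Function.update_self]
    congr 1
    rw [Finset.sum_congr rfl (g := fun _ => N / 2 - 1) (fun c hc => by
      rw [Function.update_of_ne (Finset.ne_of_mem_erase hc)]), Finset.sum_const,
      Finset.card_erase_of_mem (Finset.mem_univ a), Finset.card_univ, Fintype.card_fin,
      smul_eq_mul]
  have hprod : ∏ c, Function.update (fun _ : Fin n => N) a p c = p * N ^ (n - 1) := by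
    rw [← Finset.mul_prod_erase _ _ (Finset.mem_univ a), Function.update_self]
    congr 1
    rw [Finset.prod_congr rfl (g := fun _ => N) (fun c hc => by
      rw [Function.update_of_ne (Finset.ne_of_mem_erase hc)]), Finset.prod_const,
      Finset.card_erase_of_mem (Finset.mem_univ a), Finset.card_univ, Fintype.card_fin]
  have h := nabS_pow2.{v} (K := K) (p / 2 - 1 + (n - 1) * (N / 2 - 1) - 1)
    (Function.update (fun _ : Fin n => N) a p) (fun c => by
      by_cases h : c = a
      · rw [h, Function.update_self]; omega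
      · rw [Function.update_of_ne h]; omega) a' a ha'
    (by rw [Function.update_of_ne ha']; omega) (by rw [Function.update_self]; omega)
    (by rw [hsum]; omega)
  rw [hprod] at h
  refine h.mono (le_min ?_ (le_refl _))
  obtain ⟨j, rfl⟩ : ∃ j, n = j + 2 := ⟨n - 2, by omega⟩
  exact slab_aux hN hp j

end Pool.Agent.HypLow
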