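import Pool.Agent.Lib.HypQ.MixDim

/-! # The rank of `t x - ν` on a system with a nonzero product -/

namespace Pool.Agent.HypLow

universe v

section iso

variable {K V : Type*} [Field K] [AddCommGroup V] [Module K V]

theorem exists_min_sub [FiniteDimensional K V] (p : Submodule K V → Prop) (N : Submodule K V)
    (hN : N ≠ ⊥) (hp : p N) :
    ∃ M ≤ N, M ≠ ⊥ ∧ p M ∧ ∀ M' ≤ M, p M' → M' = ⊥ ∨ M' = M := by
  have wf : WellFounded (fun a b : Submodule K V => a < b) := wellFounded_lt
  have hne : ({M | M ≤ N ∧ M ≠ ⊥ ∧ p M} : Set (Submodule K V)).Nonempty :=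
    ⟨N, le_refl _, hN, hp⟩
  have h1 := wf.min_mem _ hne
  refine ⟨wf.min _ hne, h1.1, h1.2.1, h1.2.2, ?_⟩
  intro M' hM' hpM'
  by_cases hb : M' = ⊥
  · exact Or.inl hb
  · refine Or.inr ?_
    by_contra hne'
    exact wf.not_lt_min {M | M ≤ N ∧ M ≠ ⊥ ∧ p M} (x := M')
      ⟨hM'.trans h1.1, hb, hpM'⟩ (lt_of_le_of_ne hM' hne')

/-- as `exists_iso`, with `U` minimal; if `S ∈ A` is not the scalar `ν` on `U` then the rank of
`S - ν` is at least the dimension of `H`: for `z1 = S z - ν z ≠ 0` the map `φ ↦ φ z1` is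
injective, with values in the image of `S - ν`. -/
theorem exists_iso_rank [FiniteDimensional K V] [Nontrivial V]
    (A B : Set (Module.End K V)) (hAB : ∀ S ∈ A, ∀ T ∈ B, S * T = T * S)
    (hirr : ∀ W : Submodule K V, (∀ S ∈ A, ∀ w ∈ W, S w ∈ W) → (∀ T ∈ B, ∀ w ∈ W, T w ∈ W) →
      W = ⊥ ∨ W = ⊤) :
    ∃ (U : Submodule K V) (H : Submodule K (U →ₗ[K] V)), (∀ S ∈ A, ∀ z ∈ U, S z ∈ U) ∧
      (∀ φ ∈ H, ∀ S ∈ A, ∀ z z' : U, (z' : V) = S z → φ z' = S (φ z)) ∧
      (∀ φ ∈ H, ∀ T ∈ B, T ∘ₗ φ ∈ H) ∧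
      (∀ P : Module.End K V, (∀ φ ∈ H, P ∘ₗ φ = 0) → P = 0) ∧
      ∀ S ∈ A, ∀ ν : K, (∃ z ∈ U, S z ≠ ν • z) →
        Module.finrank K H ≤ Module.finrank K (LinearMap.range (S - ν • (1 : Module.End K V))) := by
  obtain ⟨U, -, hU, hst, hmin⟩ := exists_min_sub (K := K) (fun M : Submodule K V =>
    ∀ S ∈ A, ∀ z ∈ M, S z ∈ M) ⊤ top_ne_bot (fun S _ z _ => Submodule.mem_top)
  let H : Submodule K (U →ₗ[K] V) :=
    { carrier := {φ | ∀ S ∈ A, ∀ z z' : U, (z' : V) = S z → φ z' = S (φ z)}
      add_mem' := by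
        intro φ ψ hφ hψ S hS z z' h
        rw [LinearMap.add_apply, LinearMap.add_apply, map_add, hφ S hS z z' h, hψ S hS z z' h]
      zero_mem' := by
        intro S _ z z' _
        rw [LinearMap.zero_apply, LinearMap.zero_apply, map_zero]
      smul_mem' := by
        intro c φ hφ S hS z z' h
        rw [LinearMap.smul_apply, LinearMap.smul_apply, map_smul, hφ S hS z z' h] }
  have hHm : ∀ φ : U →ₗ[K] V, φ ∈ H ↔
      ∀ S ∈ A, ∀ z z' : U, (z' : V) = S z → φ z' = S (φ z) := fun _ => Iff.rfl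
  have hHB : ∀ φ ∈ H, ∀ T ∈ B, T ∘ₗ φ ∈ H := by
    intro φ hφ T hT S hS z z' h
    rw [LinearMap.comp_apply, LinearMap.comp_apply, (hHm φ).1 hφ S hS z z' h]
    have := congrArg (fun f : Module.End K V => f (φ z)) (hAB S hS T hT)
    exact this.symm
  refine ⟨U, H, hst, fun φ hφ => (hHm φ).1 hφ, hHB, ?_, ?_⟩
  · intro P hP
    have hsub : U.subtype ∈ H := fun S hS z z' h => h
    let W : Submodule K V := ⨆ φ : H, LinearMap.range (φ : U →ₗ[K] V)
    have hWle : ∀ φ ∈ H, LinearMap.range φ ≤ W := fun φ hφ =>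
      le_iSup (fun φ : H => LinearMap.range (φ : U →ₗ[K] V)) ⟨φ, hφ⟩
    have hW : W = ⊤ := by
      have h1 : ∀ S ∈ A, ∀ w ∈ W, S w ∈ W := by
        intro S hS
        have : W ≤ W.comap S := by
          refine iSup_le ?_
          rintro ⟨φ, hφ⟩ _ ⟨z, rfl⟩
          refine hWle φ hφ ⟨⟨S z, hst S hS z z.2⟩, ?_⟩
          exact (hHm φ).1 hφ S hS z _ rfl
        exact fun w hw => this hw
      have h2 : ∀ T ∈ B, ∀ w ∈ W, T w ∈ W := by
        intro T hT
        have : W ≤ W.comap T := by
          refine iSup_le ?_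
          rintro ⟨φ, hφ⟩ _ ⟨z, rfl⟩
          exact hWle (T ∘ₗ φ) (hHB φ hφ T hT) ⟨z, rfl⟩
        exact fun w hw => this hw
      rcases hirr W h1 h2 with h | h
      · exfalso
        refine hU ?_
        rw [eq_bot_iff, ← h]
        have := hWle U.subtype hsub
        rwa [Submodule.range_subtype] at this
      · exact h
    have hker : W ≤ LinearMap.ker P := by
      refine iSup_le ?_
      rintro ⟨φ, hφ⟩ _ ⟨z, rfl⟩
      have := congrArg (fun f : U →ₗ[K] V => f z) (hP φ hφ)
      exact this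
    rw [hW] at hker
    refine LinearMap.ext fun v => ?_
    exact hker (Submodule.mem_top (x := v))
  · rintro S hS ν ⟨z, hz, hne⟩
    let zu : U := ⟨z, hz⟩
    let z1 : U := ⟨S z, hst S hS z hz⟩ - ν • zu
    have hz1 : z1 ≠ 0 := by
      intro h
      apply hne
      have h1 : (z1 : V) = 0 := by rw [h]; rfl
      have h2 : (z1 : V) = S z - ν • z := rfl
      rw [h2] at h1
      exact sub_eq_zero.1 h1
    have hval : ∀ φ ∈ H, φ z1 = (S - ν • (1 : Module.End K V)) (φ zu) := by
      intro φ hφ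
      have h1 : φ ⟨S z, hst S hS z hz⟩ = S (φ zu) := (hHm φ).1 hφ S hS zu _ rfl
      show φ (⟨S z, hst S hS z hz⟩ - ν • zu) = S (φ zu) - ν • φ zu
      rw [map_sub, map_smul, h1]
    let g : H →ₗ[K] LinearMap.range (S - ν • (1 : Module.End K V)) :=
      { toFun := fun φ => ⟨(φ : U →ₗ[K] V) z1, ⟨_, (hval φ φ.2).symm⟩⟩
        map_add' := fun φ ψ => rfl
        map_smul' := fun c φ => rfl }
    have hginj : Function.Injective g := by
      rw [← LinearMap.ker_eq_bot, eq_bot_iff]
      intro φ hφ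
      rw [Submodule.mem_bot]
      have h1 : (φ : U →ₗ[K] V) z1 = 0 := congrArg Subtype.val hφ
      have h2 := hmin ((LinearMap.ker (φ : U →ₗ[K] V)).map U.subtype)
        (Submodule.map_subtype_le _ _) (by
          rintro S' hS' _ ⟨y, hy, rfl⟩
          refine ⟨⟨S' y, hst S' hS' y y.2⟩, ?_, rfl⟩
          have h3 : (φ : U →ₗ[K] V) ⟨S' y, hst S' hS' y y.2⟩ = S' ((φ : U →ₗ[K] V) y) :=
            (hHm _).1 φ.2 S' hS' y _ rfl
          have h4 : (φ : U →ₗ[K] V) y = 0 := hy
          show (φ : U →ₗ[K] V) ⟨S' y, hst S' hS' y y.2⟩ = 0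
          rw [h3, h4, map_zero])
      rcases h2 with h2 | h2
      · exfalso
        have h3 : (z1 : V) ∈ (LinearMap.ker (φ : U →ₗ[K] V)).map U.subtype := ⟨z1, h1, rfl⟩
        rw [h2, Submodule.mem_bot] at h3
        exact hz1 (Subtype.ext h3)
      · apply Subtype.ext
        refine LinearMap.ext fun y => ?_
        have h3 : (y : V) ∈ (LinearMap.ker (φ : U →ₗ[K] V)).map U.subtype := by
          rw [h2]
          exact y.2
        obtain ⟨y', hy', hyy⟩ := h3
        have h4 : y' = y := Subtype.ext hyy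
        rw [← h4]
        exact hy'
    exact LinearMap.finrank_le_finrank_of_injective hginj

end iso

variable {n : ℕ} {K : Type*} [Field K]

/-- if `t x` is the scalar `ν` on the stable subspace `U` then the system is flat on `U` -/
theorem flat_of_scalar {V : Type*} [AddCommGroup V] [Module K V] {l u : Fin n → ℤ}
    {t : (Fin n → ℤ) → Module.End K V} (hS : Sys (Box l u) t)
    (hinj : ∀ x ∈ Box l u, Function.Injective (t x)) {U : Submodule K V}
    (hU : ∀ x ∈ Box l u, ∀ z ∈ U, t x z ∈ U) {x : Fin n → ℤ} (hx : x ∈ Box l u) {ν : K}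
    (h : ∀ z ∈ U, t x z = ν • z) : ∀ y ∈ Box l u, ∀ z ∈ U, t y z = ν • z := by
  have key : ∀ v ∈ Box l u, ∀ w ∈ Box l u, Adj v w → (∀ z ∈ U, t v z = ν • z) →
      ∀ z ∈ U, t w z = ν • z := by
    intro v hv w hw hvw h1 z hz
    have h2 := LinearMap.congr_fun (hS.braid v hv w hw hvw) z
    simp only [Module.End.mul_apply] at h2
    rw [h1 z hz, map_smul, map_smul, h1 _ (hU w hw z hz), map_smul] at h2
    by_cases hν : ν = 0
    · have h3 : t v z = t v 0 := by rw [h1 z hz, hν, zero_smul, map_zero]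
      have h4 : z = 0 := hinj v hv h3
      rw [h4, map_zero, smul_zero]
    · have h3 : ν • t w z = t w (t w z) := smul_right_injective V hν h2
      rw [← map_smul] at h3
      exact (hinj w hw h3).symm
  intro y hy
  have h5 := box_connected (l := l) (u := u) (fun v => ∀ z ∈ U, t v z = ν • z)
    (fun v hv w hw hvw => propext ⟨key v hv w hw hvw, key w hw v hv hvw.symm⟩) x hx y hy
  exact h5 ▸ h

/-- (T2') If some product of differences, one for each box of the list `b :: L`, is not zero, then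
the rank of `t x - ν`, for `x` in the box `b` and every scalar `ν`, is at least the product of the
numbers `k c`, `c ∈ L`, where all systems of dimension `< k c` on the box `c` are flat. -/
theorem mix_rank [IsAlgClosed K] (k : (Fin n → ℤ) × (Fin n → ℤ) → ℕ)
    (b : (Fin n → ℤ) × (Fin n → ℤ)) (L : List ((Fin n → ℤ) × (Fin n → ℤ)))
    (hL : Boxes (b :: L)) (hN : ∀ c ∈ L, Nab.{v} K c.1 c.2 (k c)) {x : Fin n → ℤ}
    (hx : x ∈ Box b.1 b.2) (ν : K) :
    ∀ (V : Type v) [AddCommGroup V] [Module K V] [FiniteDimensional K V]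
      (t : (Fin n → ℤ) → Module.End K V), (∀ x ∈ un (b :: L), Function.Injective (t x)) →
      Sys (un (b :: L)) t → ∀ P, Mix t (sets (b :: L)) P → P ≠ 0 →
      (L.map k).prod ≤ Module.finrank K (LinearMap.range (t x - ν • (1 : Module.End K V))) := by
  suffices hs : ∀ (N : ℕ) (V : Type v) [AddCommGroup V] [Module K V] [FiniteDimensional K V]
      (t : (Fin n → ℤ) → Module.End K V), Module.finrank K V ≤ N →
      (∀ x ∈ un (b :: L), Function.Injective (t x)) →
      Sys (un (b :: L)) t → ∀ P, Mix t (sets (b :: L)) P → P ≠ 0 →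
      (L.map k).prod ≤ Module.finrank K (LinearMap.range (t x - ν • (1 : Module.End K V))) by
    intro V _ _ _ t h1 h2 P h3 h4
    exact hs _ V t le_rfl h1 h2 P h3 h4
  intro N
  induction N with
  | zero =>
    intro V _ _ _ t hN0 _ _ P hP hP0
    exfalso
    have h1 : Subsingleton V := Module.finrank_zero_iff.1 (Nat.le_zero.1 hN0)
    exact hP0 (LinearMap.ext fun z => Subsingleton.elim _ _)
  | succ N ihN =>
    intro V _ _ _ t hVN hinj hS P hP hP0
    have hnt : Nontrivial V := by
      by_contra h2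
      rw [not_nontrivial_iff_subsingleton] at h2
      exact hP0 (LinearMap.ext fun z => Subsingleton.elim _ _)
    have hxu : x ∈ un (b :: L) := ⟨b, List.mem_cons_self, hx⟩
    by_cases hirr : ∀ W : Submodule K V, (∀ x ∈ un (b :: L), ∀ w ∈ W, t x w ∈ W) →
        W = ⊥ ∨ W = ⊤
    · -- irreducible
      have hb : ∀ x ∈ Box b.1 b.2, x ∈ un (b :: L) := fun x hx => ⟨b, List.mem_cons_self, hx⟩
      have hLu : ∀ x ∈ un L, x ∈ un (b :: L) := by
        rintro x ⟨c, hc, hx⟩
        exact ⟨c, List.mem_cons_of_mem _ hc, hx⟩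
      obtain ⟨U, H, hUst, hHeq, hHst, hH0, hrank⟩ := exists_iso_rank (K := K) (V := V)
        {S | ∃ x ∈ Box b.1 b.2, S = t x} {T | ∃ x ∈ un L, T = t x} (by
          rintro S ⟨x, hx, rfl⟩ T ⟨y, ⟨c, hc, hy⟩, rfl⟩
          exact hS.comm x (hb x hx) y (hLu y ⟨c, hc, hy⟩)
            ((List.pairwise_cons.1 hL.far).1 c hc x hx y hy)) (by
          intro W h1 h2
          refine hirr W ?_
          rintro y ⟨c, hc, hy⟩ w hw
          rcases List.mem_cons.1 hc with hc | hc
          · rw [hc] at hy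
            exact h1 (t y) ⟨y, hy, rfl⟩ w hw
          · exact h2 (t y) ⟨y, ⟨c, hc, hy⟩, rfl⟩ w hw)
      obtain ⟨u, hu, v, hv, Q, hQ, hPQ⟩ := hP
      have hex : ∃ z ∈ U, t x z ≠ ν • z := by
        by_contra hcon
        push Not at hcon
        have hflat := flat_of_scalar (hS.mono (fun x hx => hb x hx))
          (fun x hx => hinj x (hb x hx)) (fun x hx w hw => hUst (t x) ⟨x, hx, rfl⟩ w hw) hx hcon
        have h1 : t u - t v = 0 := by
          refine hH0 (t u - t v) ?_
          intro φ hφ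
          refine LinearMap.ext fun z => ?_
          show t u (φ z) - t v (φ z) = 0
          have h2 := hHeq φ hφ (t u) ⟨u, hu, rfl⟩ z ⟨t u z, hUst (t u) ⟨u, hu, rfl⟩ z z.2⟩ rfl
          have h3 := hHeq φ hφ (t v) ⟨v, hv, rfl⟩ z ⟨t v z, hUst (t v) ⟨v, hv, rfl⟩ z z.2⟩ rfl
          rw [← h2, ← h3, ← map_sub]
          have h4 : ((⟨t u z, hUst (t u) ⟨u, hu, rfl⟩ z z.2⟩ : U) -
              ⟨t v z, hUst (t v) ⟨v, hv, rfl⟩ z z.2⟩) = 0 := by
            apply Subtype.ext
            show t u (z : V) - t v (z : V) = 0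
            rw [hflat u hu z z.2, hflat v hv z z.2, sub_self]
          rw [h4, map_zero]
        exact hP0 (by rw [hPQ, h1, zero_mul])
      obtain ⟨t', hS', hinj', key⟩ := mixDim_sys (hS.mono hLu) (fun x hx => hinj x (hLu x hx))
        (H := H) (fun φ hφ x hx => hHst φ hφ (t x) ⟨x, hx, rfl⟩)
      obtain ⟨Q', hQ', hQQ⟩ := mixDim_comp key hQ
      have hQ0 : Q' ≠ 0 := by
        intro h0
        have h1 : Q = 0 := by
          refine hH0 Q ?_
          intro φ hφ
          have h2 := hQQ ⟨φ, hφ⟩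
          rw [h0] at h2
          exact h2.symm
        exact hP0 (by rw [hPQ, h1, mul_zero])
      exact (mix_dim k L (mixDim_boxes_tail hL) hN H t' hinj' hS' Q' hQ' hQ0).trans
        (hrank (t x) ⟨x, hx, rfl⟩ ν hex)
    · push Not at hirr
      obtain ⟨W, hW, hW0, hW1⟩ := hirr
      by_cases h1 : ∀ P, Mix t (sets (b :: L)) P → ∀ w ∈ W, P w = 0
      · by_cases h2 : ∀ P, Mix t (sets (b :: L)) P → ∀ w, P w ∈ W
        · exact absurd (mix_ext hL hinj hS hW h1 h2 P hP) hP0
        · push Not at h2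
          obtain ⟨P₁, hP₁, w, hw⟩ := h2
          obtain ⟨t', hS', hinj', key⟩ := hS.quot hinj W hW
          obtain ⟨P', hP', hPP⟩ := mixDim_quot key hP₁
          have hlt : Module.finrank K (V ⧸ W) + Module.finrank K W = Module.finrank K V :=
            Submodule.finrank_quotient_add_finrank W
          have hpos : 0 < Module.finrank K W := by
            rw [Nat.pos_iff_ne_zero]
            intro h0
            exact hW0 (Submodule.finrank_eq_zero.1 h0)
          have h3 := ihN (V ⧸ W) t' (by omega) hinj' hS' P' hP' (by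
            intro h0
            apply hw
            have h4 := hPP w
            rw [h0] at h4
            exact (Submodule.Quotient.mk_eq_zero W).1 h4.symm)
          refine h3.trans ?_
          have h5 : LinearMap.range (t' x - ν • (1 : Module.End K (V ⧸ W))) ≤
              (LinearMap.range (t x - ν • (1 : Module.End K V))).map W.mkQ := by
            rintro _ ⟨y, rfl⟩
            obtain ⟨w', rfl⟩ := W.mkQ_surjective y
            refine ⟨(t x - ν • (1 : Module.End K V)) w', ⟨w', rfl⟩, ?_⟩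
            show W.mkQ (t x w' - ν • w') = t' x (W.mkQ w') - ν • W.mkQ w'
            rw [key x hxu, map_sub, map_smul]
          exact (Submodule.finrank_mono h5).trans (Submodule.finrank_map_le _ _)
      · push Not at h1
        obtain ⟨P₁, hP₁, w, hw, hPw⟩ := h1
        obtain ⟨t', hS', key⟩ := hS.restrict W hW
        obtain ⟨P', hP', hPP⟩ := mixDim_restrict key hP₁
        have hlt : Module.finrank K W < Module.finrank K V :=
          Submodule.finrank_lt hW1
        have h3 := ihN W t' (by omega) (by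
          intro x hx a a' h
          apply Subtype.ext
          apply hinj x hx
          rw [← key x hx, ← key x hx, h]) hS' P' hP' (by
            intro h0
            apply hPw
            have h4 := hPP ⟨w, hw⟩
            rw [h0] at h4
            exact h4.symm)
        refine h3.trans ?_
        have h5 : (LinearMap.range (t' x - ν • (1 : Module.End K W))).map W.subtype ≤
            LinearMap.range (t x - ν • (1 : Module.End K V)) := by
          rintro _ ⟨_, ⟨y, rfl⟩, rfl⟩
          refine ⟨(y : V), ?_⟩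
          show t x (y : V) - ν • (y : V) = ((t' x y - ν • y : W) : V)
          rw [Submodule.coe_sub, key x hxu, Submodule.coe_smul]
        have h6 := Submodule.finrank_mono h5
        rwa [Submodule.finrank_map_subtype_eq] at h6

end Pool.Agent.HypLow
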