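import Pool.Agent.Lib.HypQ.MainQ
import Pool.Agent.Lib.HypQ.MixDim
import Pool.Agent.Lib.HypLow.RecA

/-! # The recursion, new version (page hyp70, section 5) -/

namespace Pool.Agent.HypLow

universe v

variable {n : ℕ} {K : Type*} [Field K]

/-- two slabs: if the dimension is small then the corner condition holds -/
theorem corner_of_dim [IsAlgClosed K] {V : Type v} [AddCommGroup V] [Module K V]
    [FiniteDimensional K V] {l u : Fin n → ℤ} (hs : ∀ c, l c + 2 ≤ u c) {a b : Fin n}
    (hab : a ≠ b) (ha : l a + 6 ≤ u a) (hb : l b + 4 ≤ u b) (c : Fin n) {p q : ℕ}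
    (hpq : u c = l c + (p + q + 2 : ℕ)) {k1 k2 : ℕ}
    (h1 : Nab.{v} K l (Function.update u c (l c + p)) k1)
    (h2 : Nab.{v} K (Function.update l c (l c + p + 2)) u k2)
    {t : (Fin n → ℤ) → Module.End K V} (hinj : ∀ x ∈ Box l u, Function.Injective (t x))
    (hS : Sys (Box l u) t) (hr : Module.finrank K V < k1 * k2) :
    ∃ i, Corner l u t i := by
  classical
  push_cast at hpq
  have hX : ∀ x, x ∈ Box l (Function.update u c (l c + p)) ↔ x ∈ Box l u ∧ x c ≤ l c + p := by
    intro x
    constructor
    · intro h
      have g2 := h c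
      rw [Function.update_self] at g2
      refine ⟨fun c' => ?_, g2.2⟩
      by_cases hc : c' = c
      · rw [hc]; constructor <;> omega
      · have g1 := h c'
        rw [Function.update_of_ne hc] at g1
        exact g1
    · rintro ⟨g1, g2⟩ c'
      by_cases hc : c' = c
      · rw [hc, Function.update_self]
        exact ⟨(g1 c).1, g2⟩
      · rw [Function.update_of_ne hc]
        exact g1 c'
  have hY : ∀ x, x ∈ Box (Function.update l c (l c + p + 2)) u ↔
      x ∈ Box l u ∧ l c + p + 2 ≤ x c := by
    intro x
    constructor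
    · intro h
      have g2 := h c
      rw [Function.update_self] at g2
      refine ⟨fun c' => ?_, g2.1⟩
      by_cases hc : c' = c
      · rw [hc]; constructor <;> omega
      · have g1 := h c'
        rw [Function.update_of_ne hc] at g1
        exact g1
    · rintro ⟨g1, g2⟩ c'
      by_cases hc : c' = c
      · rw [hc, Function.update_self]
        exact ⟨g2, (g1 c).2⟩
      · rw [Function.update_of_ne hc]
        exact g1 c'
  -- a good direction different from `c`
  obtain ⟨i, hic, hi⟩ : ∃ i, i ≠ c ∧ l i + 4 ≤ u i := by
    by_cases h : a = c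
    · exact ⟨b, fun h' => hab (h.trans h'.symm), hb⟩
    · exact ⟨a, h, by omega⟩
  set X : (Fin n → ℤ) × (Fin n → ℤ) := (l, Function.update u c (l c + p)) with hXd
  set Y : (Fin n → ℤ) × (Fin n → ℤ) := (Function.update l c (l c + p + 2), u) with hYd
  have hXY : Y ≠ X := by
    intro h
    have h3 := congrFun (congrArg Prod.fst h) c
    have h4 : Function.update l c (l c + p + 2) c = l c := h3
    rw [Function.update_self] at h4
    omega
  have hun : un [X, Y] ⊆ Box l u := by
    rintro x ⟨b', hb', hx⟩
    rcases List.mem_cons.1 hb' with h | h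
    · rw [h] at hx
      exact ((hX x).1 hx).1
    · rw [List.mem_singleton.1 h] at hx
      exact ((hY x).1 hx).1
  have hL : Boxes [X, Y] := by
    refine ⟨fun b' hb' => ⟨i, ?_⟩, ?_⟩
    · rcases List.mem_cons.1 hb' with h | h
      · rw [h]
        show l i + 4 ≤ Function.update u c (l c + p) i
        rw [Function.update_of_ne hic]
        exact hi
      · rw [List.mem_singleton.1 h]
        show Function.update l c (l c + p + 2) i + 4 ≤ u i
        rw [Function.update_of_ne hic]
        exact hi
    · refine List.pairwise_pair.2 fun x hx y hy => far_of_le c ?_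
      have h3 := ((hX x).1 hx).2
      have h4 := ((hY y).1 hy).2
      omega
  have hzero : ∀ x ∈ Box l (Function.update u c (l c + p)),
      ∀ y ∈ Box l (Function.update u c (l c + p)),
      ∀ z ∈ Box (Function.update l c (l c + p + 2)) u,
      ∀ w ∈ Box (Function.update l c (l c + p + 2)) u, (t x - t y) * (t z - t w) = 0 := by
    intro x hx y hy z hz w hw
    by_contra hne
    have hmix : Mix t (sets [X, Y]) ((t x - t y) * (t z - t w)) :=
      ⟨x, hx, y, hy, t z - t w, ⟨z, hz, w, hw, 1, rfl, (mul_one _).symm⟩, rfl⟩
    have h3 := mix_dim (K := K) (fun b' => if b' = X then k1 else k2) [X, Y] hL (by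
      intro b' hb'
      rcases List.mem_cons.1 hb' with h | h
      · rw [h, if_pos rfl]
        exact h1
      · rw [List.mem_singleton.1 h, if_neg hXY]
        exact h2) V t (fun x hx => hinj x (hun hx)) (hS.mono hun) _ hmix hne
    have h4 : ([X, Y].map (fun b' => if b' = X then k1 else k2)).prod = k1 * k2 := by
      rw [List.map_cons, List.map_cons, List.map_nil, List.prod_cons, List.prod_cons,
        List.prod_nil, if_pos rfl, if_neg hXY, mul_one]
    rw [h4] at h3
    omega
  have hl : l ∈ Box l u := fun c' => ⟨le_refl _, by have := hs c'; omega⟩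
  have hu : u ∈ Box l u := fun c' => ⟨by have := hs c'; omega, le_refl _⟩
  refine ⟨i, hzero l ((hX l).2 ⟨hl, by omega⟩) _ ((hX _).2 ⟨fun c' => ?_, ?_⟩) u
    ((hY u).2 ⟨hu, by omega⟩) _ ((hY _).2 ⟨fun c' => ?_, ?_⟩)⟩
  · have := hs c'
    by_cases h : c' = i
    · rw [h, mv_same]; rw [h] at this; constructor <;> omega
    · rw [mv_ne _ h]; constructor <;> omega
  · rw [mv_ne _ hic.symm]
    omega
  · have := hs c'
    by_cases h : c' = i
    · rw [h, mv_same]; rw [h] at this; constructor <;> omega
    · rw [mv_ne _ h]; constructor <;> omega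
  · rw [mv_ne _ hic.symm]
    omega

/-- (R). As `nabS_step`; irreducible case: if `dim V < k1 * k2` then by `mix_dim` for the list
`[X, Y]`, `X = {x c ≤ l c + p}`, `Y = {x c ≥ l c + p + 2}`, all products
`(t x - t y) * (t z - t w)` are zero; take `i ≠ c`: `Corner l u t i`; then `irreducible_pham2` and
`Pham.rank`. -/
theorem nabS_step2 [IsAlgClosed K] (D : Fin n → ℕ) (hD : ∀ c, 2 ≤ D c) {a b : Fin n} (hab : a ≠ b)
    (ha : 6 ≤ D a) (hb : 4 ≤ D b) (c : Fin n) {p q : ℕ} (hpq : D c = p + q + 2) {k1 k2 : ℕ}
    (h1 : NabS.{v} K (Function.update D c p) k1) (h2 : NabS.{v} K (Function.update D c q) k2) :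
    NabS.{v} K D (min (k1 * k2) (∏ c, D c)) := by
  classical
  intro l u hlu
  have key : ∀ m : ℕ, ∀ (V : Type v) [AddCommGroup V] [Module K V] [FiniteDimensional K V]
      (t : (Fin n → ℤ) → Module.End K V), (∀ x ∈ Box l u, Function.Injective (t x)) →
      Sys (Box l u) t → Module.finrank K V = m → m < min (k1 * k2) (∏ c, D c) →
      ∀ x ∈ Box l u, ∀ y ∈ Box l u, t x = t y := by
    intro m
    induction m using Nat.strong_induction_on with
    | _ m ih =>
      intro V _ _ _ t hinj hS hm hlt
      by_contra hnf
      push Not at hnf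
      by_cases hirr : ∀ W : Submodule K V, (∀ x ∈ Box l u, ∀ w ∈ W, t x w ∈ W) → W = ⊥ ∨ W = ⊤
      · have hs : ∀ c, l c + 2 ≤ u c := fun c => by have := hD c; rw [hlu c]; omega
        obtain ⟨i, hC⟩ := corner_of_dim (K := K) hs hab (by rw [hlu a]; omega)
          (by rw [hlu b]; omega) c (p := p) (q := q) (by rw [hlu c, hpq])
          (h1 _ _ fun c' => by
            by_cases hc : c' = c
            · subst hc
              rw [Function.update_self, Function.update_self]
            · rw [Function.update_of_ne hc, Function.update_of_ne hc, hlu c'])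
          (h2 _ _ fun c' => by
            by_cases hc : c' = c
            · subst hc
              rw [Function.update_self, Function.update_self, hlu c', hpq]
              push_cast
              ring
            · rw [Function.update_of_ne hc, Function.update_of_ne hc, hlu c'])
          hinj hS (by rw [hm]; exact lt_of_lt_of_le hlt (min_le_left _ _))
        obtain ⟨μ, hμ, q', e, hP⟩ := irreducible_pham2 (l := l) (u := u) hs hab
          (by rw [hlu a]; omega) (by rw [hlu b]; omega) hinj hS hirr hnf hC
        have h3 := hP.rank (fun c => by rw [hlu c]; omega)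
        have h4 : ∏ c, (u c - l c).toNat = ∏ c, D c :=
          Finset.prod_congr rfl fun c _ => by rw [hlu c]; omega
        rw [h4, hm] at h3
        exact absurd (lt_of_lt_of_le hlt (min_le_right _ _)) (not_lt.2 h3)
      · push Not at hirr
        obtain ⟨W, hW, hb', ht'⟩ := hirr
        have hr1 : Module.finrank K W < m := by
          rw [← hm]
          exact Submodule.finrank_lt ht'
        have hr2 : Module.finrank K (V ⧸ W) < m := by
          have h5 := Submodule.finrank_quotient_add_finrank W
          have h6 : 0 < Module.finrank K W := by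
            rw [Module.finrank_pos_iff]
            exact Submodule.nontrivial_iff_ne_bot.2 hb'
          omega
        obtain ⟨t₁, hS₁, ht₁⟩ := hS.restrict W hW
        obtain ⟨t₂, hS₂, hi₂, ht₂⟩ := hS.quot hinj W hW
        have hf₁ := ih _ hr1 W t₁ (fun x hx w w' h => by
          apply Subtype.ext
          apply hinj x hx
          rw [← ht₁ x hx, ← ht₁ x hx, h]) hS₁ rfl (hr1.trans hlt)
        have hf₂ := ih _ hr2 (V ⧸ W) t₂ hi₂ hS₂ rfl (hr2.trans hlt)
        obtain ⟨x, hx, y, hy, hne⟩ := hnf
        refine hne (ext_flat a (by rw [hlu a]; omega)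
          (fun x hx => LinearMap.injective_iff_surjective.1 (hinj x hx)) hS W ?_ ?_ x hx y hy)
        · intro x hx y hy w hw
          have h7 := ht₁ x hx ⟨w, hw⟩
          have h8 := ht₁ y hy ⟨w, hw⟩
          rw [hf₁ x hx y hy] at h7
          exact h7.symm.trans h8
        · intro x hx y hy w
          have h7 := ht₂ x hx w
          have h8 := ht₂ y hy w
          rw [hf₂ x hx y hy] at h7
          exact (Submodule.Quotient.eq W).1 (h7.symm.trans h8)
  intro V _ _ _ t hinj hS hr
  exact key _ V t hinj hS rfl hr

end Pool.Agent.HypLow
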